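import Pool.Agent.LibKam44.K26
set_option autoImplicit false
namespace Pool.Agent.LibKam44
open Filter Topology

/-- positive measure of linear growth near the elliptic fixed point of an odd force -/
theorem zero_exp (F F1 F2 : ℝ → ℝ) (hA : AnalyticAt ℝ F 0) (hodd : ∀ x, F (-x) = -F x)
    (h1 : ∀ x, HasDerivAt F (F1 x) x) (h2 : ∀ x, HasDerivAt F1 (F2 x) x)
    (h3 : 9 / 5 < F1 0) (h4 : F1 0 < 39 / 20)
    (h5 : ∀ x, 0 ≤ x → x ≤ 6 / 5 → x / 20 ≤ F2 x) :
    ∀ ε > 0, 0 < MeasureTheory.volume {q : ℝ × ℝ | ‖q‖ < ε ∧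
      ∃ C : ℝ, ∀ n : ℕ, ‖fderiv ℝ ((fun p : ℝ × ℝ => (F p.1 - p.2, p.1))^[n]) q‖ ≤
        C * (n + 1)} := by
  intro ε hε
  have e1 : deriv F = F1 := funext fun x => (h1 x).deriv
  have e2 : deriv F1 = F2 := funext fun x => (h2 x).deriv
  have hF0 : F 0 = 0 := by
    have := hodd 0
    rw [neg_zero] at this
    linarith
  have hF1 : ∀ x, F1 (-x) = F1 x := by
    intro x
    have d1 : HasDerivAt (fun x => F (-x)) (-F1 (-x)) x :=
      (HasDerivAt.comp x (h1 (-x)) (hasDerivAt_neg x)).congr_deriv (by ring)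
    have d2 : HasDerivAt (fun x => -F x) (-F1 x) x := (h1 x).neg
    have e : (fun x => F (-x)) = fun x => -F x := funext hodd
    rw [e] at d1
    have := d1.unique d2
    linarith
  have hF20 : F2 0 = 0 := by
    have d1 : HasDerivAt (fun x => F1 (-x)) (-F2 (-0)) 0 :=
      (HasDerivAt.comp (0 : ℝ) (h2 (-0)) (hasDerivAt_neg (0 : ℝ))).congr_deriv (by ring)
    have e : (fun x => F1 (-x)) = F1 := funext hF1
    rw [e, neg_zero] at d1
    have := d1.unique (h2 0)
    linarith
  have hA1 : AnalyticAt ℝ F1 0 := by rw [← e1]; exact hA.deriv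
  have hA2 : AnalyticAt ℝ F2 0 := by rw [← e2]; exact hA1.deriv
  set d := deriv F2 0 with hd
  have hd2 : HasDerivAt F2 d 0 := hA2.differentiableAt.hasDerivAt
  have hd0 : 1 / 20 ≤ d := by
    have h6 := (hasDerivAt_iff_tendsto_slope.1 hd2)
    have h7 : Tendsto (slope F2 0) (𝓝[>] 0) (𝓝 d) :=
      h6.mono_left (nhdsWithin_mono _ (fun x hx => ne_of_gt hx))
    refine ge_of_tendsto h7 ?_
    have h8 : Set.Ioc (0 : ℝ) (6 / 5) ∈ 𝓝[>] (0 : ℝ) := Ioc_mem_nhdsGT (by norm_num)
    filter_upwards [h8] with x hx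
    rw [slope_def_field, hF20, sub_zero, sub_zero, le_div_iff₀ hx.1]
    have := h5 x hx.1.le hx.2
    linarith
  obtain ⟨p, hp⟩ := hA
  obtain ⟨r, hr⟩ := hp
  set f : ℕ → ℝ := fun n => p.coeff n with hf
  obtain ⟨R, hR0, hRr⟩ : ∃ R : NNReal, 0 < R ∧ (R : ENNReal) < r := by
    obtain ⟨R, hR⟩ := ENNReal.lt_iff_exists_nnreal_btwn.1 hr.r_pos
    exact ⟨R, by exact_mod_cast hR.1, hR.2⟩
  have hs : Summable (fun n : ℕ => |f n| * (R : ℝ) ^ n) := by
    have h6 := p.summable_norm_mul_pow (hRr.trans_le hr.r_le)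
    refine Summable.of_nonneg_of_le (fun n => by positivity) (fun n => ?_) h6
    apply mul_le_mul_of_nonneg_right _ (by positivity)
    rw [hf, ← Real.norm_eq_abs]
    simp
  have hFs : ∀ x : ℝ, |x| < R → F x = ∑' n : ℕ, f n * x ^ n := by
    intro x hx
    have hx' : x ∈ Metric.eball (0 : ℝ) r := by
      rw [Metric.mem_eball, edist_zero_right]
      refine lt_trans ?_ hRr
      have : ‖x‖₊ < R := by
        rw [← NNReal.coe_lt_coe]
        exact hx
      exact_mod_cast this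
    have h6 := (hr.hasSum hx').tsum_eq
    rw [zero_add] at h6
    rw [← h6]
    refine tsum_congr fun n => ?_
    rw [FormalMultilinearSeries.apply_eq_pow_smul_coeff, smul_eq_mul, mul_comm]
  have hco : ∀ n : ℕ, (n.factorial : ℝ) * f n = iteratedDeriv n F 0 := by
    intro n
    have h6 := hr.factorial_smul (1 : ℝ) n
    rw [iteratedDeriv_eq_iteratedFDeriv, ← h6]
    simp [hf]
  have hc0 : f 0 = 0 := by
    have := hco 0
    simpa [hF0] using this
  have hc1 : f 1 = F1 0 := by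
    have := hco 1
    rw [iteratedDeriv_one, e1] at this
    simpa using this
  have hc2 : f 2 = 0 := by
    have := hco 2
    rw [iteratedDeriv_succ, iteratedDeriv_one, e1, e2, hF20] at this
    simpa using this
  have hc3 : 0 < f 3 := by
    have := hco 3
    rw [iteratedDeriv_succ, iteratedDeriv_succ, iteratedDeriv_one, e1, e2, ← hd] at this
    have h6 : ((Nat.factorial 3 : ℕ) : ℝ) = 6 := by norm_num [Nat.factorial]
    rw [h6] at this
    linarith
  have hα1 : -1 ≤ F1 0 / 2 := by linarith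
  have hα2 : F1 0 / 2 ≤ 1 := by linarith
  have hcos : Real.cos (Real.arccos (F1 0 / 2)) = F1 0 / 2 := Real.cos_arccos hα1 hα2
  have hα : 0 < Real.arccos (F1 0 / 2) := Real.arccos_pos.2 (by linarith)
  have hα' : Real.arccos (F1 0 / 2) < Real.pi := by
    refine lt_of_le_of_ne (Real.arccos_le_pi _) fun h => ?_
    rw [h, Real.cos_pi] at hcos
    linarith
  exact kam_main (F := F) (f := f) (R := R) (α := Real.arccos (F1 0 / 2)) (by exact_mod_cast hR0)
    hs hFs hc0 (by rw [hc1, hcos]; ring) hc2 hc3 hα hα' (by rw [hcos]; linarith) hε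

end Pool.Agent.LibKam44
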