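import Mathlib
set_option autoImplicit false
namespace Pool.Agent.LibKam44

/-- `u` is the sum of an absolutely convergent trigonometric series whose norm with the weight
`exp (ρ |k|)` is at most `M`; the index type of the series is arbitrary. -/
def A (ρ M : ℝ) (u : ℝ → ℝ) : Prop :=
  ∃ (ι : Type) (c : ι → ℂ) (k : ι → ℤ),
    Summable (fun i => ‖c i‖ * Real.exp (ρ * |(k i : ℝ)|)) ∧
    ∑' i, ‖c i‖ * Real.exp (ρ * |(k i : ℝ)|) ≤ M ∧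
    ∀ θ : ℝ, ((u θ : ℝ) : ℂ) = ∑' i, c i * Complex.exp ((k i : ℂ) * (θ : ℂ) * Complex.I)

/-- mean value over a period -/
noncomputable def avg (u : ℝ → ℝ) : ℝ := (2 * Real.pi)⁻¹ * ∫ θ in (0 : ℝ)..(2 * Real.pi), u θ

/-- small divisor condition -/
def Dio (κ Ω : ℝ) : Prop :=
  ∀ k : ℤ, k ≠ 0 → κ ≤ ‖Complex.exp ((k : ℂ) * (Ω : ℂ) * Complex.I) - 1‖ * (k : ℝ) ^ 2

/-- a nonlinearity with derivative `Φ1` and all bounds which the Newton step uses -/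
structure NL (Φ Φ1 : ℝ → ℝ) (B : ℝ) : Prop where
  nonneg : 0 ≤ B
  val : ∀ (ρ : ℝ) (u : ℝ → ℝ), 0 ≤ ρ → A ρ 3 u → A ρ B (fun θ => Φ (u θ))
  val1 : ∀ (ρ : ℝ) (u : ℝ → ℝ), 0 ≤ ρ → A ρ 3 u → A ρ B (fun θ => Φ1 (u θ))
  taylor : ∀ (ρ m : ℝ) (u h : ℝ → ℝ), 0 ≤ ρ → m ≤ 1 → A ρ 2 u → A ρ m h →
    A ρ (B * m ^ 2) (fun θ => Φ (u θ + h θ) - Φ (u θ) - Φ1 (u θ) * h θ)
  der : ∀ z : ℝ, |z| < 3 → HasDerivAt Φ (Φ1 z) z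
  lip : ∀ z w : ℝ, |z| ≤ 5 / 2 → |w| ≤ 5 / 2 → |Φ1 z - Φ1 w| ≤ B * |z - w|

/-- power series -/
noncomputable def H (g : ℕ → ℝ) (z : ℝ) : ℝ := ∑' n : ℕ, g n * z ^ n

/-- derivative of the power series -/
noncomputable def H1 (g : ℕ → ℝ) (z : ℝ) : ℝ := ∑' n : ℕ, (n : ℝ) * g n * z ^ (n - 1)

/-- bound for the coefficients -/
def PS (g : ℕ → ℝ) (B : ℝ) : Prop :=
  Summable (fun n : ℕ => |g n| * ((n : ℝ) + 1) ^ 2 * 3 ^ n) ∧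
  ∑' n : ℕ, |g n| * ((n : ℝ) + 1) ^ 2 * 3 ^ n ≤ B

/-- the scaled force -/
def Fn (c ν : ℝ) (Φ : ℝ → ℝ) (z : ℝ) : ℝ := 2 * c * z + ν * Φ z

/-- derivative of the scaled force -/
def Fd (c ν : ℝ) (Φ1 : ℝ → ℝ) (z : ℝ) : ℝ := 2 * c + ν * Φ1 z

/-- the error of an approximate solution -/
def Er (F : ℝ → ℝ) (Ω : ℝ) (X : ℝ → ℝ) (θ : ℝ) : ℝ := X (θ + Ω) + X (θ - Ω) - F (X θ)

/-- the determinant of the frame -/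
def Wr (Ω : ℝ) (X w : ℝ → ℝ) (θ : ℝ) : ℝ := w θ * X (θ - Ω) - w (θ - Ω) * X θ

/-- the torsion -/
noncomputable def Sr (F F1 : ℝ → ℝ) (Ω : ℝ) (X w : ℝ → ℝ) (θ : ℝ) : ℝ :=
  X θ * (X θ * F1 (X θ) - F (X θ) - Er F Ω X θ) / (Wr Ω X w θ * Wr Ω X w (θ + Ω))

/-- the map of the plane -/
def Tm (F : ℝ → ℝ) (p : ℝ × ℝ) : ℝ × ℝ := (F p.1 - p.2, p.1)

/-- an invariant curve of rotation number `Ω` which is close to the circle of radius `r`,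
parametrised by `θ ↦ (X θ, X (θ - Ω))`, with derivative `w` -/
structure Cur (F : ℝ → ℝ) (Ω r η L : ℝ) (X w : ℝ → ℝ) : Prop where
  eqn : ∀ θ, X (θ + Ω) + X (θ - Ω) = F (X θ)
  der : ∀ θ, HasDerivAt X (w θ) θ
  per : ∀ θ, X (θ + 2 * Real.pi) = X θ
  close : ∀ θ, |X θ - r * Real.cos θ| ≤ η
  close1 : ∀ θ, |w θ + r * Real.sin θ| ≤ η
  lip : ∀ θ φ, |w θ - w φ| ≤ L * |θ - φ|

/-- a force with derivative `F1`, Lipschitz on `|z| ≤ 5/2` -/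
structure Fo (F F1 : ℝ → ℝ) (L : ℝ) : Prop where
  der : ∀ z : ℝ, |z| ≤ 5 / 2 → HasDerivAt F (F1 z) z
  bd : ∀ z : ℝ, |z| ≤ 5 / 2 → |F1 z| ≤ L
  lip : ∀ z w : ℝ, |z| ≤ 5 / 2 → |w| ≤ 5 / 2 → |F1 z - F1 w| ≤ L * |z - w|

end Pool.Agent.LibKam44
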