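import Pool.Agent.LibKam44.Defs
set_option autoImplicit false
namespace Pool.Agent.LibKam44
/-
ROW K01 (basic facts on the class A). PLAN: the general term has norm
‖c i * exp(k θ I)‖ = ‖c i‖ ≤ ‖c i‖ * exp(ρ |k i|) for ρ ≥ 0, so the series is absolutely and uniformly
convergent: continuous_tsum for A_cont, norm_tsum_le_tsum_norm for A_abs. A_per: every term has
period 2π (Complex.exp_periodic, k integer; exp_int_mul / Complex.exp_int_mul_two_pi_mul_I).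
-/
theorem A_nonneg {ρ M : ℝ} {u : ℝ → ℝ} (h : A ρ M u) : 0 ≤ M := by
  obtain ⟨ι, c, k, h1, h2, h3⟩ := h
  exact (tsum_nonneg (fun i => by positivity)).trans h2

theorem A_mono {ρ ρ' M M' : ℝ} {u : ℝ → ℝ} (hρ : ρ' ≤ ρ) (hM : M ≤ M') (h : A ρ M u) :
    A ρ' M' u := by
  obtain ⟨ι, c, k, h1, h2, h3⟩ := h
  have hle : ∀ i, ‖c i‖ * Real.exp (ρ' * |(k i : ℝ)|) ≤ ‖c i‖ * Real.exp (ρ * |(k i : ℝ)|) := by
    intro i
    apply mul_le_mul_of_nonneg_left _ (norm_nonneg _)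
    apply Real.exp_le_exp.mpr
    exact mul_le_mul_of_nonneg_right hρ (abs_nonneg _)
  have hs : Summable (fun i => ‖c i‖ * Real.exp (ρ' * |(k i : ℝ)|)) :=
    Summable.of_nonneg_of_le (fun i => by positivity) hle h1
  exact ⟨ι, c, k, hs, ((hs.tsum_le_tsum hle h1).trans h2).trans hM, h3⟩

private theorem K01_norm (z : ℂ) (k : ℤ) (θ : ℝ) :
    ‖z * Complex.exp ((k : ℂ) * (θ : ℂ) * Complex.I)‖ = ‖z‖ := by
  have h : (k : ℂ) * (θ : ℂ) * Complex.I = (((k : ℝ) * θ : ℝ) : ℂ) * Complex.I := by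
    push_cast
    ring
  rw [norm_mul, h, Complex.norm_exp_ofReal_mul_I, mul_one]

private theorem K01_le {ρ : ℝ} (h0 : 0 ≤ ρ) (z : ℂ) (k : ℤ) :
    ‖z‖ ≤ ‖z‖ * Real.exp (ρ * |(k : ℝ)|) := by
  have h1 : 1 ≤ Real.exp (ρ * |(k : ℝ)|) := Real.one_le_exp (by positivity)
  exact le_mul_of_one_le_right (norm_nonneg _) h1

/-- the series converges absolutely -/
theorem A_summable {ρ : ℝ} (h0 : 0 ≤ ρ) {ι : Type} {c : ι → ℂ} {k : ι → ℤ}
    (h : Summable (fun i => ‖c i‖ * Real.exp (ρ * |(k i : ℝ)|))) (θ : ℝ) :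
    Summable (fun i => ‖c i * Complex.exp ((k i : ℂ) * (θ : ℂ) * Complex.I)‖) := by
  refine Summable.of_nonneg_of_le (fun i => norm_nonneg _) (fun i => ?_) h
  rw [K01_norm]
  exact K01_le h0 _ _

theorem A_abs {ρ M : ℝ} {u : ℝ → ℝ} (h0 : 0 ≤ ρ) (h : A ρ M u) (θ : ℝ) : |u θ| ≤ M := by
  obtain ⟨ι, c, k, h1, h2, h3⟩ := h
  have e1 : |u θ| = ‖((u θ : ℝ) : ℂ)‖ := by rw [Complex.norm_real, Real.norm_eq_abs]
  rw [e1, h3]
  have hs := A_summable h0 h1 θ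
  calc ‖∑' i, c i * Complex.exp ((k i : ℂ) * (θ : ℂ) * Complex.I)‖
      ≤ ∑' i, ‖c i * Complex.exp ((k i : ℂ) * (θ : ℂ) * Complex.I)‖ := norm_tsum_le_tsum_norm hs
    _ ≤ ∑' i, ‖c i‖ * Real.exp (ρ * |(k i : ℝ)|) := by
        apply hs.tsum_le_tsum _ h1
        intro i
        rw [K01_norm]
        exact K01_le h0 _ _
    _ ≤ M := h2

theorem A_per {ρ M : ℝ} {u : ℝ → ℝ} (h : A ρ M u) (θ : ℝ) : u (θ + 2 * Real.pi) = u θ := by
  obtain ⟨ι, c, k, h1, h2, h3⟩ := h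
  have e : ((u (θ + 2 * Real.pi) : ℝ) : ℂ) = ((u θ : ℝ) : ℂ) := by
    rw [h3, h3]
    apply tsum_congr
    intro i
    congr 1
    have h4 : (k i : ℂ) * ((θ + 2 * Real.pi : ℝ) : ℂ) * Complex.I =
        (k i : ℂ) * (θ : ℂ) * Complex.I + (k i : ℂ) * (2 * Real.pi * Complex.I) := by
      push_cast
      ring
    rw [h4, Complex.exp_add, Complex.exp_int_mul_two_pi_mul_I, mul_one]
  exact_mod_cast e

theorem A_cont {ρ M : ℝ} {u : ℝ → ℝ} (h0 : 0 ≤ ρ) (h : A ρ M u) : Continuous u := by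
  obtain ⟨ι, c, k, h1, h2, h3⟩ := h
  have hc : Continuous (fun θ : ℝ => ∑' i, c i * Complex.exp ((k i : ℂ) * (θ : ℂ) * Complex.I)) := by
    apply continuous_tsum (u := fun i => ‖c i‖ * Real.exp (ρ * |(k i : ℝ)|))
    · intro i
      fun_prop
    · exact h1
    · intro i θ
      rw [K01_norm]
      exact K01_le h0 _ _
  have he : u = fun θ : ℝ => (∑' i, c i * Complex.exp ((k i : ℂ) * (θ : ℂ) * Complex.I)).re := by
    funext θ
    rw [← h3, Complex.ofReal_re]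
  rw [he]
  exact Complex.continuous_re.comp hc

end Pool.Agent.LibKam44
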