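import Pool.Agent.LibKam44.Defs
set_option autoImplicit false
namespace Pool.Agent.LibKam44
/-
ROW K02 (constants and trigonometric functions are in A). PLAN: index type Unit (constant, k = 0) resp.
Bool (cos nθ = (e^{inθ} + e^{-inθ})/2, sin nθ = (e^{inθ} - e^{-inθ})/(2i), k = ±n, coefficients of norm 1/2).
-/
private theorem K02_fin {ι : Type} [Fintype ι] {ρ M : ℝ} {u : ℝ → ℝ} (c : ι → ℂ) (k : ι → ℤ)
    (h1 : ∑ i, ‖c i‖ * Real.exp (ρ * |(k i : ℝ)|) ≤ M)
    (h2 : ∀ θ : ℝ, ((u θ : ℝ) : ℂ) = ∑ i, c i * Complex.exp ((k i : ℂ) * (θ : ℂ) * Complex.I)) :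
    A ρ M u := by
  refine ⟨ι, c, k, (hasSum_fintype _).summable, ?_, fun θ => ?_⟩
  · rw [tsum_fintype]
    exact h1
  · rw [tsum_fintype]
    exact h2 θ

theorem A_const (ρ a : ℝ) : A ρ |a| (fun _ => a) := by
  refine K02_fin (ι := Unit) (fun _ => (a : ℂ)) (fun _ => 0) ?_ fun θ => ?_
  · simp
  · simp

theorem A_cos (ρ : ℝ) (n : ℕ) : A ρ (Real.exp (ρ * n)) (fun θ => Real.cos (n * θ)) := by
  refine K02_fin (ι := Bool) (fun _ => 1 / 2) (fun b => if b then (n : ℤ) else - (n : ℤ)) ?_ fun θ => ?_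
  · rw [Fintype.sum_bool]
    simp
    linarith
  · rw [Fintype.sum_bool, Complex.ofReal_cos, Complex.cos]
    push_cast
    simp only [if_true, Bool.false_eq_true, if_false]
    push_cast
    ring_nf

theorem A_sin (ρ : ℝ) (n : ℕ) : A ρ (Real.exp (ρ * n)) (fun θ => Real.sin (n * θ)) := by
  refine K02_fin (ι := Bool) (fun b => if b then - Complex.I / 2 else Complex.I / 2)
    (fun b => if b then (n : ℤ) else - (n : ℤ)) ?_ fun θ => ?_
  · rw [Fintype.sum_bool]
    simp
    linarith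
  · rw [Fintype.sum_bool, Complex.ofReal_sin, Complex.sin]
    push_cast
    simp only [if_true, Bool.false_eq_true, if_false]
    push_cast
    ring_nf

end Pool.Agent.LibKam44
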