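import Pool.Agent.LibKam44.K01
set_option autoImplicit false
namespace Pool.Agent.LibKam44
/-
ROW K03 (linear operations). PLAN: A_add: index type ι ⊕ ι' (Summable.sum / tsum_sum type lemmas for Sum
types: summable_sum, Summable.tsum_sum or HasSum.sum). A_smul: coefficients a * c i. A_neg: A_smul (-1).
A_shift: coefficients c i * exp(k a I), same norm.
-/
theorem A_add {ρ M N : ℝ} {u v : ℝ → ℝ} (h0 : 0 ≤ ρ) (hu : A ρ M u) (hv : A ρ N v) :
    A ρ (M + N) (fun θ => u θ + v θ) := by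
  obtain ⟨ι, c, k, hs, hM, hu⟩ := hu
  obtain ⟨ι', c', k', hs', hN, hv⟩ := hv
  have h1 := HasSum.sum (f := fun j => ‖(Sum.elim c c' j : ℂ)‖ *
    Real.exp (ρ * |((Sum.elim k k' j : ℤ) : ℝ)|)) hs.hasSum hs'.hasSum
  refine ⟨ι ⊕ ι', Sum.elim c c', Sum.elim k k', h1.summable, ?_, fun θ => ?_⟩
  · rw [h1.tsum_eq]
    exact add_le_add hM hN
  · have e1 : Summable fun i => c i * Complex.exp ((k i : ℂ) * (θ : ℂ) * Complex.I) :=
      (A_summable h0 hs θ).of_norm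
    have e2 : Summable fun i => c' i * Complex.exp ((k' i : ℂ) * (θ : ℂ) * Complex.I) :=
      (A_summable h0 hs' θ).of_norm
    have h2 := HasSum.sum (f := fun j => (Sum.elim c c' j : ℂ) *
      Complex.exp (((Sum.elim k k' j : ℤ) : ℂ) * (θ : ℂ) * Complex.I)) e1.hasSum e2.hasSum
    rw [h2.tsum_eq, ← hu θ, ← hv θ]
    push_cast
    rfl

theorem A_smul {ρ M : ℝ} {u : ℝ → ℝ} (a : ℝ) (hu : A ρ M u) :
    A ρ (|a| * M) (fun θ => a * u θ) := by
  obtain ⟨ι, c, k, hs, hM, hu⟩ := hu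
  have e : ∀ i, ‖(a : ℂ) * c i‖ * Real.exp (ρ * |(k i : ℝ)|) =
      |a| * (‖c i‖ * Real.exp (ρ * |(k i : ℝ)|)) := by
    intro i
    rw [norm_mul, Complex.norm_real, Real.norm_eq_abs, mul_assoc]
  refine ⟨ι, fun i => (a : ℂ) * c i, k, ?_, ?_, fun θ => ?_⟩
  · simp only [e]
    exact hs.mul_left _
  · simp only [e]
    rw [tsum_mul_left]
    exact mul_le_mul_of_nonneg_left hM (abs_nonneg a)
  · push_cast
    rw [hu θ, ← tsum_mul_left]
    exact tsum_congr fun i => (mul_assoc _ _ _).symm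

theorem A_neg {ρ M : ℝ} {u : ℝ → ℝ} (hu : A ρ M u) : A ρ M (fun θ => -u θ) := by
  have h := A_smul (-1) hu
  simpa using h

theorem A_sub {ρ M N : ℝ} {u v : ℝ → ℝ} (h0 : 0 ≤ ρ) (hu : A ρ M u) (hv : A ρ N v) :
    A ρ (M + N) (fun θ => u θ - v θ) := by
  simpa only [sub_eq_add_neg] using A_add h0 hu (A_neg hv)

theorem A_shift {ρ M : ℝ} {u : ℝ → ℝ} (a : ℝ) (hu : A ρ M u) :
    A ρ M (fun θ => u (θ + a)) := by
  obtain ⟨ι, c, k, hs, hM, hu⟩ := hu
  have e : ∀ i, ‖c i * Complex.exp ((k i : ℂ) * (a : ℂ) * Complex.I)‖ * Real.exp (ρ * |(k i : ℝ)|) =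
      ‖c i‖ * Real.exp (ρ * |(k i : ℝ)|) := by
    intro i
    have h1 : (k i : ℂ) * (a : ℂ) * Complex.I = (((k i : ℝ) * a : ℝ) : ℂ) * Complex.I := by
      push_cast
      rfl
    rw [norm_mul, h1, Complex.norm_exp_ofReal_mul_I, mul_one]
  refine ⟨ι, fun i => c i * Complex.exp ((k i : ℂ) * (a : ℂ) * Complex.I), k, ?_, ?_, fun θ => ?_⟩
  · simp only [e]
    exact hs
  · simp only [e]
    exact hM
  · rw [hu (θ + a)]
    refine tsum_congr fun i => ?_
    show c i * Complex.exp ((k i : ℂ) * ((θ + a : ℝ) : ℂ) * Complex.I) =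
      c i * Complex.exp ((k i : ℂ) * (a : ℂ) * Complex.I) * Complex.exp ((k i : ℂ) * (θ : ℂ) * Complex.I)
    rw [mul_assoc (c i), ← Complex.exp_add]
    congr 2
    push_cast
    ring

theorem A_shift' {ρ M : ℝ} {u : ℝ → ℝ} (a : ℝ) (hu : A ρ M u) :
    A ρ M (fun θ => u (θ - a)) := by
  simpa only [sub_eq_add_neg] using A_shift (-a) hu

end Pool.Agent.LibKam44
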