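import Pool.Agent.LibKam44.K01
import Pool.Agent.LibKam44.K02
set_option autoImplicit false
namespace Pool.Agent.LibKam44
/-
ROW K04 (products). PLAN: index type ι × ι', coefficients c i * d j, frequencies k i + l j;
tsum_mul_tsum_of_summable_norm for the value, |k + l| ≤ |k| + |l| and ρ ≥ 0 for the norm,
Summable.mul_of_nonneg and Summable.tsum_mul_tsum for the norm series. A_pow by induction
(A ρ 1 (fun _ => 1) is A_const).
-/
theorem A_mul {ρ M N : ℝ} {u v : ℝ → ℝ} (h0 : 0 ≤ ρ) (hu : A ρ M u) (hv : A ρ N v) :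
    A ρ (M * N) (fun θ => u θ * v θ) := by
  have hM := A_nonneg hu
  obtain ⟨ι, c, k, hs, hle, hval⟩ := hu
  obtain ⟨ι', d, l, hs', hle', hval'⟩ := hv
  have hpt : ∀ q : ι × ι', ‖c q.1 * d q.2‖ * Real.exp (ρ * |((k q.1 + l q.2 : ℤ) : ℝ)|) ≤
      (‖c q.1‖ * Real.exp (ρ * |(k q.1 : ℝ)|)) * (‖d q.2‖ * Real.exp (ρ * |(l q.2 : ℝ)|)) := by
    intro q
    have h1 : |((k q.1 + l q.2 : ℤ) : ℝ)| ≤ |(k q.1 : ℝ)| + |(l q.2 : ℝ)| := by
      push_cast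
      exact abs_add_le _ _
    have h2 : Real.exp (ρ * |((k q.1 + l q.2 : ℤ) : ℝ)|) ≤
        Real.exp (ρ * |(k q.1 : ℝ)|) * Real.exp (ρ * |(l q.2 : ℝ)|) := by
      rw [← Real.exp_add, ← mul_add]
      exact Real.exp_le_exp.2 (mul_le_mul_of_nonneg_left h1 h0)
    rw [norm_mul]
    calc ‖c q.1‖ * ‖d q.2‖ * Real.exp (ρ * |((k q.1 + l q.2 : ℤ) : ℝ)|)
        ≤ ‖c q.1‖ * ‖d q.2‖ * (Real.exp (ρ * |(k q.1 : ℝ)|) * Real.exp (ρ * |(l q.2 : ℝ)|)) :=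
          mul_le_mul_of_nonneg_left h2 (by positivity)
      _ = _ := by ring
  have hn1 : ∀ i, 0 ≤ ‖c i‖ * Real.exp (ρ * |(k i : ℝ)|) := fun i => by positivity
  have hn2 : ∀ i, 0 ≤ ‖d i‖ * Real.exp (ρ * |(l i : ℝ)|) := fun i => by positivity
  have hsum2 : Summable (fun q : ι × ι' => (‖c q.1‖ * Real.exp (ρ * |(k q.1 : ℝ)|)) *
      (‖d q.2‖ * Real.exp (ρ * |(l q.2 : ℝ)|))) := hs.mul_of_nonneg hs' hn1 hn2
  have hsum : Summable (fun q : ι × ι' =>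
      ‖c q.1 * d q.2‖ * Real.exp (ρ * |((k q.1 + l q.2 : ℤ) : ℝ)|)) :=
    Summable.of_nonneg_of_le (fun q => by positivity) hpt hsum2
  refine ⟨ι × ι', fun q => c q.1 * d q.2, fun q => k q.1 + l q.2, hsum, ?_, ?_⟩
  · calc ∑' q : ι × ι', ‖c q.1 * d q.2‖ * Real.exp (ρ * |((k q.1 + l q.2 : ℤ) : ℝ)|)
        ≤ ∑' q : ι × ι', (‖c q.1‖ * Real.exp (ρ * |(k q.1 : ℝ)|)) *
          (‖d q.2‖ * Real.exp (ρ * |(l q.2 : ℝ)|)) := hsum.tsum_le_tsum hpt hsum2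
      _ = (∑' i, ‖c i‖ * Real.exp (ρ * |(k i : ℝ)|)) *
          ∑' i, ‖d i‖ * Real.exp (ρ * |(l i : ℝ)|) := (hs.tsum_mul_tsum hs' hsum2).symm
      _ ≤ M * N := mul_le_mul hle hle' (tsum_nonneg hn2) hM
  · intro θ
    have hc := A_summable h0 hs θ
    have hd := A_summable h0 hs' θ
    show (((u θ * v θ : ℝ)) : ℂ) = _
    rw [Complex.ofReal_mul, hval θ, hval' θ, tsum_mul_tsum_of_summable_norm hc hd]
    refine tsum_congr (fun q => ?_)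
    have h3 : (((k q.1 + l q.2 : ℤ) : ℂ) * (θ : ℂ) * Complex.I) =
        (k q.1 : ℂ) * (θ : ℂ) * Complex.I + (l q.2 : ℂ) * (θ : ℂ) * Complex.I := by
      push_cast
      ring
    rw [h3, Complex.exp_add]
    ring

theorem A_pow {ρ M : ℝ} {u : ℝ → ℝ} (h0 : 0 ≤ ρ) (hu : A ρ M u) (n : ℕ) :
    A ρ (M ^ n) (fun θ => u θ ^ n) := by
  induction n with
  | zero =>
    have h1 := A_const ρ 1
    rw [abs_one] at h1
    simpa using h1
  | succ n ih =>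
    have h1 := A_mul h0 ih hu
    simpa [pow_succ] using h1

end Pool.Agent.LibKam44
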