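import Pool.Agent.LibKam44.K01
set_option autoImplicit false
namespace Pool.Agent.LibKam44
/-
ROW K05 (infinite sums). PLAN: choose the representations; index type Σ n, ι n; the norm series is
summable by summable_sigma_of_nonneg (the inner sums are ≤ M n), Summable.tsum_sigma and the value by
Summable.tsum_sigma' (absolute convergence, A_summable).
-/
theorem A_tsum {ρ : ℝ} {M : ℕ → ℝ} {u : ℕ → ℝ → ℝ} (h0 : 0 ≤ ρ) (hM : Summable M)
    (hu : ∀ n, A ρ (M n) (u n)) : A ρ (∑' n, M n) (fun θ => ∑' n, u n θ) := by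
  choose ι c k h1 h2 h3 using hu
  have hnn : ∀ n, 0 ≤ ∑' i, ‖c n i‖ * Real.exp (ρ * |(k n i : ℝ)|) := fun n =>
    tsum_nonneg (fun i => mul_nonneg (norm_nonneg _) (Real.exp_pos _).le)
  have hout : Summable (fun n => ∑' i, ‖c n i‖ * Real.exp (ρ * |(k n i : ℝ)|)) :=
    Summable.of_nonneg_of_le hnn h2 hM
  have hsig : Summable (fun p : Σ n, ι n => ‖c p.1 p.2‖ * Real.exp (ρ * |(k p.1 p.2 : ℝ)|)) := by
    refine (summable_sigma_of_nonneg
      (fun p => mul_nonneg (norm_nonneg _) (Real.exp_pos _).le)).2 ⟨fun n => h1 n, hout⟩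
  refine ⟨Σ n, ι n, fun p => c p.1 p.2, fun p => k p.1 p.2, hsig, ?_, ?_⟩
  · have h4 := hsig.tsum_sigma' (fun n => h1 n)
    rw [h4]
    exact hout.tsum_le_tsum h2 hM
  · intro θ
    have h5 : Summable (fun p : Σ n, ι n =>
        c p.1 p.2 * Complex.exp ((k p.1 p.2 : ℂ) * (θ : ℂ) * Complex.I)) :=
      (A_summable (c := fun p : Σ n, ι n => c p.1 p.2) (k := fun p => k p.1 p.2) h0 hsig θ).of_norm
    have h6 := h5.tsum_sigma' (fun n => (A_summable h0 (h1 n) θ).of_norm)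
    show ((∑' n, u n θ : ℝ) : ℂ) = _
    rw [h6, Complex.ofReal_tsum]
    exact tsum_congr (fun n => h3 n θ)

theorem A_tsum_summable {ρ : ℝ} {M : ℕ → ℝ} {u : ℕ → ℝ → ℝ} (h0 : 0 ≤ ρ) (hM : Summable M)
    (hu : ∀ n, A ρ (M n) (u n)) (θ : ℝ) : Summable (fun n => u n θ) := by
  refine Summable.of_norm_bounded hM (fun n => ?_)
  rw [Real.norm_eq_abs]
  exact A_abs h0 (hu n) θ

private theorem K05_zero (ρ : ℝ) : A ρ 0 (fun _ => 0) := by
  refine ⟨Empty, fun i => i.elim, fun i => i.elim, ?_, ?_, ?_⟩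
  · exact summable_empty
  · rw [tsum_empty]
  · intro θ
    rw [tsum_empty]
    exact Complex.ofReal_zero

/-- finite sums -/
theorem A_sum {ρ : ℝ} {M : ℕ → ℝ} {u : ℕ → ℝ → ℝ} (h0 : 0 ≤ ρ) (s : Finset ℕ)
    (hu : ∀ n ∈ s, A ρ (M n) (u n)) : A ρ (∑ n ∈ s, M n) (fun θ => ∑ n ∈ s, u n θ) := by
  classical
  have hM0 : ∀ n, n ∉ s → (if n ∈ s then M n else 0) = 0 := fun n hn => if_neg hn
  have hsum : Summable (fun n => if n ∈ s then M n else 0) :=
    summable_of_ne_finset_zero (s := s) hM0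
  have hA : ∀ n, A ρ (if n ∈ s then M n else 0) (fun θ => if n ∈ s then u n θ else 0) := by
    intro n
    by_cases hn : n ∈ s
    · simp only [if_pos hn]
      exact hu n hn
    · simp only [if_neg hn]
      exact K05_zero ρ
  have h := A_tsum h0 hsum hA
  have e1 : ∑' n, (if n ∈ s then M n else 0) = ∑ n ∈ s, M n := by
    rw [tsum_eq_sum (s := s) (fun n hn => hM0 n hn)]
    exact Finset.sum_congr rfl (fun n hn => if_pos hn)
  have e2 : (fun θ => ∑' n, (if n ∈ s then u n θ else 0)) = (fun θ => ∑ n ∈ s, u n θ) := by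
    funext θ
    rw [tsum_eq_sum (s := s) (fun n hn => if_neg hn)]
    exact Finset.sum_congr rfl (fun n hn => if_pos hn)
  rw [e1, e2] at h
  exact h

end Pool.Agent.LibKam44
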