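import Pool.Agent.LibKam44.K01
set_option autoImplicit false
namespace Pool.Agent.LibKam44
/-
ROW K06 (derivative). PLAN: hasDerivAt_tsum (terms c i * exp(k θ I), derivatives
c i * k i * I * exp(k θ I), bounded by ‖c i‖ * |k i| ≤ ‖c i‖ * exp(ρ |k i|) / s because
x ≤ exp(s x)/s for x ≥ 0, s > 0, and s ≤ ρ), then pass to real parts (u is real valued:
the complex function θ ↦ (u θ : ℂ) has derivative D θ, so u has derivative (D θ).re and
D θ is real). Representation of deriv u: coefficients c i * k i * I, weight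
exp((ρ - s)|k|) |k| ≤ exp(ρ |k|)/s.
-/
theorem A_deriv {ρ s M : ℝ} {u : ℝ → ℝ} (hs : 0 < s) (hsρ : s ≤ ρ) (hu : A ρ M u) :
    Differentiable ℝ u ∧ A (ρ - s) (M / s) (deriv u) := by
  obtain ⟨ι, c, k, hsum, hle, hval⟩ := hu
  have hρ : 0 ≤ ρ := hs.le.trans hsρ
  -- the elementary bound
  have hx : ∀ i, |(k i : ℝ)| * Real.exp ((ρ - s) * |(k i : ℝ)|) ≤
      Real.exp (ρ * |(k i : ℝ)|) / s := by
    intro i
    have h1 : s * |(k i : ℝ)| ≤ Real.exp (s * |(k i : ℝ)|) := by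
      have := Real.add_one_le_exp (s * |(k i : ℝ)|)
      linarith
    rw [le_div_iff₀ hs]
    calc |(k i : ℝ)| * Real.exp ((ρ - s) * |(k i : ℝ)|) * s
        = s * |(k i : ℝ)| * Real.exp ((ρ - s) * |(k i : ℝ)|) := by ring
      _ ≤ Real.exp (s * |(k i : ℝ)|) * Real.exp ((ρ - s) * |(k i : ℝ)|) :=
          mul_le_mul_of_nonneg_right h1 (Real.exp_pos _).le
      _ = Real.exp (ρ * |(k i : ℝ)|) := by rw [← Real.exp_add]; congr 1; ring
  have hb : ∀ i, ‖c i * ((k i : ℂ) * Complex.I)‖ * Real.exp ((ρ - s) * |(k i : ℝ)|) ≤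
      ‖c i‖ * Real.exp (ρ * |(k i : ℝ)|) / s := by
    intro i
    rw [norm_mul, norm_mul, Complex.norm_I, mul_one, Complex.norm_intCast, mul_assoc, mul_div_assoc]
    exact mul_le_mul_of_nonneg_left (hx i) (norm_nonneg _)
  have hsum2 : Summable (fun i => ‖c i‖ * Real.exp (ρ * |(k i : ℝ)|) / s) := hsum.div_const s
  have hnn : ∀ i, 0 ≤ ‖c i * ((k i : ℂ) * Complex.I)‖ * Real.exp ((ρ - s) * |(k i : ℝ)|) :=
    fun i => mul_nonneg (norm_nonneg _) (Real.exp_pos _).le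
  have hsum3 : Summable (fun i => ‖c i * ((k i : ℂ) * Complex.I)‖ *
      Real.exp ((ρ - s) * |(k i : ℝ)|)) := Summable.of_nonneg_of_le hnn hb hsum2
  -- termwise derivative
  have hg : ∀ (i : ι) (θ : ℝ), HasDerivAt (fun θ : ℝ => c i * Complex.exp ((k i : ℂ) * (θ : ℂ) * Complex.I))
      (c i * ((k i : ℂ) * Complex.I) * Complex.exp ((k i : ℂ) * (θ : ℂ) * Complex.I)) θ := by
    intro i θ
    have h1 : HasDerivAt (fun θ : ℝ => ((θ : ℝ) : ℂ)) 1 θ := Complex.ofRealCLM.hasDerivAt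
    have h2 : HasDerivAt (fun θ : ℝ => (k i : ℂ) * (θ : ℂ) * Complex.I)
        ((k i : ℂ) * 1 * Complex.I) θ := (h1.const_mul (k i : ℂ)).mul_const Complex.I
    have h3 := (h2.cexp).const_mul (c i)
    exact h3.congr_deriv (by ring)
  have hg' : ∀ (i : ι) (θ : ℝ), ‖c i * ((k i : ℂ) * Complex.I) *
      Complex.exp ((k i : ℂ) * (θ : ℂ) * Complex.I)‖ ≤ ‖c i‖ * Real.exp (ρ * |(k i : ℝ)|) / s := by
    intro i θ
    have h1 : ‖Complex.exp ((k i : ℂ) * (θ : ℂ) * Complex.I)‖ = 1 := by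
      rw [show (k i : ℂ) * (θ : ℂ) * Complex.I = (((k i : ℝ) * θ : ℝ) : ℂ) * Complex.I by
        push_cast; ring, Complex.norm_exp_ofReal_mul_I]
    rw [norm_mul, h1, mul_one]
    refine le_trans ?_ (hb i)
    refine le_mul_of_one_le_right (norm_nonneg _) ?_
    exact Real.one_le_exp (mul_nonneg (by linarith) (abs_nonneg _))
  have hD : ∀ θ : ℝ, HasDerivAt (fun θ : ℝ => ((u θ : ℝ) : ℂ))
      (∑' i, c i * ((k i : ℂ) * Complex.I) * Complex.exp ((k i : ℂ) * (θ : ℂ) * Complex.I)) θ := by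
    intro θ
    have h1 := hasDerivAt_tsum (𝕜 := ℝ) hsum2 hg hg' (y₀ := 0)
      (A_summable hρ hsum 0).of_norm θ
    have h2 : (fun θ : ℝ => ((u θ : ℝ) : ℂ)) =
        fun θ : ℝ => ∑' i, c i * Complex.exp ((k i : ℂ) * (θ : ℂ) * Complex.I) := funext hval
    rw [h2]
    exact h1
  have hre : ∀ θ : ℝ, HasDerivAt u
      (∑' i, c i * ((k i : ℂ) * Complex.I) * Complex.exp ((k i : ℂ) * (θ : ℂ) * Complex.I)).re θ := by
    intro θ
    have h1 := (Complex.reCLM.hasFDerivAt).comp_hasDerivAt θ (hD θ)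
    exact h1
  have him : ∀ θ : ℝ,
      (∑' i, c i * ((k i : ℂ) * Complex.I) * Complex.exp ((k i : ℂ) * (θ : ℂ) * Complex.I)).im = 0 := by
    intro θ
    have h1 : HasDerivAt (fun _ : ℝ => (0 : ℝ))
        (∑' i, c i * ((k i : ℂ) * Complex.I) * Complex.exp ((k i : ℂ) * (θ : ℂ) * Complex.I)).im θ :=
      (Complex.imCLM.hasFDerivAt).comp_hasDerivAt θ (hD θ)
    exact h1.unique (hasDerivAt_const θ (0 : ℝ))
  refine ⟨fun θ => (hre θ).differentiableAt, ι, fun i => c i * ((k i : ℂ) * Complex.I), k, hsum3, ?_, ?_⟩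
  · calc ∑' i, ‖c i * ((k i : ℂ) * Complex.I)‖ * Real.exp ((ρ - s) * |(k i : ℝ)|)
        ≤ ∑' i, ‖c i‖ * Real.exp (ρ * |(k i : ℝ)|) / s := hsum3.tsum_le_tsum hb hsum2
      _ = (∑' i, ‖c i‖ * Real.exp (ρ * |(k i : ℝ)|)) / s := tsum_div_const
      _ ≤ M / s := div_le_div_of_nonneg_right hle hs.le
  · intro θ
    rw [(hre θ).deriv]
    apply Complex.ext
    · rw [Complex.ofReal_re]
    · rw [Complex.ofReal_im, him θ]

end Pool.Agent.LibKam44
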