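import Pool.Agent.LibKam44.K01
set_option autoImplicit false
namespace Pool.Agent.LibKam44
/-
ROW K07 (mean values). PLAN: avg_rep: integrate the uniformly convergent series term by term
(intervalIntegral.hasSum_integral_of_summable_norm or hasSum_intervalIntegral_of_summable_norm);
∫_0^{2π} exp(k θ I) dθ = 2π if k = 0 and 0 otherwise (integral_exp_mul_complex).
avg_shift: Function.Periodic.intervalIntegral_add_eq and intervalIntegral.integral_comp_add_right.
The others are linearity and monotonicity of the interval integral (0 ≤ 2π).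
-/
private lemma K07_norm_exp (k : ℤ) (θ : ℝ) :
    ‖Complex.exp ((k : ℂ) * (θ : ℂ) * Complex.I)‖ = 1 := by
  have h : (k : ℂ) * (θ : ℂ) * Complex.I = (((k : ℝ) * θ : ℝ) : ℂ) * Complex.I := by
    push_cast
    ring
  rw [h]
  exact Complex.norm_exp_ofReal_mul_I _

private lemma K07_int (c : ℂ) (k : ℤ) :
    ∫ θ in (0 : ℝ)..(2 * Real.pi), c * Complex.exp ((k : ℂ) * (θ : ℂ) * Complex.I) =
      2 * Real.pi * (if k = 0 then c else 0) := by
  rw [intervalIntegral.integral_const_mul]
  by_cases hk : k = 0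
  · subst hk
    simp
    ring
  · have hkc : ((k : ℂ) * Complex.I) ≠ 0 := mul_ne_zero (by exact_mod_cast hk) Complex.I_ne_zero
    have e : ∀ θ : ℝ, Complex.exp ((k : ℂ) * (θ : ℂ) * Complex.I) =
        Complex.exp (((k : ℂ) * Complex.I) * (θ : ℂ)) := by
      intro θ
      congr 1
      ring
    simp_rw [e]
    rw [integral_exp_mul_complex hkc, if_neg hk]
    have e1 : ((k : ℂ) * Complex.I) * ((2 * Real.pi : ℝ) : ℂ) =
        (k : ℂ) * (2 * Real.pi * Complex.I) := by
      push_cast
      ring
    rw [e1, Complex.exp_int_mul_two_pi_mul_I]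
    simp

theorem avg_rep {ρ : ℝ} (h0 : 0 ≤ ρ) {u : ℝ → ℝ} {ι : Type} {c : ι → ℂ} {k : ι → ℤ}
    (h : Summable (fun i => ‖c i‖ * Real.exp (ρ * |(k i : ℝ)|)))
    (hu : ∀ θ : ℝ, ((u θ : ℝ) : ℂ) = ∑' i, c i * Complex.exp ((k i : ℂ) * (θ : ℂ) * Complex.I)) :
    ((avg u : ℝ) : ℂ) = ∑' i, if k i = 0 then c i else 0 := by
  have hs : Summable (fun i => ‖c i‖) := by
    refine Summable.of_nonneg_of_le (fun i => norm_nonneg _) (fun i => ?_) h
    have h1 : 1 ≤ Real.exp (ρ * |(k i : ℝ)|) := Real.one_le_exp (mul_nonneg h0 (abs_nonneg _))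
    calc ‖c i‖ = ‖c i‖ * 1 := (mul_one _).symm
      _ ≤ _ := mul_le_mul_of_nonneg_left h1 (norm_nonneg _)
  have hcount : (Function.support c).Countable := by
    have h1 := hs.countable_support
    refine h1.mono ?_
    intro i hi
    rw [Function.mem_support] at hi ⊢
    exact norm_ne_zero_iff.mpr hi
  have _hct : Countable (Function.support c) := hcount.to_subtype
  have t1 : ∀ θ : ℝ, ∑' i : Function.support c, c i * Complex.exp ((k i : ℂ) * (θ : ℂ) * Complex.I) =
      ∑' i, c i * Complex.exp ((k i : ℂ) * (θ : ℂ) * Complex.I) := by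
    intro θ
    apply tsum_subtype_eq_of_support_subset
      (f := fun i => c i * Complex.exp ((k i : ℂ) * (θ : ℂ) * Complex.I))
    intro i hi
    rw [Function.mem_support] at hi ⊢
    exact left_ne_zero_of_mul hi
  have t2 : ∑' i : Function.support c, (if k i = 0 then c i else 0) =
      ∑' i, if k i = 0 then c i else 0 := by
    apply tsum_subtype_eq_of_support_subset (f := fun i => if k i = 0 then c i else 0)
    intro i hi
    rw [Function.mem_support] at hi ⊢
    intro hc
    apply hi
    simp [hc]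
  let f : Function.support c → C(ℝ, ℂ) := fun i =>
    ⟨fun θ => c i * Complex.exp ((k i : ℂ) * (θ : ℂ) * Complex.I), by fun_prop⟩
  have hsum : Summable (fun i : Function.support c =>
      ‖(f i).restrict (⟨Set.uIcc 0 (2 * Real.pi), isCompact_uIcc⟩ : TopologicalSpace.Compacts ℝ)‖) := by
    refine Summable.of_nonneg_of_le (fun i => norm_nonneg _) (fun i => ?_)
      (hs.subtype (Function.support c))
    refine (ContinuousMap.norm_le _ (norm_nonneg (c i))).mpr ?_
    intro x
    show ‖c i * Complex.exp ((k i : ℂ) * ((x : ℝ) : ℂ) * Complex.I)‖ ≤ ‖c i‖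
    rw [norm_mul, K07_norm_exp, mul_one]
  have H := intervalIntegral.hasSum_intervalIntegral_of_summable_norm (a := 0) (b := 2 * Real.pi) hsum
  have H2 : HasSum (fun i : Function.support c => 2 * (Real.pi : ℂ) * (if k i = 0 then c i else 0))
      (∫ θ in (0 : ℝ)..(2 * Real.pi), ((u θ : ℝ) : ℂ)) := by
    have e1 : (∫ θ in (0 : ℝ)..(2 * Real.pi), ((u θ : ℝ) : ℂ)) =
        ∫ θ in (0 : ℝ)..(2 * Real.pi), ∑' i : Function.support c, f i θ := by
      congr 1
      funext θ
      rw [hu θ, ← t1 θ]
      rfl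
    rw [e1]
    have e2 : (fun i : Function.support c => 2 * (Real.pi : ℂ) * (if k i = 0 then c i else 0)) =
        fun i : Function.support c => ∫ θ in (0 : ℝ)..(2 * Real.pi), f i θ := by
      funext i
      exact (K07_int (c i) (k i)).symm
    rw [e2]
    exact H
  have H3 := H2.mul_left (2 * (Real.pi : ℂ))⁻¹
  have hpi : (2 * (Real.pi : ℂ)) ≠ 0 := by
    have : (Real.pi : ℂ) ≠ 0 := by exact_mod_cast Real.pi_ne_zero
    exact mul_ne_zero two_ne_zero this
  have H4 : HasSum (fun i : Function.support c => (if k i = 0 then c i else 0))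
      ((avg u : ℝ) : ℂ) := by
    have e2 : ((avg u : ℝ) : ℂ) =
        (2 * (Real.pi : ℂ))⁻¹ * ∫ θ in (0 : ℝ)..(2 * Real.pi), ((u θ : ℝ) : ℂ) := by
      unfold avg
      rw [intervalIntegral.integral_ofReal]
      push_cast
      rfl
    rw [e2]
    have e3 : (fun i : Function.support c => (if k i = 0 then c i else 0)) =
        fun i : Function.support c => (2 * (Real.pi : ℂ))⁻¹ *
          (2 * (Real.pi : ℂ) * (if k i = 0 then c i else 0)) := by
      funext i
      rw [← mul_assoc, inv_mul_cancel₀ hpi, one_mul]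
    rw [e3]
    exact H3
  rw [← t2, H4.tsum_eq]

theorem avg_const (a : ℝ) : avg (fun _ => a) = a := by
  unfold avg
  rw [intervalIntegral.integral_const, sub_zero, smul_eq_mul, ← mul_assoc,
    inv_mul_cancel₀ (by positivity), one_mul]

theorem avg_add {u v : ℝ → ℝ} (hu : Continuous u) (hv : Continuous v) :
    avg (fun θ => u θ + v θ) = avg u + avg v := by
  unfold avg
  rw [intervalIntegral.integral_add (hu.intervalIntegrable _ _) (hv.intervalIntegrable _ _), mul_add]

theorem avg_sub {u v : ℝ → ℝ} (hu : Continuous u) (hv : Continuous v) :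
    avg (fun θ => u θ - v θ) = avg u - avg v := by
  unfold avg
  rw [intervalIntegral.integral_sub (hu.intervalIntegrable _ _) (hv.intervalIntegrable _ _), mul_sub]

theorem avg_smul {u : ℝ → ℝ} (a : ℝ) : avg (fun θ => a * u θ) = a * avg u := by
  unfold avg
  rw [intervalIntegral.integral_const_mul]
  ring

theorem avg_mono {u v : ℝ → ℝ} (hu : Continuous u) (hv : Continuous v) (h : ∀ θ, u θ ≤ v θ) :
    avg u ≤ avg v := by
  unfold avg
  apply mul_le_mul_of_nonneg_left _ (by positivity)
  exact intervalIntegral.integral_mono (by positivity) (hu.intervalIntegrable _ _)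
    (hv.intervalIntegrable _ _) h

theorem avg_abs {u : ℝ → ℝ} {M : ℝ} (hu : Continuous u) (h : ∀ θ, |u θ| ≤ M) : |avg u| ≤ M := by
  rw [abs_le]
  constructor
  · have h1 := avg_mono (u := fun _ => -M) continuous_const hu (fun θ => (abs_le.mp (h θ)).1)
    rwa [avg_const] at h1
  · have h1 := avg_mono (v := fun _ => M) hu continuous_const (fun θ => (abs_le.mp (h θ)).2)
    rwa [avg_const] at h1

theorem avg_shift {u : ℝ → ℝ} (hp : ∀ θ, u (θ + 2 * Real.pi) = u θ) (a : ℝ) :
    avg (fun θ => u (θ + a)) = avg u := by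
  unfold avg
  congr 1
  rw [intervalIntegral.integral_comp_add_right (fun x => u x) a]
  have h1 : Function.Periodic u (2 * Real.pi) := hp
  have h2 := h1.intervalIntegral_add_eq (0 + a) 0
  rw [zero_add (2 * Real.pi)] at h2
  rw [← h2]
  congr 1
  ring

end Pool.Agent.LibKam44
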