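import Pool.Agent.LibKam44.K03
import Pool.Agent.LibKam44.K07
set_option autoImplicit false
namespace Pool.Agent.LibKam44
/-
ROW K08 (the cohomological equation). PLAN: take a representation (ι, c, k) of g and put
d i = 0 if k i = 0, d i = c i / (exp(k i Ω I) - 1) otherwise. By Dio
‖d i‖ ≤ ‖c i‖ (k i)^2 / κ, and x^2 exp(-s x) ≤ 4 / s^2 for x ≥ 0 (from exp(s x/2) ≥ s x/2), so
∑ ‖d i‖ exp((ρ-s)|k i|) ≤ 4 M/(κ s^2). Put u θ = Re ∑' d i exp(k i θ I); it is represented by the index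
type ι ⊕ ι with coefficients d i / 2, conj (d i) / 2 and frequencies k i, - k i. And
u(θ+Ω) - u(θ) = Re ∑'_{k i ≠ 0} c i exp(k i θ I) = g θ - Re ∑' (if k i = 0 then c i else 0) = g θ - avg g
by avg_rep.
-/
private theorem K08_exp {s x : ℝ} (hs : 0 < s) (hx : 0 ≤ x) : x ^ 2 * Real.exp (-(s * x)) ≤ 4 / s ^ 2 := by
  have h1 : s * x / 2 ≤ Real.exp (s * x / 2) := by
    have := Real.add_one_le_exp (s * x / 2)
    linarith
  have h2 : (s * x / 2) ^ 2 ≤ Real.exp (s * x) := by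
    have h3 : Real.exp (s * x) = Real.exp (s * x / 2) ^ 2 := by
      rw [← Real.exp_nat_mul]
      congr 1
      push_cast
      ring
    rw [h3]
    exact pow_le_pow_left₀ (by positivity) h1 2
  rw [Real.exp_neg, ← div_eq_mul_inv, div_le_div_iff₀ (Real.exp_pos _) (by positivity)]
  nlinarith

theorem A_coh {ρ s κ Ω M : ℝ} {g : ℝ → ℝ} (hs : 0 < s) (hsρ : s ≤ ρ) (hκ : 0 < κ)
    (hd : Dio κ Ω) (hg : A ρ M g) (h0 : avg g = 0) :
    ∃ u : ℝ → ℝ, A (ρ - s) (4 * M / (κ * s ^ 2)) u ∧ ∀ θ, u (θ + Ω) - u θ = g θ := by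
  obtain ⟨ι, c, k, hs1, hM, hval⟩ := hg
  have hρ : 0 ≤ ρ := hs.le.trans hsρ
  have hρs : 0 ≤ ρ - s := sub_nonneg.2 hsρ
  obtain ⟨E, hE⟩ : ∃ E : ι → ℂ, ∀ i, E i = Complex.exp ((k i : ℂ) * (Ω : ℂ) * Complex.I) - 1 :=
    ⟨fun i => Complex.exp ((k i : ℂ) * (Ω : ℂ) * Complex.I) - 1, fun i => rfl⟩
  obtain ⟨d, hd0, hd1⟩ : ∃ d : ι → ℂ, (∀ i, k i = 0 → d i = 0) ∧ ∀ i, k i ≠ 0 → d i = c i / E i :=
    ⟨fun i => if k i = 0 then 0 else c i / E i, fun i h => if_pos h, fun i h => if_neg h⟩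
  have hEpos : ∀ i, k i ≠ 0 → 0 < ‖E i‖ := by
    intro i hi
    have h1 := hd (k i) hi
    rw [← hE i] at h1
    have h2 : 0 < ‖E i‖ * (k i : ℝ) ^ 2 := lt_of_lt_of_le hκ h1
    exact pos_of_mul_pos_left h2 (sq_nonneg _)
  have hbd : ∀ i, ‖d i‖ * Real.exp ((ρ - s) * |(k i : ℝ)|) ≤
      4 / (κ * s ^ 2) * (‖c i‖ * Real.exp (ρ * |(k i : ℝ)|)) := by
    intro i
    by_cases hi : k i = 0
    · rw [hd0 i hi, norm_zero, zero_mul]
      positivity
    · have h1 := hd (k i) hi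
      rw [← hE i] at h1
      have h2 : ‖d i‖ ≤ ‖c i‖ * (k i : ℝ) ^ 2 / κ := by
        rw [hd1 i hi, norm_div, div_le_div_iff₀ (hEpos i hi) hκ]
        have := mul_le_mul_of_nonneg_left h1 (norm_nonneg (c i))
        linarith
      have h3 : Real.exp ((ρ - s) * |(k i : ℝ)|) =
          Real.exp (ρ * |(k i : ℝ)|) * Real.exp (-(s * |(k i : ℝ)|)) := by
        rw [← Real.exp_add]
        congr 1
        ring
      have h4 := K08_exp hs (abs_nonneg (k i : ℝ))
      rw [sq_abs] at h4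
      rw [h3]
      calc ‖d i‖ * (Real.exp (ρ * |(k i : ℝ)|) * Real.exp (-(s * |(k i : ℝ)|)))
          ≤ ‖c i‖ * (k i : ℝ) ^ 2 / κ * (Real.exp (ρ * |(k i : ℝ)|) * Real.exp (-(s * |(k i : ℝ)|))) :=
            mul_le_mul_of_nonneg_right h2 (by positivity)
        _ = (‖c i‖ * Real.exp (ρ * |(k i : ℝ)|)) * ((k i : ℝ) ^ 2 * Real.exp (-(s * |(k i : ℝ)|))) / κ := by
            ring
        _ ≤ (‖c i‖ * Real.exp (ρ * |(k i : ℝ)|)) * (4 / s ^ 2) / κ := by
            refine div_le_div_of_nonneg_right ?_ hκ.le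
            exact mul_le_mul_of_nonneg_left h4 (by positivity)
        _ = 4 / (κ * s ^ 2) * (‖c i‖ * Real.exp (ρ * |(k i : ℝ)|)) := by
            field_simp
  have hsd : Summable (fun i => ‖d i‖ * Real.exp ((ρ - s) * |(k i : ℝ)|)) :=
    Summable.of_nonneg_of_le (fun i => by positivity) hbd (hs1.mul_left _)
  have hMd : ∑' i, ‖d i‖ * Real.exp ((ρ - s) * |(k i : ℝ)|) ≤ 4 * M / (κ * s ^ 2) := by
    have h1 := Summable.tsum_le_tsum hbd hsd (hs1.mul_left _)
    rw [tsum_mul_left] at h1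
    refine h1.trans ?_
    have h2 : 0 ≤ 4 / (κ * s ^ 2) := by positivity
    refine (mul_le_mul_of_nonneg_left hM h2).trans (le_of_eq ?_)
    ring
  have hcs : ∀ θ : ℝ, Summable (fun i => c i * Complex.exp ((k i : ℂ) * (θ : ℂ) * Complex.I)) :=
    fun θ => (A_summable hρ hs1 θ).of_norm
  have hds : ∀ θ : ℝ, Summable (fun i => d i * Complex.exp ((k i : ℂ) * (θ : ℂ) * Complex.I)) :=
    fun θ => (A_summable hρs hsd θ).of_norm
  obtain ⟨U, hU⟩ : ∃ U : ℝ → ℂ, ∀ θ : ℝ, U θ = ∑' i, d i * Complex.exp ((k i : ℂ) * (θ : ℂ) * Complex.I) :=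
    ⟨_, fun θ => rfl⟩
  refine ⟨fun θ => (U θ).re, ⟨ι ⊕ ι, Sum.elim (fun i => d i / 2) (fun i => (starRingEnd ℂ) (d i) / 2),
    Sum.elim k (fun i => -k i), ?_, ?_, ?_⟩, ?_⟩
  · refine Summable.sum _ ?_ ?_
    · refine (hsd.div_const 2).congr fun i => ?_
      change _ = ‖d i / 2‖ * Real.exp ((ρ - s) * |(k i : ℝ)|)
      rw [norm_div, Complex.norm_two]
      ring
    · refine (hsd.div_const 2).congr fun i => ?_
      change _ = ‖(starRingEnd ℂ) (d i) / 2‖ * Real.exp ((ρ - s) * |((-k i : ℤ) : ℝ)|)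
      rw [norm_div, Complex.norm_two, RCLike.norm_conj]
      push_cast
      rw [abs_neg]
      ring
  · have h1 : HasSum ((fun j : ι ⊕ ι => ‖(Sum.elim (fun i => d i / 2) (fun i => (starRingEnd ℂ) (d i) / 2) j : ℂ)‖ *
        Real.exp ((ρ - s) * |((Sum.elim k (fun i => -k i) j : ℤ) : ℝ)|)) ∘ Sum.inl)
        ((∑' i, ‖d i‖ * Real.exp ((ρ - s) * |(k i : ℝ)|)) / 2) := by
      refine (hsd.hasSum.div_const 2).congr_fun ?_
      intro i
      change ‖d i / 2‖ * Real.exp ((ρ - s) * |(k i : ℝ)|) = _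
      rw [norm_div, Complex.norm_two]
      ring
    have h2 : HasSum ((fun j : ι ⊕ ι => ‖(Sum.elim (fun i => d i / 2) (fun i => (starRingEnd ℂ) (d i) / 2) j : ℂ)‖ *
        Real.exp ((ρ - s) * |((Sum.elim k (fun i => -k i) j : ℤ) : ℝ)|)) ∘ Sum.inr)
        ((∑' i, ‖d i‖ * Real.exp ((ρ - s) * |(k i : ℝ)|)) / 2) := by
      refine (hsd.hasSum.div_const 2).congr_fun ?_
      intro i
      change ‖(starRingEnd ℂ) (d i) / 2‖ * Real.exp ((ρ - s) * |((-k i : ℤ) : ℝ)|) = _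
      rw [norm_div, Complex.norm_two, RCLike.norm_conj]
      push_cast
      rw [abs_neg]
      ring
    rw [(h1.sum h2).tsum_eq, add_halves]
    exact hMd
  · intro θ
    have h1 : HasSum ((fun j : ι ⊕ ι => (Sum.elim (fun i => d i / 2) (fun i => (starRingEnd ℂ) (d i) / 2) j : ℂ) *
        Complex.exp (((Sum.elim k (fun i => -k i) j : ℤ) : ℂ) * (θ : ℂ) * Complex.I)) ∘ Sum.inl)
        (U θ / 2) := by
      rw [hU]
      refine ((hds θ).hasSum.div_const 2).congr_fun ?_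
      intro i
      change d i / 2 * Complex.exp ((k i : ℂ) * (θ : ℂ) * Complex.I) = _
      ring
    have h2 : HasSum ((fun j : ι ⊕ ι => (Sum.elim (fun i => d i / 2) (fun i => (starRingEnd ℂ) (d i) / 2) j : ℂ) *
        Complex.exp (((Sum.elim k (fun i => -k i) j : ℤ) : ℂ) * (θ : ℂ) * Complex.I)) ∘ Sum.inr)
        ((starRingEnd ℂ) (U θ) / 2) := by
      rw [hU]
      have h3 : HasSum (fun i => (starRingEnd ℂ) (d i * Complex.exp ((k i : ℂ) * (θ : ℂ) * Complex.I)))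
          ((starRingEnd ℂ) (∑' i, d i * Complex.exp ((k i : ℂ) * (θ : ℂ) * Complex.I))) :=
        (Complex.hasSum_conj.2 (by
          simpa using (hds θ).hasSum))
      refine (h3.div_const 2).congr_fun ?_
      intro i
      change (starRingEnd ℂ) (d i) / 2 * Complex.exp (((-k i : ℤ) : ℂ) * (θ : ℂ) * Complex.I) = _
      rw [map_mul, ← Complex.exp_conj, map_mul, map_mul, Complex.conj_I, Complex.conj_ofReal,
        map_intCast]
      push_cast
      ring_nf
    rw [(h1.sum h2).tsum_eq, Complex.re_eq_add_conj]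
    ring
  · intro θ
    have h1 : U (θ + Ω) - U θ = ((g θ : ℝ) : ℂ) := by
      have h2 : HasSum (fun i => d i * Complex.exp ((k i : ℂ) * ((θ + Ω : ℝ) : ℂ) * Complex.I) -
          d i * Complex.exp ((k i : ℂ) * (θ : ℂ) * Complex.I)) (U (θ + Ω) - U θ) := by
        rw [hU, hU]
        exact (hds (θ + Ω)).hasSum.sub (hds θ).hasSum
      have hk0 : Summable (fun i => if k i = 0 then c i else 0) := by
        refine Summable.of_norm_bounded (hcs 0).norm fun i => ?_
        by_cases hi : k i = 0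
        · rw [if_pos hi, hi]
          simp
        · rw [if_neg hi, norm_zero]
          exact norm_nonneg _
      have h3 : HasSum (fun i => c i * Complex.exp ((k i : ℂ) * (θ : ℂ) * Complex.I) -
          (if k i = 0 then c i else 0)) (((g θ : ℝ) : ℂ) - 0) := by
        have h4 := avg_rep hρ hs1 hval
        rw [h0, Complex.ofReal_zero] at h4
        have h5 := hk0.hasSum
        rw [← h4] at h5
        rw [hval θ]
        exact (hcs θ).hasSum.sub h5
      rw [sub_zero] at h3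
      refine h2.unique (h3.congr_fun fun i => ?_)
      by_cases hi : k i = 0
      · rw [if_pos hi, hd0 i hi, hi]
        simp
      · rw [if_neg hi, hd1 i hi, sub_zero]
        have h5 : E i ≠ 0 := norm_pos_iff.1 (hEpos i hi)
        have h6 : Complex.exp ((k i : ℂ) * ((θ + Ω : ℝ) : ℂ) * Complex.I) =
            Complex.exp ((k i : ℂ) * (θ : ℂ) * Complex.I) * (E i + 1) := by
          rw [hE, sub_add_cancel, ← Complex.exp_add]
          congr 1
          push_cast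
          ring
        rw [h6]
        field_simp
        ring
    have h7 : (U (θ + Ω) - U θ).re = g θ := by rw [h1, Complex.ofReal_re]
    rw [Complex.sub_re] at h7
    exact h7

end Pool.Agent.LibKam44
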