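import Pool.Agent.LibKam44.K03
import Pool.Agent.LibKam44.K04
import Pool.Agent.LibKam44.K05
set_option autoImplicit false
namespace Pool.Agent.LibKam44
/-
ROW K09 (inverse). PLAN: u = a (1 - v) with v = (a - u)/a, A ρ (m/|a|) v, m/|a| < 1;
1/u = a⁻¹ ∑' n, v^n (geometric series, |v θ| ≤ m/|a| < 1), A_pow, A_tsum, A_smul;
∑' (m/|a|)^n = 1/(1 - m/|a|).
-/
theorem A_inv {ρ m a : ℝ} {u : ℝ → ℝ} (h0 : 0 ≤ ρ) (hm : m < |a|)
    (hu : A ρ m (fun θ => u θ - a)) :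
    A ρ (1 / (|a| - m)) (fun θ => (u θ)⁻¹) ∧ ∀ θ, |a| - m ≤ |u θ| := by
  have hm0 : 0 ≤ m := A_nonneg hu
  have ha : 0 < |a| := lt_of_le_of_lt hm0 hm
  have ha' : a ≠ 0 := abs_pos.1 ha
  have hbd : ∀ θ, |u θ - a| ≤ m := fun θ => A_abs h0 hu θ
  refine ⟨?_, fun θ => ?_⟩
  · have hv := A_smul (-a⁻¹) hu
    have hq0 : 0 ≤ |-a⁻¹| * m := mul_nonneg (abs_nonneg _) hm0
    have hq1 : |-a⁻¹| * m < 1 := by
      rw [abs_neg, abs_inv, inv_mul_lt_iff₀ ha, mul_one]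
      exact hm
    have hsum := A_tsum h0 (summable_geometric_of_lt_one hq0 hq1) (fun n => A_pow h0 hv n)
    have hfin := A_smul a⁻¹ hsum
    have e1 : |a⁻¹| * ∑' n : ℕ, (|-a⁻¹| * m) ^ n = 1 / (|a| - m) := by
      rw [tsum_geometric_of_lt_one hq0 hq1, abs_neg, abs_inv]
      have h1 : |a| - m ≠ 0 := (sub_pos.2 hm).ne'
      have h2 : 1 - |a|⁻¹ * m ≠ 0 := by
        rw [abs_neg, abs_inv] at hq1
        exact (sub_pos.2 hq1).ne'
      rw [← mul_inv, one_div]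
      congr 1
      field_simp
    have e2 : (fun θ => a⁻¹ * ∑' n : ℕ, (-a⁻¹ * (u θ - a)) ^ n) = fun θ => (u θ)⁻¹ := by
      funext θ
      have h3 : ‖-a⁻¹ * (u θ - a)‖ < 1 := by
        rw [Real.norm_eq_abs, abs_mul]
        exact lt_of_le_of_lt (mul_le_mul_of_nonneg_left (hbd θ) (abs_nonneg _)) hq1
      rw [tsum_geometric_of_norm_lt_one h3, ← mul_inv]
      congr 1
      field_simp
      ring
    rw [e1, e2] at hfin
    exact hfin
  · have h1 : |a| ≤ |a - u θ| + |u θ| := by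
      have := abs_add_le (a - u θ) (u θ)
      rwa [sub_add_cancel] at this
    have h2 := hbd θ
    rw [abs_sub_comm] at h2
    linarith

end Pool.Agent.LibKam44
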