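import Pool.Agent.LibKam44.K03
import Pool.Agent.LibKam44.K04
import Pool.Agent.LibKam44.K05
set_option autoImplicit false
namespace Pool.Agent.LibKam44
/-
ROW K10 (power series are nonlinearities). PLAN: val: A_tsum with u n = g n * u^n, norm |g n| 3^n.
val1: n |g n| 3^(n-1) ≤ |g n| (n+1)^2 3^n. taylor: for every n,
(u+h)^n - u^n - n u^(n-1) h = ∑_{j=2}^n choose n j * u^(n-j) h^j has norm ≤
∑_{j=2}^n choose n j * 2^(n-j) m^j ≤ m^2 * 3^n (m ≤ 1); sum over n with A_tsum (the three series converge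
absolutely at the points u θ + h θ, u θ, as |u| ≤ 2, |h| ≤ 1). der: hasDerivAt_tsum_of_isPreconnected
on the ball |z| < 3 (or HasFPowerSeriesOnBall). lip: |z^m - w^m| ≤ m (5/2)^(m-1) |z - w| and
n (n-1) (5/2)^(n-2) ≤ (n+1)^2 3^n.
-/
private theorem b0 (g : ℕ → ℝ) (n : ℕ) : |g n| * 3 ^ n ≤ |g n| * ((n : ℝ) + 1) ^ 2 * 3 ^ n := by
  have h1 : (1 : ℝ) ≤ ((n : ℝ) + 1) ^ 2 := by
    have : (0 : ℝ) ≤ n := Nat.cast_nonneg n
    nlinarith
  refine mul_le_mul_of_nonneg_right ?_ (by positivity)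
  exact le_mul_of_one_le_right (abs_nonneg _) h1

private theorem b1 (g : ℕ → ℝ) (n : ℕ) :
    |(n : ℝ) * g n| * 3 ^ (n - 1) ≤ |g n| * ((n : ℝ) + 1) ^ 2 * 3 ^ n := by
  have hn : (0 : ℝ) ≤ n := Nat.cast_nonneg n
  have h1 : (n : ℝ) ≤ ((n : ℝ) + 1) ^ 2 := by nlinarith
  have h2 : (3 : ℝ) ^ (n - 1) ≤ 3 ^ n := pow_le_pow_right₀ (by norm_num) (Nat.sub_le n 1)
  rw [abs_mul, Nat.abs_cast, mul_comm (n : ℝ) |g n|]
  exact mul_le_mul (mul_le_mul_of_nonneg_left h1 (abs_nonneg _)) h2 (by positivity) (by positivity)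

private theorem term0 {ρ : ℝ} {u : ℝ → ℝ} (h0 : 0 ≤ ρ) (hu : A ρ 3 u) (g : ℕ → ℝ) (n : ℕ) :
    A ρ (|g n| * ((n : ℝ) + 1) ^ 2 * 3 ^ n) (fun θ => g n * u θ ^ n) :=
  A_mono le_rfl (b0 g n) (A_smul (g n) (A_pow h0 hu n))

private theorem term1 {ρ : ℝ} {u : ℝ → ℝ} (h0 : 0 ≤ ρ) (hu : A ρ 3 u) (g : ℕ → ℝ) (n : ℕ) :
    A ρ (|g n| * ((n : ℝ) + 1) ^ 2 * 3 ^ n) (fun θ => (n : ℝ) * g n * u θ ^ (n - 1)) :=
  A_mono le_rfl (b1 g n) (A_smul ((n : ℝ) * g n) (A_pow h0 hu (n - 1)))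

private theorem remainder {ρ m : ℝ} {u h : ℝ → ℝ} (h0 : 0 ≤ ρ) (hm : m ≤ 1) (hu : A ρ 2 u)
    (hh : A ρ m h) (n : ℕ) : A ρ (m ^ 2 * (((n : ℝ) + 1) ^ 2 * 3 ^ n))
      (fun θ => (u θ + h θ) ^ n - u θ ^ n - n * u θ ^ (n - 1) * h θ) := by
  have hm0 : 0 ≤ m := A_nonneg hh
  induction n with
  | zero =>
    have h1 := A_smul 0 (A_const ρ 0)
    refine A_mono le_rfl ?_ (by simpa using h1)
    positivity
  | succ n ih =>
    have h1 := A_mul h0 (A_add h0 hu hh) ih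
    have h2 := A_smul (n : ℝ) (A_mul h0 (A_pow h0 hu (n - 1)) (A_mul h0 hh hh))
    have h3 := A_add h0 h1 h2
    have hf : (fun θ => (u θ + h θ) ^ (n + 1) - u θ ^ (n + 1) -
        ((n + 1 : ℕ) : ℝ) * u θ ^ (n + 1 - 1) * h θ) =
        fun θ => (u θ + h θ) * ((u θ + h θ) ^ n - u θ ^ n - n * u θ ^ (n - 1) * h θ) +
          (n : ℝ) * (u θ ^ (n - 1) * (h θ * h θ)) := by
      funext θ
      rcases n with _ | k
      · simp
      · rw [Nat.add_sub_cancel, Nat.add_sub_cancel]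
        push_cast
        ring
    rw [hf]
    refine A_mono le_rfl ?_ h3
    have hn : (0 : ℝ) ≤ n := Nat.cast_nonneg n
    have h4 : (2 : ℝ) ^ (n - 1) ≤ 3 ^ (n + 1) :=
      (pow_le_pow_left₀ (by norm_num) (by norm_num) _).trans
        (pow_le_pow_right₀ (by norm_num) (by omega))
    have hP : (0 : ℝ) < 3 ^ n := by positivity
    have h5 : (2 + m) * (m ^ 2 * (((n : ℝ) + 1) ^ 2 * 3 ^ n)) ≤
        m ^ 2 * (((n : ℝ) + 1) ^ 2 * 3 ^ (n + 1)) := by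
      have h6 : 0 ≤ m ^ 2 * (((n : ℝ) + 1) ^ 2 * 3 ^ n) := by positivity
      calc (2 + m) * (m ^ 2 * (((n : ℝ) + 1) ^ 2 * 3 ^ n)) ≤
            3 * (m ^ 2 * (((n : ℝ) + 1) ^ 2 * 3 ^ n)) :=
            mul_le_mul_of_nonneg_right (by linarith) h6
        _ = _ := by rw [pow_succ]; ring
    have h7 : |(n : ℝ)| * (2 ^ (n - 1) * (m * m)) ≤ m ^ 2 * ((n : ℝ) * 3 ^ (n + 1)) := by
      rw [Nat.abs_cast]
      have h8 := mul_le_mul_of_nonneg_left h4 (mul_nonneg hn (sq_nonneg m))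
      calc (n : ℝ) * (2 ^ (n - 1) * (m * m)) = (n : ℝ) * m ^ 2 * 2 ^ (n - 1) := by ring
        _ ≤ (n : ℝ) * m ^ 2 * 3 ^ (n + 1) := h8
        _ = _ := by ring
    calc (2 + m) * (m ^ 2 * (((n : ℝ) + 1) ^ 2 * 3 ^ n)) + |(n : ℝ)| * (2 ^ (n - 1) * (m * m))
        ≤ m ^ 2 * (((n : ℝ) + 1) ^ 2 * 3 ^ (n + 1)) + m ^ 2 * ((n : ℝ) * 3 ^ (n + 1)) :=
          add_le_add h5 h7
      _ = m ^ 2 * ((((n : ℝ) + 1) ^ 2 + n) * 3 ^ (n + 1)) := by ring
      _ ≤ m ^ 2 * ((((n + 1 : ℕ) : ℝ) + 1) ^ 2 * 3 ^ (n + 1)) := by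
          refine mul_le_mul_of_nonneg_left (mul_le_mul_of_nonneg_right ?_ (by positivity))
            (sq_nonneg m)
          push_cast
          nlinarith

private theorem pow_lip (z w : ℝ) (hz : |z| ≤ 5 / 2) (hw : |w| ≤ 5 / 2) (n : ℕ) :
    |z ^ n - w ^ n| ≤ (n : ℝ) * 3 ^ n * |z - w| := by
  induction n with
  | zero => simp
  | succ n ih =>
    have h1 : z ^ (n + 1) - w ^ (n + 1) = z * (z ^ n - w ^ n) + (z - w) * w ^ n := by ring
    have h2 : |w| ^ n ≤ 3 ^ n := pow_le_pow_left₀ (abs_nonneg w) (by linarith) n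
    have hd : 0 ≤ |z - w| := abs_nonneg _
    have hP : (0 : ℝ) < 3 ^ n := by positivity
    have h3 : |z| * |z ^ n - w ^ n| ≤ 3 * ((n : ℝ) * 3 ^ n * |z - w|) :=
      mul_le_mul (by linarith) ih (abs_nonneg _) (by norm_num)
    have h4 : |z - w| * |w| ^ n ≤ |z - w| * 3 ^ n := mul_le_mul_of_nonneg_left h2 hd
    rw [h1]
    refine (abs_add_le _ _).trans ?_
    rw [abs_mul, abs_mul, abs_pow]
    push_cast
    rw [pow_succ]
    nlinarith [mul_nonneg hd hP.le]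

theorem NL_H {g : ℕ → ℝ} {B : ℝ} (hg : PS g B) : NL (H g) (H1 g) B := by
  obtain ⟨hs, hB⟩ := hg
  have hnn : ∀ n : ℕ, 0 ≤ |g n| * ((n : ℝ) + 1) ^ 2 * 3 ^ n := fun n => by positivity
  have hB0 : 0 ≤ B := (tsum_nonneg hnn).trans hB
  have hpw : ∀ (z : ℝ) (n : ℕ), |z| ≤ 3 →
      ‖(n : ℝ) * g n * z ^ (n - 1)‖ ≤ |g n| * ((n : ℝ) + 1) ^ 2 * 3 ^ n := by
    intro z n hz
    rw [Real.norm_eq_abs, abs_mul, abs_pow]
    exact (mul_le_mul_of_nonneg_left (pow_le_pow_left₀ (abs_nonneg z) hz _)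
      (abs_nonneg _)).trans (b1 g n)
  have hsum1 : ∀ z : ℝ, |z| ≤ 3 → Summable (fun n : ℕ => (n : ℝ) * g n * z ^ (n - 1)) :=
    fun z hz => Summable.of_norm_bounded hs fun n => hpw z n hz
  refine ⟨hB0, ?_, ?_, ?_, ?_, ?_⟩
  · intro ρ u h0 hu
    exact A_mono le_rfl hB (A_tsum h0 hs (term0 h0 hu g))
  · intro ρ u h0 hu
    exact A_mono le_rfl hB (A_tsum h0 hs (term1 h0 hu g))
  · intro ρ m u h h0 hm hu hh
    have hm0 : 0 ≤ m := A_nonneg hh
    have hu3 : A ρ 3 u := A_mono le_rfl (by norm_num) hu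
    have huh : A ρ 3 (fun θ => u θ + h θ) :=
      A_mono le_rfl (by linarith) (A_add h0 hu hh)
    have hT : ∀ n : ℕ, A ρ (m ^ 2 * (|g n| * ((n : ℝ) + 1) ^ 2 * 3 ^ n))
        (fun θ => g n * ((u θ + h θ) ^ n - u θ ^ n - n * u θ ^ (n - 1) * h θ)) := by
      intro n
      refine A_mono le_rfl (le_of_eq ?_) (A_smul (g n) (remainder h0 hm hu hh n))
      ring
    have hsm : Summable (fun n : ℕ => m ^ 2 * (|g n| * ((n : ℝ) + 1) ^ 2 * 3 ^ n)) :=
      hs.mul_left _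
    have h1 := A_tsum h0 hsm hT
    rw [tsum_mul_left] at h1
    have hf : (fun θ => H g (u θ + h θ) - H g (u θ) - H1 g (u θ) * h θ) =
        fun θ => ∑' n : ℕ, g n * ((u θ + h θ) ^ n - u θ ^ n - n * u θ ^ (n - 1) * h θ) := by
      funext θ
      have s1 : Summable (fun n : ℕ => g n * (u θ + h θ) ^ n) :=
        A_tsum_summable h0 hs (term0 h0 huh g) θ
      have s2 : Summable (fun n : ℕ => g n * u θ ^ n) :=
        A_tsum_summable h0 hs (term0 h0 hu3 g) θ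
      have s3 : Summable (fun n : ℕ => (n : ℝ) * g n * u θ ^ (n - 1)) :=
        A_tsum_summable h0 hs (term1 h0 hu3 g) θ
      unfold H H1
      rw [← tsum_mul_right, ← s1.tsum_sub s2, ← (s1.sub s2).tsum_sub (s3.mul_right (h θ))]
      refine tsum_congr fun n => ?_
      ring
    rw [hf]
    refine A_mono le_rfl ?_ h1
    rw [mul_comm B]
    exact mul_le_mul_of_nonneg_left hB (sq_nonneg m)
  · intro z hz
    have ht : z ∈ Set.Ioo (-3 : ℝ) 3 := abs_lt.1 hz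
    have h := hasDerivAt_tsum_of_isPreconnected (g := fun (n : ℕ) (z : ℝ) => g n * z ^ n)
      (g' := fun (n : ℕ) (z : ℝ) => (n : ℝ) * g n * z ^ (n - 1)) hs isOpen_Ioo
      (isPreconnected_Ioo (a := (-3 : ℝ)) (b := 3))
      (fun n y _ => by
        have h1 := (hasDerivAt_pow n y).const_mul (g n)
        have h2 : g n * ((n : ℝ) * y ^ (n - 1)) = (n : ℝ) * g n * y ^ (n - 1) := by ring
        rw [h2] at h1
        exact h1)
      (fun n y hy => hpw y n (abs_le.2 ⟨hy.1.le, hy.2.le⟩))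
      (y₀ := z) ht (Summable.of_norm_bounded hs fun n => by
        rw [Real.norm_eq_abs, abs_mul, abs_pow]
        exact (mul_le_mul_of_nonneg_left (pow_le_pow_left₀ (abs_nonneg z) hz.le _)
          (abs_nonneg _)).trans (b0 g n)) ht
    exact h
  · intro z w hz hw
    unfold H1
    have hz3 : |z| ≤ 3 := by linarith
    have hw3 : |w| ≤ 3 := by linarith
    rw [← (hsum1 z hz3).tsum_sub (hsum1 w hw3), ← Real.norm_eq_abs]
    have hterm : ∀ n : ℕ, ‖(n : ℝ) * g n * z ^ (n - 1) - (n : ℝ) * g n * w ^ (n - 1)‖ ≤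
        |g n| * ((n : ℝ) + 1) ^ 2 * 3 ^ n * |z - w| := by
      intro n
      rw [← mul_sub, norm_mul, Real.norm_eq_abs, Real.norm_eq_abs]
      have hd : 0 ≤ |z - w| := abs_nonneg _
      rcases n with _ | k
      · simp only [Nat.cast_zero, zero_mul, abs_zero]
        positivity
      · have h1 := pow_lip z w hz hw k
        rw [Nat.add_sub_cancel, abs_mul, Nat.abs_cast]
        have hk : (0 : ℝ) ≤ k := Nat.cast_nonneg k
        have hP : (0 : ℝ) < 3 ^ k := by positivity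
        calc ((k + 1 : ℕ) : ℝ) * |g (k + 1)| * |z ^ k - w ^ k|
            ≤ ((k + 1 : ℕ) : ℝ) * |g (k + 1)| * ((k : ℝ) * 3 ^ k * |z - w|) :=
              mul_le_mul_of_nonneg_left h1 (by positivity)
          _ = (|g (k + 1)| * |z - w| * 3 ^ k) * (((k : ℝ) + 1) * k) := by
              push_cast
              ring
          _ ≤ (|g (k + 1)| * |z - w| * 3 ^ k) * (((k : ℝ) + 1 + 1) ^ 2 * 3) := by
              refine mul_le_mul_of_nonneg_left ?_ (by positivity)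
              nlinarith
          _ = _ := by
              push_cast
              ring
    have hsm : Summable (fun n : ℕ => |g n| * ((n : ℝ) + 1) ^ 2 * 3 ^ n * |z - w|) :=
      hs.mul_right _
    refine (tsum_of_norm_bounded hsm.hasSum hterm).trans ?_
    rw [tsum_mul_right]
    exact mul_le_mul_of_nonneg_right hB (abs_nonneg _)

end Pool.Agent.LibKam44
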