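import Pool.Agent.LibKam44.K03
import Pool.Agent.LibKam44.K04
set_option autoImplicit false
namespace Pool.Agent.LibKam44
/-
ROW K11 (sum of two nonlinearities, the cubic one). PLAN: NL_add field by field. NL_cube:
val: 27 γ; val1: 3 γ 9 = 27 γ; taylor: (u+h)^3 - u^3 - 3u^2 h = h^2 (3u + h), norm ≤ m^2 (6 + 1);
lip: 3 γ |z^2 - w^2| ≤ 15 γ |z - w|.
-/
theorem NL_mono {Φ Φ1 : ℝ → ℝ} {B B' : ℝ} (hB : B ≤ B') (h : NL Φ Φ1 B) : NL Φ Φ1 B' := by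
  refine ⟨h.nonneg.trans hB, fun ρ u h0 hu => A_mono le_rfl hB (h.val ρ u h0 hu),
    fun ρ u h0 hu => A_mono le_rfl hB (h.val1 ρ u h0 hu),
    fun ρ m u v h0 hm hu hv => A_mono le_rfl (mul_le_mul_of_nonneg_right hB (sq_nonneg m))
      (h.taylor ρ m u v h0 hm hu hv), h.der,
    fun z w hz hw => (h.lip z w hz hw).trans (mul_le_mul_of_nonneg_right hB (abs_nonneg _))⟩

theorem NL_add {Φ Φ1 Ψ Ψ1 : ℝ → ℝ} {B B' : ℝ} (h : NL Φ Φ1 B) (h' : NL Ψ Ψ1 B') :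
    NL (fun z => Φ z + Ψ z) (fun z => Φ1 z + Ψ1 z) (B + B') := by
  refine ⟨add_nonneg h.nonneg h'.nonneg,
    fun ρ u h0 hu => A_add h0 (h.val ρ u h0 hu) (h'.val ρ u h0 hu),
    fun ρ u h0 hu => A_add h0 (h.val1 ρ u h0 hu) (h'.val1 ρ u h0 hu), ?_,
    fun z hz => (h.der z hz).add (h'.der z hz), ?_⟩
  · intro ρ m u v h0 hm hu hv
    have h1 := A_add h0 (h.taylor ρ m u v h0 hm hu hv) (h'.taylor ρ m u v h0 hm hu hv)
    have h2 : (fun θ => Φ (u θ + v θ) + Ψ (u θ + v θ) - (Φ (u θ) + Ψ (u θ)) -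
        (Φ1 (u θ) + Ψ1 (u θ)) * v θ) = fun θ => (Φ (u θ + v θ) - Φ (u θ) - Φ1 (u θ) * v θ) +
        (Ψ (u θ + v θ) - Ψ (u θ) - Ψ1 (u θ) * v θ) := by
      funext θ; ring
    rw [h2]
    exact A_mono le_rfl (by rw [add_mul]) h1
  · intro z w hz hw
    have h1 := h.lip z w hz hw
    have h2 := h'.lip z w hz hw
    rw [show Φ1 z + Ψ1 z - (Φ1 w + Ψ1 w) = (Φ1 z - Φ1 w) + (Ψ1 z - Ψ1 w) by ring]
    refine (abs_add_le _ _).trans ?_
    rw [add_mul]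
    exact add_le_add h1 h2

theorem NL_cube {γ : ℝ} (hγ : 0 ≤ γ) :
    NL (fun z => γ * z ^ 3) (fun z => 3 * γ * z ^ 2) (27 * γ) := by
  refine ⟨by positivity, ?_, ?_, ?_, ?_, ?_⟩
  · intro ρ u h0 hu
    refine A_mono le_rfl ?_ (A_smul γ (A_pow h0 hu 3))
    rw [abs_of_nonneg hγ]
    linarith
  · intro ρ u h0 hu
    refine A_mono le_rfl ?_ (A_smul (3 * γ) (A_pow h0 hu 2))
    rw [abs_of_nonneg (by positivity)]
    linarith
  · intro ρ m u v h0 hm hu hv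
    have hm0 : 0 ≤ m := A_nonneg hv
    have h1 := A_smul γ (A_mul h0 (A_pow h0 hv 2) (A_add h0 (A_smul 3 hu) hv))
    have h2 : (fun θ => γ * (u θ + v θ) ^ 3 - γ * u θ ^ 3 - 3 * γ * u θ ^ 2 * v θ) =
        fun θ => γ * (v θ ^ 2 * (3 * u θ + v θ)) := by
      funext θ; ring
    rw [h2]
    refine A_mono le_rfl ?_ h1
    rw [abs_of_nonneg hγ, abs_of_pos (by norm_num : (0 : ℝ) < 3)]
    have h3 : 0 ≤ γ * m ^ 2 := by positivity
    nlinarith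
  · intro z _
    have h1 := (hasDerivAt_pow 3 z).const_mul γ
    exact h1.congr_deriv (by norm_num; ring)
  · intro z w hz hw
    have h1 : 3 * γ * z ^ 2 - 3 * γ * w ^ 2 = 3 * γ * (z + w) * (z - w) := by ring
    rw [h1, abs_mul, abs_mul, abs_of_nonneg (by positivity : (0 : ℝ) ≤ 3 * γ)]
    refine mul_le_mul_of_nonneg_right ?_ (abs_nonneg _)
    have h2 : |z + w| ≤ 5 := (abs_add_le z w).trans (by linarith)
    have h3 : 3 * γ * |z + w| ≤ 3 * γ * 5 := mul_le_mul_of_nonneg_left h2 (by positivity)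
    linarith

end Pool.Agent.LibKam44
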