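import Pool.Agent.LibKam44.Defs
set_option autoImplicit false
namespace Pool.Agent.LibKam44

theorem id1 {x xp xm w wp wm f F E E1 W Wp S a b : ℝ} (hE : E = xp + xm - F)
    (hE1 : E1 = wp + wm - f * w) (hW : W = w * xm - wm * x) (hWp : Wp = wp * x - w * xp)
    (hW0 : W ≠ 0) (hWp0 : Wp ≠ 0) (hS : S = x * (x * f - F - E) / (W * Wp)) :
    f * (w * a + x / W * b) - (wm * a + xm / W * b) -
      (wp * (a + (S * b - x / Wp * E)) + xp / Wp * (b + w * E)) =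
    E - E1 * a + x / W * (xp / Wp) * E1 * b := by
  have hF : F = xp + xm - E := by linarith
  subst hS
  subst hE1
  subst hF
  have e1 : f * (w * a + x / W * b) - (wm * a + xm / W * b) -
      (wp * (a + (x * (x * f - (xp + xm - E) - E) / (W * Wp) * b - x / Wp * E)) +
        xp / Wp * (b + w * E)) - (E - (wp + wm - f * w) * a + x / W * (xp / Wp) *
        (wp + wm - f * w) * b) =
      (E * (x * wp - w * xp - Wp)) / Wp + b * (f * x * (Wp + xp * w - wp * x) +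
      (x * xp * wp + x * xm * wp - xm * Wp - xp * W - x * xp * wp - x * xp * wm)) / (W * Wp) := by
    field_simp
    ring
  have e2 : x * wp - w * xp - Wp = 0 := by rw [hWp]; ring
  have e3 : f * x * (Wp + xp * w - wp * x) +
      (x * xp * wp + x * xm * wp - xm * Wp - xp * W - x * xp * wp - x * xp * wm) = 0 := by
    rw [hWp, hW]; ring
  rw [e2, e3] at e1
  have : (E * 0) / Wp + b * 0 / (W * Wp) = 0 := by simp
  linarith

theorem id2 {x xp xm w wp wm f F E E1 W Wp S a b : ℝ} (hE : E = xp + xm - F)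
    (hE1 : E1 = wp + wm - f * w) (hW : W = w * xm - wm * x) (hWp : Wp = wp * x - w * xp)
    (hW0 : W ≠ 0) (hWp0 : Wp ≠ 0) (hS : S = x * (x * f - F - E) / (W * Wp)) :
    (w * a + x / W * b) -
      (w * (a + (S * b - x / Wp * E)) + x / Wp * (b + w * E)) =
    x / W * (x / Wp) * E1 * b := by
  have hF : F = xp + xm - E := by linarith
  subst hS
  subst hE1
  subst hF
  have e1 : (w * a + x / W * b) -
      (w * (a + (x * (x * f - (xp + xm - E) - E) / (W * Wp) * b - x / Wp * E)) +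
        x / Wp * (b + w * E)) - x / W * (x / Wp) * (wp + wm - f * w) * b =
      x * b * (Wp - (w * (x * f - xp - xm)) - W - x * (wp + wm - f * w)) / (W * Wp) := by
    field_simp
    ring
  have e2 : Wp - (w * (x * f - xp - xm)) - W - x * (wp + wm - f * w) = 0 := by
    rw [hWp, hW]; ring
  rw [e2] at e1
  have : x * b * 0 / (W * Wp) = 0 := by simp
  linarith

theorem newton_identity {F F1 X w E1 a b : ℝ → ℝ} {Ω : ℝ}
    (hE1 : ∀ θ, E1 θ = w (θ + Ω) + w (θ - Ω) - F1 (X θ) * w θ)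
    (hW : ∀ θ, Wr Ω X w θ ≠ 0)
    (hb : ∀ θ, b (θ + Ω) - b θ = w θ * Er F Ω X θ)
    (ha : ∀ θ, a (θ + Ω) - a θ =
      Sr F F1 Ω X w θ * b θ - X θ / Wr Ω X w (θ + Ω) * Er F Ω X θ) (θ : ℝ) :
    (w (θ + Ω) * a (θ + Ω) + X (θ + Ω) / Wr Ω X w (θ + Ω) * b (θ + Ω)) +
      (w (θ - Ω) * a (θ - Ω) + X (θ - Ω) / Wr Ω X w (θ - Ω) * b (θ - Ω)) -
      F1 (X θ) * (w θ * a θ + X θ / Wr Ω X w θ * b θ) =
    -Er F Ω X θ + E1 θ * a θ -
      X θ / Wr Ω X w θ * (X (θ + Ω) / Wr Ω X w (θ + Ω)) * E1 θ * b θ +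
      X (θ - Ω) / Wr Ω X w (θ - Ω) * (X (θ - Ω) / Wr Ω X w θ) * E1 (θ - Ω) * b (θ - Ω) := by
  have e0 : θ - Ω + Ω = θ := by ring
  have e0' : θ + Ω - Ω = θ := by ring
  have h1 := id1 (x := X θ) (xp := X (θ + Ω)) (xm := X (θ - Ω)) (w := w θ) (wp := w (θ + Ω))
    (wm := w (θ - Ω)) (f := F1 (X θ)) (F := F (X θ)) (E := Er F Ω X θ) (E1 := E1 θ)
    (W := Wr Ω X w θ) (Wp := Wr Ω X w (θ + Ω)) (S := Sr F F1 Ω X w θ) (a := a θ) (b := b θ)
    rfl (hE1 θ) rfl (by rw [Wr, e0']) (hW _) (hW _) rfl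
  have h2 := id2 (x := X (θ - Ω)) (xp := X θ) (xm := X (θ - Ω - Ω)) (w := w (θ - Ω)) (wp := w θ)
    (wm := w (θ - Ω - Ω)) (f := F1 (X (θ - Ω))) (F := F (X (θ - Ω))) (E := Er F Ω X (θ - Ω))
    (E1 := E1 (θ - Ω)) (W := Wr Ω X w (θ - Ω)) (Wp := Wr Ω X w θ) (S := Sr F F1 Ω X w (θ - Ω))
    (a := a (θ - Ω)) (b := b (θ - Ω))
    (by rw [Er, e0]) (by rw [hE1, e0]) rfl rfl (hW _) (hW _) (by rw [Sr, e0])
  have h3 := hb θ
  have h4 := ha θ
  have h5 := hb (θ - Ω)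
  have h6 := ha (θ - Ω)
  rw [e0] at h5 h6
  have e1 : a (θ + Ω) = a θ + (Sr F F1 Ω X w θ * b θ - X θ / Wr Ω X w (θ + Ω) * Er F Ω X θ) := by
    linarith
  have e2 : b (θ + Ω) = b θ + w θ * Er F Ω X θ := by linarith
  have e3 : a (θ - Ω) + (Sr F F1 Ω X w (θ - Ω) * b (θ - Ω) -
      X (θ - Ω) / Wr Ω X w θ * Er F Ω X (θ - Ω)) = a θ := by linarith
  have e4 : b (θ - Ω) + w (θ - Ω) * Er F Ω X (θ - Ω) = b θ := by linarith
  rw [← e1, ← e2] at h1
  rw [e3, e4] at h2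
  linarith

end Pool.Agent.LibKam44
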