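import Pool.Agent.LibKam44.K07
set_option autoImplicit false
namespace Pool.Agent.LibKam44
/-
ROW K13 (the mean value of X' E vanishes identically). PLAN: avg(X'(θ) X(θ-Ω)) = avg(X'(θ+Ω) X(θ))
(avg_shift), so the first two terms give the mean of the derivative of θ ↦ X(θ) X(θ+Ω), which is 0 by
intervalIntegral.integral_eq_sub_of_hasDerivAt and periodicity; and ∫_0^{2π} F(X) X' =
∫_{X 0}^{X(2π)} F = 0 (intervalIntegral.integral_comp_mul_deriv''' or ''; F continuous on [-2,2],
X(2π) = X(0)).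
-/
theorem avg_flux {F X w : ℝ → ℝ} {Ω : ℝ} (hF : ContinuousOn F (Set.Icc (-2) 2))
    (hX : ∀ θ, HasDerivAt X (w θ) θ) (hw : Continuous w)
    (hp : ∀ θ, X (θ + 2 * Real.pi) = X θ) (hpw : ∀ θ, w (θ + 2 * Real.pi) = w θ)
    (hb : ∀ θ, |X θ| ≤ 2) : avg (fun θ => w θ * Er F Ω X θ) = 0 := by
  have hXc : Continuous X := continuous_iff_continuousAt.2 fun θ => (hX θ).continuousAt
  have hX0 : X (2 * Real.pi) = X 0 := by simpa using hp 0
  have hmem : ∀ θ, X θ ∈ Set.Icc (-2 : ℝ) 2 := fun θ => abs_le.1 (hb θ)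
  have hFX : Continuous fun θ => F (X θ) :=
    hF.comp_continuous hXc hmem
  have c1 : Continuous fun θ => w θ * X (θ + Ω) := hw.mul (hXc.comp (by fun_prop))
  have c2 : Continuous fun θ => w θ * X (θ - Ω) := hw.mul (hXc.comp (by fun_prop))
  have c2' : Continuous fun θ => w (θ + Ω) * X θ := (hw.comp (by fun_prop)).mul hXc
  have c3 : Continuous fun θ => w θ * F (X θ) := hw.mul hFX
  have e0 : (fun θ => w θ * Er F Ω X θ) =
      fun θ => (w θ * X (θ + Ω) + w θ * X (θ - Ω)) - w θ * F (X θ) := by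
    funext θ
    rw [Er]
    ring
  have h2 : avg (fun θ => w θ * X (θ - Ω)) = avg (fun θ => w (θ + Ω) * X θ) := by
    have h := avg_shift (u := fun θ => w θ * X (θ - Ω)) (fun θ => by
      have e : θ + 2 * Real.pi - Ω = (θ - Ω) + 2 * Real.pi := by ring
      rw [e, hp, hpw]) Ω
    rw [← h]
    congr 1
    funext θ
    rw [add_sub_cancel_right]
  have h12 : avg (fun θ => w θ * X (θ + Ω)) + avg (fun θ => w (θ + Ω) * X θ) = 0 := by
    rw [← avg_add c1 c2', avg]
    have hd : ∀ θ ∈ Set.uIcc (0 : ℝ) (2 * Real.pi),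
        HasDerivAt (fun θ => X θ * X (θ + Ω)) (w θ * X (θ + Ω) + w (θ + Ω) * X θ) θ := by
      intro θ _
      have h := (hX θ).mul ((hX (θ + Ω)).comp_add_const θ Ω)
      have e : w θ * X (θ + Ω) + w (θ + Ω) * X θ = w θ * X (θ + Ω) + X θ * w (θ + Ω) := by ring
      rw [e]
      exact h
    have hi := intervalIntegral.integral_eq_sub_of_hasDerivAt hd ((c1.add c2').intervalIntegrable _ _)
    rw [hi, hX0]
    have e2 : X (2 * Real.pi + Ω) = X (0 + Ω) := by
      have := hp Ω
      rw [zero_add, add_comm]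
      exact this
    rw [e2, sub_self, mul_zero]
  have h3 : avg (fun θ => w θ * F (X θ)) = 0 := by
    rw [avg]
    have h := intervalIntegral.integral_comp_mul_deriv'' (a := (0 : ℝ)) (b := 2 * Real.pi)
      (f := X) (f' := w) (g := F) hXc.continuousOn
      (fun θ _ => (hX θ).hasDerivWithinAt) hw.continuousOn
      (hF.mono (by
        rintro z ⟨θ, _, rfl⟩
        exact hmem θ))
    have e : (fun θ => w θ * F (X θ)) = fun θ => (F ∘ X) θ * w θ := by
      funext θ
      rw [Function.comp, mul_comm]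
    rw [e, h, hX0, intervalIntegral.integral_same, mul_zero]
  have c12 : Continuous fun θ => w θ * X (θ + Ω) + w θ * X (θ - Ω) := c1.add c2
  rw [e0, avg_sub c12 c3, avg_add c1 c2, h2, h12, h3, sub_zero]

end Pool.Agent.LibKam44
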