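import Pool.Agent.LibKam44.K02
import Pool.Agent.LibKam44.K03
import Pool.Agent.LibKam44.K04
import Pool.Agent.LibKam44.K06
import Pool.Agent.LibKam44.K08
import Pool.Agent.LibKam44.K09
import Pool.Agent.LibKam44.K12
import Pool.Agent.LibKam44.K13
set_option autoImplicit false
namespace Pool.Agent.LibKam44
/- ROW K14 (the Newton step; helper44). -/

theorem K14_exp_half : Real.exp (1 / 2) ≤ 1.65 := by
  have h1 : Real.exp (1 / 2) ^ 2 = Real.exp 1 := by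
    rw [← Real.exp_nat_mul]
    norm_num
  have h2 := Real.exp_one_lt_d9
  have h3 : 0 < Real.exp (1 / 2) := Real.exp_pos _
  nlinarith

theorem K14_trig {ρ r : ℝ} (hρ : ρ ≤ 1 / 2) (hr : 1 / 2 ≤ r) (hr1 : r ≤ 1) :
    A ρ 1.65 (fun θ => r * Real.cos θ) ∧ A ρ 1.65 (fun θ => r * Real.sin θ) := by
  have h1 := A_cos ρ 1
  have h2 := A_sin ρ 1
  simp only [Nat.cast_one, one_mul, mul_one] at h1 h2
  have h3 : |r| * Real.exp ρ ≤ 1.65 := by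
    rw [abs_of_nonneg (by linarith)]
    have h4 : Real.exp ρ ≤ 1.65 := (Real.exp_le_exp.2 hρ).trans K14_exp_half
    have h5 : 0 < Real.exp ρ := Real.exp_pos _
    nlinarith
  exact ⟨A_mono le_rfl h3 (A_smul r h1), A_mono le_rfl h3 (A_smul r h2)⟩

/-- the frame -/
theorem K14_frame {σ Ω r ρ η : ℝ} {X w : ℝ → ℝ} (hσ : 0 < σ) (hr : 1 / 2 ≤ r) (hr1 : r ≤ 1)
    (hΩ : σ ≤ |Real.sin Ω|) (h0 : 0 ≤ ρ) (hρ : ρ ≤ 1 / 2) (hη : η ≤ σ / 64)
    (h1 : A ρ η (fun θ => X θ - r * Real.cos θ))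
    (h2 : A ρ η (fun θ => w θ + r * Real.sin θ)) :
    A ρ 2 X ∧ A ρ 2 w ∧ A ρ (8 / σ) (fun θ => (Wr Ω X w θ)⁻¹) ∧ ∀ θ, Wr Ω X w θ ≠ 0 := by
  have hσ1 : σ ≤ 1 := hΩ.trans (Real.abs_sin_le_one Ω)
  have hη0 : 0 ≤ η := A_nonneg h1
  obtain ⟨hc, hs⟩ := K14_trig hρ hr hr1
  have hX : A ρ 2 X := by
    have h := A_mono le_rfl (show η + 1.65 ≤ 2 by linarith) (A_add h0 h1 hc)
    have e : (fun θ => X θ - r * Real.cos θ + r * Real.cos θ) = X := by ext θ; ring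
    rwa [e] at h
  have hw : A ρ 2 w := by
    have h := A_mono le_rfl (show η + 1.65 ≤ 2 by linarith) (A_sub h0 h2 hs)
    have e : (fun θ => w θ + r * Real.sin θ - r * Real.sin θ) = w := by ext θ; ring
    rwa [e] at h
  have t1 := A_mul h0 h2 (A_shift' Ω hX)
  have t2 := A_mul h0 hs (A_shift' Ω h1)
  have t3 := A_mul h0 (A_shift' Ω h2) hX
  have t4 := A_mul h0 (A_shift' Ω hs) h1
  have t5 := A_add h0 (A_sub h0 (A_sub h0 t1 t2) t3) t4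
  have t6 : A ρ (σ / 8) (fun θ => Wr Ω X w θ - -(r ^ 2 * Real.sin Ω)) := by
    have e : (fun θ => Wr Ω X w θ - -(r ^ 2 * Real.sin Ω)) = (fun θ =>
          (w θ + r * Real.sin θ) * X (θ - Ω) -
            r * Real.sin θ * (X (θ - Ω) - r * Real.cos (θ - Ω)) -
            (w (θ - Ω) + r * Real.sin (θ - Ω)) * X θ +
            r * Real.sin (θ - Ω) * (X θ - r * Real.cos θ)) := by
      ext θ
      have e1 : Real.sin Ω = Real.sin θ * Real.cos (θ - Ω) - Real.sin (θ - Ω) * Real.cos θ := by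
        have : Ω = θ - (θ - Ω) := by ring
        conv_lhs => rw [this]
        rw [Real.sin_sub]
        ring
      rw [Wr, e1]
      ring
    rw [e]
    exact A_mono le_rfl (by linarith) t5
  have ha : σ / 4 ≤ |-(r ^ 2 * Real.sin Ω)| := by
    rw [abs_neg, abs_mul, abs_of_nonneg (sq_nonneg r)]
    have : (1 : ℝ) / 4 ≤ r ^ 2 := by nlinarith
    nlinarith [abs_nonneg (Real.sin Ω)]
  obtain ⟨t7, t8⟩ := A_inv h0 (show σ / 8 < |-(r ^ 2 * Real.sin Ω)| by linarith) t6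
  refine ⟨hX, hw, A_mono le_rfl ?_ t7, ?_⟩
  · rw [div_le_div_iff₀ (by linarith) hσ]
    linarith
  · intro θ hθ
    have := t8 θ
    rw [hθ, abs_zero] at this
    linarith

/-- the torsion function -/
theorem K14_torsion {B σ c ν Ω ρ e : ℝ} {Φ Φ1 X w : ℝ → ℝ} (hσ : 0 < σ)
    (hν : 0 < ν) (he1 : e ≤ 1) (h0 : 0 ≤ ρ) (hN : NL Φ Φ1 B)
    (hX : A ρ 2 X) (hWi : A ρ (8 / σ) (fun θ => (Wr Ω X w θ)⁻¹))
    (hE : A ρ (ν * e) (Er (Fn c ν Φ) Ω X)) :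
    A ρ (ν * (128 * (3 * B + 1) / σ ^ 2)) (Sr (Fn c ν Φ) (Fd c ν Φ1) Ω X w) := by
  have hB := hN.nonneg
  have hX3 : A ρ 3 X := A_mono le_rfl (by norm_num) hX
  have h1 := A_smul ν (A_sub h0 (A_mul h0 hX (hN.val1 ρ X h0 hX3)) (hN.val ρ X h0 hX3))
  have h2 := A_mul h0 (A_mul h0 hX (A_sub h0 h1 hE)) (A_mul h0 hWi (A_shift Ω hWi))
  have e0 : Sr (Fn c ν Φ) (Fd c ν Φ1) Ω X w = (fun θ =>
      X θ * (ν * (X θ * Φ1 (X θ) - Φ (X θ)) - Er (Fn c ν Φ) Ω X θ) *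
        ((Wr Ω X w θ)⁻¹ * (Wr Ω X w (θ + Ω))⁻¹)) := by
    ext θ
    rw [Sr, div_eq_mul_inv, mul_inv]
    congr 2
    rw [Fn, Fd]
    ring
  rw [e0]
  refine A_mono le_rfl ?_ h2
  rw [abs_of_pos hν]
  have e1 : 2 * (ν * (2 * B + B) + ν * e) * (8 / σ * (8 / σ)) =
      ν * (128 * (3 * B + e) / σ ^ 2) := by
    field_simp
    ring
  rw [e1]
  apply mul_le_mul_of_nonneg_left _ hν.le
  apply div_le_div_of_nonneg_right _ (by positivity)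
  linarith

theorem K14_pow {e s : ℝ} (he : 0 ≤ e) (hs : 0 < s) (hs1 : s ≤ 1) {a b : ℕ} (hab : a ≤ b) :
    e / s ^ a ≤ e / s ^ b := by
  apply div_le_div_of_nonneg_left he (by positivity)
  exact pow_le_pow_of_le_one hs.le hs1 hab

/-- solution of the two cohomological equations -/
theorem K14_solve {B σ s₀ κ : ℝ} (hB : 0 < B) (hσ : 0 < σ) (hs₀ : 0 < s₀) (hκ : 0 < κ) :
    ∃ C : ℝ, 0 < C ∧ ∀ (c ν Ω ρ s e : ℝ) (Φ Φ1 X w : ℝ → ℝ), 0 < ν →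
      Dio (κ * ν) Ω → NL Φ Φ1 B → 0 < s → s ≤ 1 → 0 ≤ ρ - s → 0 ≤ e → e ≤ 1 →
      (∀ θ, HasDerivAt X (w θ) θ) → A ρ 2 X → A ρ 2 w →
      A ρ (8 / σ) (fun θ => (Wr Ω X w θ)⁻¹) →
      A ρ (ν * e) (Er (Fn c ν Φ) Ω X) →
      s₀ * ν ≤ |avg (Sr (Fn c ν Φ) (Fd c ν Φ1) Ω X w)| →
      ∃ a b : ℝ → ℝ, A (ρ - 2 * (s / 3)) (C * (e / s ^ 4)) a ∧
        A (ρ - 2 * (s / 3)) (C * (e / s ^ 2)) b ∧
        (∀ θ, b (θ + Ω) - b θ = w θ * Er (Fn c ν Φ) Ω X θ) ∧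
        (∀ θ, a (θ + Ω) - a θ = Sr (Fn c ν Φ) (Fd c ν Φ1) Ω X w θ * b θ -
          X θ / Wr Ω X w (θ + Ω) * Er (Fn c ν Φ) Ω X θ) := by
  set CS := 128 * (3 * B + 1) / σ ^ 2 with hCS
  have hCS0 : 0 < CS := by positivity
  set Cb := 72 / κ with hCb
  have hCb0 : 0 < Cb := by positivity
  set Cc := (CS * Cb + 16 / σ) / s₀ with hCc
  have hCc0 : 0 < Cc := by positivity
  set C1 := Cb + Cc with hC1
  have hC10 : 0 < C1 := by positivity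
  set C2 := CS * C1 + 16 / σ with hC2
  have hC20 : 0 < C2 := by positivity
  set C3 := 36 * C2 / κ with hC3
  have hC30 : 0 < C3 := by positivity
  refine ⟨C1 + C3, by positivity, ?_⟩
  intro c ν Ω ρ s e Φ Φ1 X w hν hD hN hs hs1 hρs he he1 hder hX hw hWi hE hS
  have h0 : 0 ≤ ρ := by linarith
  have hκν : 0 < κ * ν := by positivity
  have hs3 : 0 < s / 3 := by positivity
  have hρ3 : 0 ≤ ρ - s / 3 := by linarith
  set E := Er (Fn c ν Φ) Ω X with hEdef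
  set S := Sr (Fn c ν Φ) (Fd c ν Φ1) Ω X w with hSdef
  have hSA : A ρ (ν * CS) S := K14_torsion hσ hν he1 h0 hN hX hWi hE
  have hSc : Continuous S := A_cont h0 hSA
  have hEc : Continuous E := A_cont h0 hE
  -- first equation
  have g1 := A_mul h0 hw hE
  have hF : ContinuousOn (Fn c ν Φ) (Set.Icc (-2) 2) := by
    intro z hz
    have hz' : |z| < 3 := by
      rw [abs_lt]
      constructor <;> linarith [hz.1, hz.2]
    have h := (hN.der z hz').continuousAt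
    have h' : ContinuousAt (Fn c ν Φ) z := by
      have : Fn c ν Φ = fun z => 2 * c * z + ν * Φ z := rfl
      rw [this]
      exact (continuousAt_const.mul continuousAt_id).add (continuousAt_const.mul h)
    exact h'.continuousWithinAt
  have havg := avg_flux (Ω := Ω) hF hder (A_cont h0 hw) (A_per hX) (A_per hw) (A_abs h0 hX)
  obtain ⟨b0, hb0, hb0e⟩ := A_coh hs3 (by linarith) hκν hD g1 havg
  have hb0' : A (ρ - s / 3) (Cb * (e / s ^ 2)) b0 := by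
    refine A_mono le_rfl (le_of_eq ?_) hb0
    rw [hCb]
    field_simp
    ring
  -- the constant
  have hvE : A ρ (16 / σ * (ν * e)) (fun θ => X θ / Wr Ω X w (θ + Ω) * E θ) := by
    have h := A_mul h0 (A_mul h0 hX (A_shift Ω hWi)) hE
    refine A_mono le_rfl (le_of_eq ?_) h
    ring
  have hm1 : ρ - s / 3 ≤ ρ := by linarith
  have hSA' : A (ρ - s / 3) (ν * CS) S := A_mono hm1 le_rfl hSA
  have hvE' : A (ρ - s / 3) (16 / σ * (ν * e)) (fun θ => X θ / Wr Ω X w (θ + Ω) * E θ) :=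
    A_mono hm1 le_rfl hvE
  have g2 := A_sub hρ3 (A_mul hρ3 hSA' hb0') hvE'
  have hb0c : Continuous b0 := A_cont hρ3 hb0'
  have hvEc : Continuous (fun θ => X θ / Wr Ω X w (θ + Ω) * E θ) := A_cont h0 hvE
  set m := avg (fun θ => S θ * b0 θ - X θ / Wr Ω X w (θ + Ω) * E θ) with hm
  have hmb : |m| ≤ ν * ((CS * Cb + 16 / σ) * (e / s ^ 2)) := by
    refine (avg_abs (A_cont hρ3 g2) (A_abs hρ3 g2)).trans ?_
    have h1 : e ≤ e / s ^ 2 := by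
      have := K14_pow he hs hs1 (Nat.zero_le 2)
      simpa using this
    have h2 : 16 / σ * (ν * e) ≤ 16 / σ * (ν * (e / s ^ 2)) := by
      apply mul_le_mul_of_nonneg_left _ (by positivity)
      exact mul_le_mul_of_nonneg_left h1 hν.le
    calc _ ≤ ν * CS * (Cb * (e / s ^ 2)) + 16 / σ * (ν * (e / s ^ 2)) := by linarith
      _ = _ := by ring
  have hA0 : 0 < s₀ * ν := by positivity
  have hAS : avg S ≠ 0 := by
    intro h
    rw [h, abs_zero] at hS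
    linarith
  set bb := -m / avg S with hbb
  have hbbb : |bb| ≤ Cc * (e / s ^ 2) := by
    rw [hbb, abs_div, abs_neg, div_le_iff₀ (abs_pos.2 hAS)]
    refine hmb.trans ?_
    have h1 : 0 ≤ Cc * (e / s ^ 2) := by positivity
    calc ν * ((CS * Cb + 16 / σ) * (e / s ^ 2)) = Cc * (e / s ^ 2) * (s₀ * ν) := by
          rw [hCc]
          field_simp
      _ ≤ _ := mul_le_mul_of_nonneg_left hS h1
  set b := fun θ => b0 θ + bb with hb
  have hbA : A (ρ - s / 3) (C1 * (e / s ^ 2)) b := by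
    refine A_mono le_rfl ?_ (A_add hρ3 hb0' (A_const _ bb))
    rw [hC1]
    linarith
  have hbe : ∀ θ, b (θ + Ω) - b θ = w θ * E θ := by
    intro θ
    rw [← hb0e θ, hb]
    ring
  -- second equation
  have g3 := A_sub hρ3 (A_mul hρ3 hSA' hbA) hvE'
  have g3' : A (ρ - s / 3) (ν * (C2 * (e / s ^ 2)))
      (fun θ => S θ * b θ - X θ / Wr Ω X w (θ + Ω) * E θ) := by
    refine A_mono le_rfl ?_ g3
    have h1 : e ≤ e / s ^ 2 := by
      have := K14_pow he hs hs1 (Nat.zero_le 2)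
      simpa using this
    have h2 : 16 / σ * (ν * e) ≤ 16 / σ * (ν * (e / s ^ 2)) := by
      apply mul_le_mul_of_nonneg_left _ (by positivity)
      exact mul_le_mul_of_nonneg_left h1 hν.le
    calc _ ≤ ν * CS * (C1 * (e / s ^ 2)) + 16 / σ * (ν * (e / s ^ 2)) := by linarith
      _ = _ := by rw [hC2]; ring
  have havg2 : avg (fun θ => S θ * b θ - X θ / Wr Ω X w (θ + Ω) * E θ) = 0 := by
    have e1 : (fun θ => S θ * b θ - X θ / Wr Ω X w (θ + Ω) * E θ) = (fun θ =>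
        (S θ * b0 θ - X θ / Wr Ω X w (θ + Ω) * E θ) + bb * S θ) := by
      ext θ
      rw [hb]
      ring
    have e2 := avg_add (u := fun θ => S θ * b0 θ - X θ / Wr Ω X w (θ + Ω) * E θ)
      (v := fun θ => bb * S θ) ((hSc.mul hb0c).sub hvEc) (continuous_const.mul hSc)
    rw [e1, e2, avg_smul, ← hm, hbb]
    field_simp
    ring
  have hρ33 : s / 3 ≤ ρ - s / 3 := by linarith
  obtain ⟨a, haA, hae⟩ := A_coh hs3 hρ33 hκν hD g3' havg2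
  have hρe : ρ - s / 3 - s / 3 = ρ - 2 * (s / 3) := by ring
  rw [hρe] at haA
  refine ⟨a, b, A_mono le_rfl ?_ haA, A_mono (by linarith) ?_ hbA, hbe, hae⟩
  · have h1 : 4 * (ν * (C2 * (e / s ^ 2))) / (κ * ν * (s / 3) ^ 2) = C3 * (e / s ^ 4) := by
      rw [hC3]
      field_simp
      ring
    rw [h1]
    apply mul_le_mul_of_nonneg_right _ (by positivity)
    linarith
  · apply mul_le_mul_of_nonneg_right _ (by positivity)
    linarith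

theorem newton_step {B σ s₀ κ : ℝ} (hB : 0 < B) (hσ : 0 < σ) (hs₀ : 0 < s₀) (hκ : 0 < κ) :
    ∃ C : ℝ, 1 ≤ C ∧ ∀ (c ν Ω r ρ s η e : ℝ) (Φ Φ1 X : ℝ → ℝ), |c| ≤ 1 → 0 < ν → ν ≤ 1 →
      1 / 2 ≤ r → r ≤ 1 → σ ≤ |Real.sin Ω| → Dio (κ * ν) Ω → NL Φ Φ1 B → 0 < s → s ≤ 1 →
      0 ≤ ρ - s → ρ ≤ 1 / 2 → η ≤ σ / 64 → 0 ≤ e → e ≤ 1 → Differentiable ℝ X →
      A ρ η (fun θ => X θ - r * Real.cos θ) → A ρ η (fun θ => deriv X θ + r * Real.sin θ) →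
      A ρ (ν * e) (Er (Fn c ν Φ) Ω X) →
      s₀ * ν ≤ |avg (Sr (Fn c ν Φ) (Fd c ν Φ1) Ω X (deriv X))| → C * e / s ^ 6 ≤ 1 →
      ∃ h : ℝ → ℝ, Differentiable ℝ h ∧ A (ρ - s) (C * e / s ^ 6) h ∧
        A (ρ - s) (C * e / s ^ 6) (deriv h) ∧
        A (ρ - s) (ν * (C * e ^ 2 / s ^ 12)) (Er (Fn c ν Φ) Ω (fun θ => X θ + h θ)) := by
  obtain ⟨C₀, hC₀, hsolve⟩ := K14_solve hB hσ hs₀ hκ
  set C4 := 2 * C₀ + 16 / σ * C₀ with hC4
  have hC40 : 0 < C4 := by positivity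
  set C5 := 3 * C₀ + 6 * (16 / σ) ^ 2 * C₀ + B * C4 ^ 2 with hC5
  have hC50 : 0 < C5 := by positivity
  refine ⟨1 + 3 * C4 + C5, by linarith, ?_⟩
  intro c ν Ω r ρ s η e Φ Φ1 X _hc hν _hν1 hr hr1 hΩ hD hN hs hs1 hρs hρ hη he he1 hX hX1 hX2 hE
    hS hC
  have h0 : 0 ≤ ρ := by linarith
  set w := deriv X with hw
  set E := Er (Fn c ν Φ) Ω X with hEdef
  have hder : ∀ θ, HasDerivAt X (w θ) θ := fun θ => (hX θ).hasDerivAt
  obtain ⟨hXA, hwA, hWi, hW0⟩ := K14_frame hσ hr hr1 hΩ h0 hρ hη hX1 hX2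
  obtain ⟨a, b, haA, hbA, hbe, hae⟩ := hsolve c ν Ω ρ s e Φ Φ1 X w hν hD hN hs hs1 hρs he he1 hder
    hXA hwA hWi hE hS
  have hs3 : 0 < s / 3 := by positivity
  set ρ' := ρ - 2 * (s / 3) with hρ'
  have hρ'0 : 0 ≤ ρ' := by rw [hρ']; linarith
  have hρ'ρ : ρ' ≤ ρ := by rw [hρ']; linarith
  have hee : 0 ≤ e / s ^ 2 := by positivity
  have h24 : e / s ^ 2 ≤ e / s ^ 4 := K14_pow he hs hs1 (by norm_num)
  have hXA' : A ρ' 2 X := A_mono hρ'ρ le_rfl hXA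
  have hwA' : A ρ' 2 w := A_mono hρ'ρ le_rfl hwA
  have hWi' : A ρ' (8 / σ) (fun θ => (Wr Ω X w θ)⁻¹) := A_mono hρ'ρ le_rfl hWi
  have hvA : A ρ' (16 / σ) (fun θ => X θ / Wr Ω X w θ) :=
    A_mono le_rfl (le_of_eq (by ring)) (A_mul hρ'0 hXA' hWi')
  -- the correction
  set h : ℝ → ℝ := fun θ => w θ * a θ + X θ / Wr Ω X w θ * b θ with hh
  have hhA : A ρ' (C4 * (e / s ^ 4)) h := by
    refine A_mono le_rfl ?_ (A_add hρ'0 (A_mul hρ'0 hwA' haA) (A_mul hρ'0 hvA hbA))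
    have h1 : 16 / σ * (C₀ * (e / s ^ 2)) ≤ 16 / σ * (C₀ * (e / s ^ 4)) := by
      apply mul_le_mul_of_nonneg_left _ (by positivity)
      exact mul_le_mul_of_nonneg_left h24 hC₀.le
    calc _ ≤ 2 * (C₀ * (e / s ^ 4)) + 16 / σ * (C₀ * (e / s ^ 4)) := by linarith
      _ = _ := by rw [hC4]; ring
  obtain ⟨hhd, hhdA⟩ := A_deriv hs3 (show s / 3 ≤ ρ' by rw [hρ']; linarith) hhA
  have hρe : ρ' - s / 3 = ρ - s := by rw [hρ']; ring
  rw [hρe] at hhdA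
  have hρ'' : ρ - s ≤ ρ' := by rw [hρ']; linarith
  have hk : ∀ k : ℕ, k ≤ 6 → ∀ D : ℝ, 0 ≤ D → D ≤ 1 + 3 * C4 + C5 →
      D * (e / s ^ k) ≤ (1 + 3 * C4 + C5) * e / s ^ 6 := by
    intro k hk D hD0 hD
    rw [mul_div_assoc]
    exact mul_le_mul hD (K14_pow he hs hs1 hk) (by positivity) (by positivity)
  have hm1 : C4 * (e / s ^ 4) ≤ 1 := (hk 4 (by norm_num) C4 hC40.le (by linarith)).trans hC
  refine ⟨h, hhd, A_mono hρ'' (hk 4 (by norm_num) C4 hC40.le (by linarith)) hhA,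
    A_mono le_rfl ?_ hhdA, ?_⟩
  · have h1 : C4 * (e / s ^ 4) / (s / 3) = 3 * C4 * (e / s ^ 5) := by
      field_simp
    rw [h1]
    exact hk 5 (by norm_num) (3 * C4) (by positivity) (by linarith)
  -- the new error
  have hE1d : ∀ θ, HasDerivAt E (w (θ + Ω) + w (θ - Ω) - Fd c ν Φ1 (X θ) * w θ) θ := by
    intro θ
    have hz : |X θ| < 3 := lt_of_le_of_lt (A_abs h0 hXA θ) (by norm_num)
    have d1 : HasDerivAt (fun θ => X (θ + Ω)) (w (θ + Ω)) θ := (hder (θ + Ω)).comp_add_const θ Ω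
    have d2 : HasDerivAt (fun θ => X (θ - Ω)) (w (θ - Ω)) θ := (hder (θ - Ω)).comp_sub_const θ Ω
    have d3 : HasDerivAt (fun θ => Φ (X θ)) (Φ1 (X θ) * w θ) θ := (hN.der _ hz).comp θ (hder θ)
    have d4 := (d1.add d2).sub (((hder θ).const_mul (2 * c)).add (d3.const_mul ν))
    have e1 : E = fun θ => X (θ + Ω) + X (θ - Ω) - (2 * c * X θ + ν * Φ (X θ)) := rfl
    rw [e1]
    refine d4.congr_deriv ?_
    rw [Fd]
    ring
  have hE1 : ∀ θ, deriv E θ = w (θ + Ω) + w (θ - Ω) - Fd c ν Φ1 (X θ) * w θ :=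
    fun θ => (hE1d θ).deriv
  have hE1A : A ρ' (3 * ν * (e / s ^ 1)) (deriv E) := by
    have h1 := (A_deriv hs3 (by linarith) hE).2
    refine A_mono (by rw [hρ']; linarith) (le_of_eq ?_) h1
    field_simp
  have hid := newton_identity (F := Fn c ν Φ) (F1 := Fd c ν Φ1) (E1 := deriv E) hE1 hW0 hbe hae
  have t1 := A_mul hρ'0 hE1A haA
  have t2 := A_mul hρ'0 (A_mul hρ'0 (A_mul hρ'0 hvA (A_shift Ω hvA)) hE1A) hbA
  have t3 := A_mul hρ'0 (A_mul hρ'0 (A_mul hρ'0 (A_shift' Ω hvA)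
    (A_mul hρ'0 (A_shift' Ω hXA') hWi')) (A_shift' Ω hE1A)) (A_shift' Ω hbA)
  have t4 := A_smul ν (hN.taylor ρ' (C4 * (e / s ^ 4)) X h hρ'0 hm1 hXA' hhA)
  have t5 := A_sub hρ'0 (A_add hρ'0 (A_sub hρ'0 t1 t2) t3) t4
  have efun : Er (Fn c ν Φ) Ω (fun θ => X θ + h θ) = fun θ =>
      deriv E θ * a θ -
      X θ / Wr Ω X w θ * (X (θ + Ω) / Wr Ω X w (θ + Ω)) * deriv E θ * b θ +
      X (θ - Ω) / Wr Ω X w (θ - Ω) * (X (θ - Ω) * (Wr Ω X w θ)⁻¹) * deriv E (θ - Ω) * b (θ - Ω) -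
      ν * (Φ (X θ + h θ) - Φ (X θ) - Φ1 (X θ) * h θ) := by
    ext θ
    have h1 := hid θ
    have h2 : h (θ + Ω) = w (θ + Ω) * a (θ + Ω) + X (θ + Ω) / Wr Ω X w (θ + Ω) * b (θ + Ω) := rfl
    have h3 : h (θ - Ω) = w (θ - Ω) * a (θ - Ω) + X (θ - Ω) / Wr Ω X w (θ - Ω) * b (θ - Ω) := rfl
    have h4 : h θ = w θ * a θ + X θ / Wr Ω X w θ * b θ := rfl
    rw [← h2, ← h3, ← h4] at h1
    have h5 : Er (Fn c ν Φ) Ω X θ = X (θ + Ω) + X (θ - Ω) - (2 * c * X θ + ν * Φ (X θ)) := rfl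
    have h6 : Er (Fn c ν Φ) Ω (fun θ => X θ + h θ) θ = X (θ + Ω) + h (θ + Ω) +
      (X (θ - Ω) + h (θ - Ω)) - (2 * c * (X θ + h θ) + ν * Φ (X θ + h θ)) := rfl
    rw [Fd] at h1
    rw [h6, ← div_eq_mul_inv]
    rw [h5] at h1
    linear_combination h1
  rw [efun]
  refine A_mono hρ'' ?_ t5
  rw [abs_of_pos hν]
  have p1 : 0 < s ^ 5 := by positivity
  have q1 : 3 * ν * (e / s ^ 1) * (C₀ * (e / s ^ 4)) = ν * (3 * C₀ * (e ^ 2 / s ^ 5)) := by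
    field_simp
  have q2 : 16 / σ * (16 / σ) * (3 * ν * (e / s ^ 1)) * (C₀ * (e / s ^ 2)) =
      ν * (3 * (16 / σ) ^ 2 * C₀ * (e ^ 2 / s ^ 3)) := by
    field_simp
  have q3 : 16 / σ * (2 * (8 / σ)) * (3 * ν * (e / s ^ 1)) * (C₀ * (e / s ^ 2)) =
      ν * (3 * (16 / σ) ^ 2 * C₀ * (e ^ 2 / s ^ 3)) := by
    field_simp
    ring
  have q4 : ν * (B * (C4 * (e / s ^ 4)) ^ 2) = ν * (B * C4 ^ 2 * (e ^ 2 / s ^ 8)) := by
    field_simp
  rw [q1, q2, q3, q4, ← mul_add, ← mul_add, ← mul_add]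
  apply mul_le_mul_of_nonneg_left _ hν.le
  have he2 : 0 ≤ e ^ 2 := sq_nonneg e
  have r1 : e ^ 2 / s ^ 5 ≤ e ^ 2 / s ^ 12 := K14_pow he2 hs hs1 (by norm_num)
  have r2 : e ^ 2 / s ^ 3 ≤ e ^ 2 / s ^ 12 := K14_pow he2 hs hs1 (by norm_num)
  have r3 : e ^ 2 / s ^ 8 ≤ e ^ 2 / s ^ 12 := K14_pow he2 hs hs1 (by norm_num)
  have r0 : 0 ≤ e ^ 2 / s ^ 12 := by positivity
  have k1 := mul_le_mul_of_nonneg_left r1 (show 0 ≤ 3 * C₀ by positivity)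
  have k2 := mul_le_mul_of_nonneg_left r2 (show 0 ≤ 3 * (16 / σ) ^ 2 * C₀ by positivity)
  have k3 := mul_le_mul_of_nonneg_left r3 (show 0 ≤ B * C4 ^ 2 by positivity)
  calc _ ≤ 3 * C₀ * (e ^ 2 / s ^ 12) + 3 * (16 / σ) ^ 2 * C₀ * (e ^ 2 / s ^ 12) +
        3 * (16 / σ) ^ 2 * C₀ * (e ^ 2 / s ^ 12) + B * C4 ^ 2 * (e ^ 2 / s ^ 12) := by linarith
    _ = C5 * (e ^ 2 / s ^ 12) := by rw [hC5]; ring
    _ ≤ (1 + 3 * C4 + C5) * (e ^ 2 / s ^ 12) :=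
        mul_le_mul_of_nonneg_right (by linarith) r0
    _ = _ := by rw [mul_div_assoc]

end Pool.Agent.LibKam44
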