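import Pool.Agent.LibKam44.K05
import Pool.Agent.LibKam44.K14
set_option autoImplicit false
namespace Pool.Agent.LibKam44
/-
ROW K15 (the KAM theorem, iteration of newton_step). PLAN: C from newton_step; ρ_j = 1/4 + 2^(-j-2),
s_j = 2^(-j-3) (so ρ_j - s_j = ρ_(j+1)), e_j = ε q^j with q = 2^(-24), where ε is so small that
C ε 2^36 ≤ 2^(-24), ε ≤ ε₁, ε ≤ 1, and 4 C ε 2^18 ≤ η₀, C ε 2^18 ≤ 1. Invariant at step j:
A ρ_j η_j (X_j - r cos), A ρ_j η_j (X_j' + r sin), η_j = η₀/2 + ∑_{i<j} C e_i/s_i^6 ≤ η₀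
(C e_i/s_i^6 = C ε 2^18 (q 2^6)^i = C ε 2^18 2^(-18 i)), A ρ_j (ν e_j) (Er X_j);
C e_j^2/s_j^12 = C ε^2 2^36 (q^2 2^12)^j ≤ ε q^(j+1). Construct the sequence with Nat.rec on a subtype
(or exists_seq), X = X₀ + ∑' h_j: A_tsum for X - X₀ and for the derivatives (hasDerivAt_tsum with the
bounds C e_j/s_j^6, so deriv X = deriv X₀ + ∑' deriv h_j). Er X_j θ → Er X θ (the force
2 c z + ν Φ z is continuous at X θ, |X θ| ≤ 2 < 3, NL.der) and |Er X_j θ| ≤ ν e_j → 0.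
-/
theorem kam {B σ s₀ κ η₀ ε₁ : ℝ} (hB : 0 < B) (hσ : 0 < σ) (hs₀ : 0 < s₀) (hκ : 0 < κ)
    (hη : 0 < η₀) (hησ : η₀ ≤ σ / 64) (hε₁ : 0 < ε₁) :
    ∃ ε : ℝ, 0 < ε ∧ ∀ (c ν Ω r : ℝ) (Φ Φ1 X₀ : ℝ → ℝ), |c| ≤ 1 → 0 < ν → ν ≤ 1 →
      1 / 2 ≤ r → r ≤ 1 → σ ≤ |Real.sin Ω| → Dio (κ * ν) Ω → NL Φ Φ1 B →
      (∀ (ρ : ℝ) (X : ℝ → ℝ), 0 ≤ ρ → Differentiable ℝ X →
        A ρ η₀ (fun θ => X θ - r * Real.cos θ) → A ρ η₀ (fun θ => deriv X θ + r * Real.sin θ) →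
        A ρ (ν * ε₁) (Er (Fn c ν Φ) Ω X) →
        s₀ * ν ≤ |avg (Sr (Fn c ν Φ) (Fd c ν Φ1) Ω X (deriv X))|) →
      Differentiable ℝ X₀ → A (1 / 2) (η₀ / 2) (fun θ => X₀ θ - r * Real.cos θ) →
      A (1 / 2) (η₀ / 2) (fun θ => deriv X₀ θ + r * Real.sin θ) →
      A (1 / 2) (ν * ε) (Er (Fn c ν Φ) Ω X₀) →
      ∃ X : ℝ → ℝ, Differentiable ℝ X ∧ A (1 / 4) η₀ (fun θ => X θ - r * Real.cos θ) ∧
        A (1 / 4) η₀ (fun θ => deriv X θ + r * Real.sin θ) ∧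
        ∀ θ, Er (Fn c ν Φ) Ω X θ = 0 := by
  obtain ⟨C, hC1, hstep⟩ := newton_step hB hσ hs₀ hκ
  have hC0 : 0 < C := by linarith
  obtain ⟨ε, hε, hεε₁, hε60, hε20⟩ : ∃ ε : ℝ, 0 < ε ∧ ε ≤ ε₁ ∧ C * ε * 2 ^ 60 ≤ 1 ∧
      C * ε * 2 ^ 20 ≤ η₀ := by
    refine ⟨min ε₁ (min (1 / (C * 2 ^ 60)) (η₀ / (C * 2 ^ 20))), by positivity,
      min_le_left _ _, ?_, ?_⟩
    · have h1 : min ε₁ (min (1 / (C * 2 ^ 60)) (η₀ / (C * 2 ^ 20))) ≤ 1 / (C * 2 ^ 60) :=
        (min_le_right _ _).trans (min_le_left _ _)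
      rw [le_div_iff₀ (by positivity)] at h1
      linarith
    · have h1 : min ε₁ (min (1 / (C * 2 ^ 60)) (η₀ / (C * 2 ^ 20))) ≤ η₀ / (C * 2 ^ 20) :=
        (min_le_right _ _).trans (min_le_right _ _)
      rw [le_div_iff₀ (by positivity)] at h1
      linarith
  have hCε : 0 < C * ε := by positivity
  have hε1 : ε ≤ 1 := by nlinarith
  refine ⟨ε, hε, ?_⟩
  intro c ν Ω r Φ Φ1 X₀ hc hν hν1 hr hr1 hσΩ hDio hNL hav hX₀ hA0 hA0' hEr0
  have hσ1 : σ ≤ 1 := hσΩ.trans (Real.abs_sin_le_one Ω)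
  -- the invariant
  let P : ℕ → (ℝ → ℝ) → Prop := fun j X => Differentiable ℝ X ∧
    A (1 / 4 + 1 / 4 * (1 / 2) ^ j) (η₀ - C * ε * 2 ^ 19 * (1 / 2) ^ j)
      (fun θ => X θ - r * Real.cos θ) ∧
    A (1 / 4 + 1 / 4 * (1 / 2) ^ j) (η₀ - C * ε * 2 ^ 19 * (1 / 2) ^ j)
      (fun θ => deriv X θ + r * Real.sin θ) ∧
    A (1 / 4 + 1 / 4 * (1 / 2) ^ j) (ν * (ε * ((1 / 2) ^ j) ^ 24)) (Er (Fn c ν Φ) Ω X)
  let Q : ℕ → (ℝ → ℝ) → Prop := fun j h => Differentiable ℝ h ∧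
    A (1 / 4) (C * ε * 2 ^ 18 * (1 / 2) ^ j) h ∧ A (1 / 4) (C * ε * 2 ^ 18 * (1 / 2) ^ j) (deriv h)
  have hP0 : P 0 X₀ := by
    have e1 : (1 / 4 + 1 / 4 * (1 / 2) ^ 0 : ℝ) = 1 / 2 := by norm_num
    refine ⟨hX₀, ?_, ?_, ?_⟩
    · rw [e1]
      exact A_mono le_rfl (by rw [pow_zero]; linarith) hA0
    · rw [e1]
      exact A_mono le_rfl (by rw [pow_zero]; linarith) hA0'
    · rw [e1]
      refine A_mono le_rfl ?_ hEr0
      rw [pow_zero, one_pow, mul_one]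
  have hPstep : ∀ j X, P j X → ∃ h, Q j h ∧ P (j + 1) (fun θ => X θ + h θ) := by
    intro j X hX
    obtain ⟨x, hx⟩ : ∃ x : ℝ, x = (1 / 2) ^ j := ⟨_, rfl⟩
    have hx0 : 0 < x := by rw [hx]; positivity
    have hx1 : x ≤ 1 := by rw [hx]; exact pow_le_one₀ (by norm_num) (by norm_num)
    have hxs : ((1 / 2 : ℝ) ^ (j + 1)) = x / 2 := by rw [pow_succ, hx]; ring
    simp only [P] at hX
    rw [← hx] at hX
    obtain ⟨h1, h2, h3, h4⟩ := hX
    have hx24 : x ^ 24 ≤ 1 := pow_le_one₀ hx0.le hx1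
    have hx240 : 0 < x ^ 24 := by positivity
    have hx18 : x ^ 18 ≤ x := by
      calc x ^ 18 ≤ x ^ 1 := pow_le_pow_of_le_one hx0.le hx1 (by norm_num)
        _ = x := pow_one x
    have hx36 : x ^ 36 ≤ x ^ 24 := pow_le_pow_of_le_one hx0.le hx1 (by norm_num)
    have hp : 0 < C * ε * 2 ^ 19 * x := by positivity
    have k1 : A (1 / 4 + 1 / 4 * x) η₀ (fun θ => X θ - r * Real.cos θ) :=
      A_mono le_rfl (by linarith) h2
    have k2 : A (1 / 4 + 1 / 4 * x) η₀ (fun θ => deriv X θ + r * Real.sin θ) :=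
      A_mono le_rfl (by linarith) h3
    have he0 : 0 ≤ ε * x ^ 24 := by positivity
    have hele : ε * x ^ 24 ≤ ε := by nlinarith
    have k3 := hav (1 / 4 + 1 / 4 * x) X (by positivity) h1 k1 k2
      (A_mono le_rfl (by gcongr; linarith) h4)
    have ea : C * (ε * x ^ 24) / (x / 8) ^ 6 = C * ε * 2 ^ 18 * x ^ 18 := by
      field_simp
      ring
    have eb : C * (ε * x ^ 24) ^ 2 / (x / 8) ^ 12 = (C * ε * 2 ^ 36) * (ε * x ^ 36) := by
      field_simp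
      ring
    have hale : C * ε * 2 ^ 18 * x ^ 18 ≤ C * ε * 2 ^ 18 * x := by gcongr
    have hC18 : C * ε * 2 ^ 18 ≤ 1 := by nlinarith
    obtain ⟨h, m1, m2, m3, m4⟩ := hstep c ν Ω r (1 / 4 + 1 / 4 * x) (x / 8) η₀ (ε * x ^ 24) Φ Φ1 X
      hc hν hν1 hr hr1 hσΩ hDio hNL (by positivity) (by linarith) (by linarith) (by linarith)
      hησ he0 (by linarith) h1 k1 k2 h4 k3 (by
        rw [ea]
        refine hale.trans ?_
        nlinarith)
    rw [ea] at m2 m3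
    rw [eb] at m4
    have er : (1 / 4 + 1 / 4 * x - x / 8 : ℝ) = 1 / 4 + 1 / 4 * (x / 2) := by ring
    rw [er] at m2 m3 m4
    refine ⟨h, ⟨m1, ?_, ?_⟩, ?_, ?_, ?_, ?_⟩
    · rw [← hx]
      exact A_mono (by linarith) hale m2
    · rw [← hx]
      exact A_mono (by linarith) hale m3
    · exact h1.add m1
    · rw [hxs]
      have h5 := A_add (by positivity) (A_mono (ρ' := 1 / 4 + 1 / 4 * (x / 2)) (by linarith)
        le_rfl h2) m2
      have h6 : (fun θ => X θ - r * Real.cos θ + h θ) =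
          fun θ => (X θ + h θ) - r * Real.cos θ := by
        funext θ; ring
      rw [h6] at h5
      exact A_mono le_rfl (by linarith) h5
    · rw [hxs]
      have h5 := A_add (by positivity) (A_mono (ρ' := 1 / 4 + 1 / 4 * (x / 2)) (by linarith)
        le_rfl h3) m3
      have h6 : (fun θ => deriv X θ + r * Real.sin θ + deriv h θ) =
          fun θ => deriv (fun θ => X θ + h θ) θ + r * Real.sin θ := by
        funext θ
        rw [deriv_fun_add h1.differentiableAt m1.differentiableAt]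
        ring
      rw [h6] at h5
      exact A_mono le_rfl (by linarith) h5
    · rw [hxs]
      refine A_mono le_rfl ?_ m4
      gcongr ν * ?_
      calc C * ε * 2 ^ 36 * (ε * x ^ 36) ≤ (1 / 2 ^ 24) * (ε * x ^ 24) := by
            gcongr
            linarith
        _ = ε * (x / 2) ^ 24 := by ring
  choose! hf hfQ hfP using hPstep
  let Xs : ℕ → ℝ → ℝ := fun n => Nat.rec X₀ (fun j X => fun θ => X θ + hf j X θ) n
  have hXs1 : ∀ n, Xs (n + 1) = fun θ => Xs n θ + hf n (Xs n) θ := fun n => rfl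
  have hXsP : ∀ n, P n (Xs n) := by
    intro n
    induction n with
    | zero => exact hP0
    | succ n ih =>
      rw [hXs1]
      exact hfP n _ ih
  obtain ⟨hs, hhs⟩ : ∃ hs : ℕ → ℝ → ℝ, hs = fun n => hf n (Xs n) := ⟨_, rfl⟩
  have hsQ : ∀ n, Q n (hs n) := by
    intro n
    rw [hhs]
    exact hfQ n _ (hXsP n)
  have hsum : ∀ n θ, Xs n θ = X₀ θ + ∑ j ∈ Finset.range n, hs j θ := by
    intro n θ
    induction n with
    | zero => simp [Xs]
    | succ n ih =>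
      rw [Finset.sum_range_succ, ← add_assoc, ← ih, hXs1, hhs]
  have hMs : Summable (fun j : ℕ => C * ε * 2 ^ 18 * (1 / 2 : ℝ) ^ j) :=
    (summable_geometric_of_lt_one (by norm_num) (by norm_num)).mul_left _
  have hMt : ∑' j : ℕ, C * ε * 2 ^ 18 * (1 / 2 : ℝ) ^ j = C * ε * 2 ^ 19 := by
    rw [tsum_mul_left, tsum_geometric_of_lt_one (by norm_num) (by norm_num)]
    norm_num
    ring
  have h14 : (0 : ℝ) ≤ 1 / 4 := by norm_num
  have hsA := A_tsum h14 hMs (fun n => (hsQ n).2.1)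
  have hsA' := A_tsum h14 hMs (fun n => (hsQ n).2.2)
  have hsS := fun θ => A_tsum_summable h14 hMs (fun n => (hsQ n).2.1) θ
  rw [hMt] at hsA hsA'
  have hder : ∀ θ, HasDerivAt (fun z => ∑' n, hs n z) (∑' n, deriv (hs n) θ) θ := by
    intro θ
    refine hasDerivAt_tsum (y₀ := 0) hMs (fun n y => ((hsQ n).1 y).hasDerivAt)
      (fun n y => ?_) (hsS 0) θ
    rw [Real.norm_eq_abs]
    exact A_abs h14 (hsQ n).2.2 y
  have hX0d : ∀ θ, HasDerivAt X₀ (deriv X₀ θ) θ := fun θ => (hX₀ θ).hasDerivAt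
  have hXd : ∀ θ, HasDerivAt (fun z => X₀ z + ∑' n, hs n z)
      (deriv X₀ θ + ∑' n, deriv (hs n) θ) θ := fun θ => (hX0d θ).add (hder θ)
  have hXA : A (1 / 4) η₀ (fun θ => (X₀ θ + ∑' n, hs n θ) - r * Real.cos θ) := by
    have h5 := A_add h14 (A_mono (ρ' := 1 / 4) (by norm_num) le_rfl hA0) hsA
    have h6 : (fun θ => X₀ θ - r * Real.cos θ + ∑' n, hs n θ) =
        fun θ => (X₀ θ + ∑' n, hs n θ) - r * Real.cos θ := by
      funext θ; ring
    rw [h6] at h5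
    exact A_mono le_rfl (by linarith) h5
  refine ⟨fun z => X₀ z + ∑' n, hs n z, fun θ => (hXd θ).differentiableAt, hXA, ?_, ?_⟩
  · have h5 := A_add h14 (A_mono (ρ' := 1 / 4) (by norm_num) le_rfl hA0') hsA'
    have h6 : (fun θ => deriv X₀ θ + r * Real.sin θ + ∑' n, deriv (hs n) θ) =
        fun θ => deriv (fun z => X₀ z + ∑' n, hs n z) θ + r * Real.sin θ := by
      funext θ
      rw [(hXd θ).deriv]
      ring
    rw [h6] at h5
    exact A_mono le_rfl (by linarith) h5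
  · intro θ
    have hlim : ∀ φ, Filter.Tendsto (fun n => Xs n φ) Filter.atTop
        (nhds (X₀ φ + ∑' n, hs n φ)) := by
      intro φ
      have h5 := (hsS φ).hasSum.tendsto_sum_nat
      have h6 : (fun n => Xs n φ) = fun n => X₀ φ + ∑ j ∈ Finset.range n, hs j φ := by
        funext n
        exact hsum n φ
      rw [h6]
      exact tendsto_const_nhds.add h5
    have hbd : |X₀ θ + ∑' n, hs n θ| < 3 := by
      have h5 := A_abs h14 hXA θ
      have h6 : |r * Real.cos θ| ≤ 1 := by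
        rw [abs_mul, abs_of_pos (by linarith : 0 < r)]
        have := Real.abs_cos_le_one θ
        have h0 := abs_nonneg (Real.cos θ)
        nlinarith
      calc |X₀ θ + ∑' n, hs n θ| =
            |((X₀ θ + ∑' n, hs n θ) - r * Real.cos θ) + r * Real.cos θ| := by ring_nf
        _ ≤ |(X₀ θ + ∑' n, hs n θ) - r * Real.cos θ| + |r * Real.cos θ| := abs_add_le _ _
        _ < 3 := by
          have : η₀ ≤ 1 / 64 := by linarith
          linarith
    have hΦ : ContinuousAt Φ (X₀ θ + ∑' n, hs n θ) := (hNL.der _ hbd).continuousAt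
    have hF : ContinuousAt (Fn c ν Φ) (X₀ θ + ∑' n, hs n θ) := by
      unfold Fn
      exact (continuousAt_const.mul continuousAt_id).add (continuousAt_const.mul hΦ)
    have hE : Filter.Tendsto (fun n => Er (Fn c ν Φ) Ω (Xs n) θ) Filter.atTop
        (nhds (Er (Fn c ν Φ) Ω (fun z => X₀ z + ∑' n, hs n z) θ)) := by
      unfold Er
      exact ((hlim _).add (hlim _)).sub (hF.tendsto.comp (hlim θ))
    have hE0 : Filter.Tendsto (fun n => Er (Fn c ν Φ) Ω (Xs n) θ) Filter.atTop (nhds 0) := by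
      have h7 : Filter.Tendsto (fun n : ℕ => ν * (ε * ((1 / 2 : ℝ) ^ n) ^ 24)) Filter.atTop
          (nhds 0) := by
        have h8 : Filter.Tendsto (fun n : ℕ => (1 / 2 : ℝ) ^ n) Filter.atTop (nhds 0) :=
          tendsto_pow_atTop_nhds_zero_of_lt_one (by norm_num) (by norm_num)
        have h9 := ((h8.pow 24).const_mul ε).const_mul ν
        simpa using h9
      refine squeeze_zero_norm (fun n => ?_) h7
      rw [Real.norm_eq_abs]
      exact A_abs (by positivity) (hXsP n).2.2.2 θ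
    exact tendsto_nhds_unique hE hE0

end Pool.Agent.LibKam44
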