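import Pool.Agent.LibKam44.K02
import Pool.Agent.LibKam44.K03
import Pool.Agent.LibKam44.K04
set_option autoImplicit false
namespace Pool.Agent.LibKam44
/-
ROW K16 (the first approximation). PLAN: β = γ/(8 (cos 3Ω - c)), |β| ≤ γ/(8 d₁),
X₀ θ = r cos θ + ν β r^3 cos 3θ. cos(θ+Ω)+cos(θ-Ω) = 2 cos θ cos Ω, same with 3;
cos^3 θ = (3 cos θ + cos 3θ)/4. With q θ = β r^3 cos 3θ
Er X₀ = (2 cos Ω - 2 c - (3/4) ν γ r^2) r cos θ + ν r^3 (2 β (cos 3Ω - c) - γ/4) cos 3θ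
        - ν γ (3 (r cos θ)^2 ν q + 3 r cos θ (ν q)^2 + (ν q)^3) - ν Ψ(X₀),
the first two terms vanish. Norms with ρ = 1/2: ‖cos‖ ≤ exp(1/2) ≤ 2, ‖cos 3θ‖ ≤ exp(3/2) ≤ 5; and
‖X₀‖ ≤ 2 + C ν ≤ 3, so NL.val gives ‖Ψ(X₀)‖ ≤ τ. deriv X₀ = - r sin θ - 3 ν β r^3 sin 3θ.
C = (5 γ/(8 d₁)) * 3 + γ * (12 q' + 6 q'^2 + q'^3) with q' = 5γ/(8 d₁), for instance.
-/
private theorem K16_e1 : Real.exp (1 / 2 * ((1 : ℕ) : ℝ)) ≤ 2 := by
  have h1 : Real.exp (1 / 2 * ((1 : ℕ) : ℝ)) ^ 2 = Real.exp 1 := by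
    rw [← Real.exp_nat_mul]; congr 1; norm_num
  have h2 := Real.exp_one_lt_d9
  have h3 := Real.exp_pos (1 / 2 * ((1 : ℕ) : ℝ))
  nlinarith

private theorem K16_e3 : Real.exp (1 / 2 * ((3 : ℕ) : ℝ)) ≤ 5 := by
  have h1 : Real.exp (1 / 2 * ((3 : ℕ) : ℝ)) ^ 2 = Real.exp 1 ^ 3 := by
    rw [← Real.exp_nat_mul, ← Real.exp_nat_mul]; congr 1; norm_num
  have h2 := Real.exp_one_lt_d9
  have h4 := Real.exp_pos (1 : ℝ)
  have h3 := Real.exp_pos (1 / 2 * ((3 : ℕ) : ℝ))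
  have h5 : Real.exp 1 ^ 3 ≤ 25 := by
    calc Real.exp 1 ^ 3 ≤ (2.8 : ℝ) ^ 3 := by
          apply pow_le_pow_left₀ h4.le; linarith
      _ ≤ 25 := by norm_num
  nlinarith

theorem initial {γ d₁ : ℝ} (hγ : 0 < γ) (hd : 0 < d₁) :
    ∃ C : ℝ, 0 < C ∧ ∀ (c ν τ Ω r : ℝ) (Ψ Ψ1 : ℝ → ℝ), 0 < ν → ν ≤ 1 → C * ν ≤ 1 →
      1 / 2 ≤ r → r ≤ 1 → d₁ ≤ |Real.cos (3 * Ω) - c| →
      2 * Real.cos Ω - 2 * c = 3 / 4 * ν * γ * r ^ 2 → NL Ψ Ψ1 τ →
      ∃ X₀ : ℝ → ℝ, Differentiable ℝ X₀ ∧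
        A (1 / 2) (C * ν) (fun θ => X₀ θ - r * Real.cos θ) ∧
        A (1 / 2) (C * ν) (fun θ => deriv X₀ θ + r * Real.sin θ) ∧
        A (1 / 2) (ν * (C * ν + τ)) (Er (Fn c ν (fun z => γ * z ^ 3 + Ψ z)) Ω X₀) := by
  obtain ⟨q', hq'⟩ : ∃ q' : ℝ, q' = 5 * γ / (8 * d₁) := ⟨_, rfl⟩
  have hq0 : 0 < q' := by rw [hq']; positivity
  refine ⟨3 * q' + γ * (12 * q' + 6 * q' ^ 2 + q' ^ 3), by positivity, ?_⟩
  intro c ν τ Ω r Ψ Ψ1 hν hν1 hC hr hr1 hd1 hΩ hΨ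
  have h05 : (0 : ℝ) ≤ 1 / 2 := by norm_num
  have hD : Real.cos (3 * Ω) - c ≠ 0 := by
    intro h0; rw [h0, abs_zero] at hd1; linarith
  obtain ⟨β, hβ⟩ : ∃ β : ℝ, β = γ / (8 * (Real.cos (3 * Ω) - c)) := ⟨_, rfl⟩
  have hβa : |β| ≤ γ / (8 * d₁) := by
    rw [hβ, abs_div, abs_of_pos hγ, abs_mul, abs_of_pos (by norm_num : (0 : ℝ) < 8)]
    apply div_le_div_of_nonneg_left hγ.le (by positivity)
    linarith
  have hβe : 2 * β * (Real.cos (3 * Ω) - c) = γ / 4 := by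
    rw [hβ]; field_simp; ring
  have hr3 : |r ^ 3| ≤ 1 := by
    rw [abs_of_nonneg (by positivity)]
    exact pow_le_one₀ (by linarith) hr1
  have hbr : |β * r ^ 3| ≤ γ / (8 * d₁) := by
    rw [abs_mul]
    calc |β| * |r ^ 3| ≤ γ / (8 * d₁) * 1 := mul_le_mul hβa hr3 (abs_nonneg _) (by positivity)
      _ = _ := mul_one _
  have hp : A (1 / 2) 2 (fun θ => r * Real.cos θ) := by
    have h := A_smul r (A_cos (1 / 2) 1)
    have e : (fun θ : ℝ => r * Real.cos (((1 : ℕ) : ℝ) * θ)) = fun θ => r * Real.cos θ := by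
      funext θ; simp
    rw [e] at h
    refine A_mono le_rfl ?_ h
    have hra : |r| ≤ 1 := by rw [abs_of_nonneg (by linarith)]; exact hr1
    calc |r| * Real.exp (1 / 2 * ((1 : ℕ) : ℝ)) ≤ 1 * 2 :=
          mul_le_mul hra K16_e1 (Real.exp_pos _).le zero_le_one
      _ = 2 := by norm_num
  have hcast3 : ∀ θ : ℝ, ((3 : ℕ) : ℝ) * θ = 3 * θ := fun θ => by norm_num
  have hq : A (1 / 2) q' (fun θ => β * r ^ 3 * Real.cos (3 * θ)) := by
    have h := A_smul (β * r ^ 3) (A_cos (1 / 2) 3)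
    simp only [hcast3] at h
    refine A_mono le_rfl ?_ h
    calc |β * r ^ 3| * Real.exp (1 / 2 * ((3 : ℕ) : ℝ)) ≤ γ / (8 * d₁) * 5 :=
          mul_le_mul hbr K16_e3 (Real.exp_pos _).le (by positivity)
      _ = q' := by rw [hq']; ring
  have hνa : |ν| = ν := abs_of_pos hν
  have hνq : A (1 / 2) (ν * q') (fun θ => ν * (β * r ^ 3 * Real.cos (3 * θ))) := by
    have h := A_smul ν hq
    rwa [hνa] at h
  have hCq : ν * q' ≤ (3 * q' + γ * (12 * q' + 6 * q' ^ 2 + q' ^ 3)) * ν := by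
    have h1 : 0 ≤ γ * (12 * q' + 6 * q' ^ 2 + q' ^ 3) := by positivity
    nlinarith [mul_nonneg h1 hν.le, mul_pos hq0 hν]
  have hX : A (1 / 2) 3 (fun θ => r * Real.cos θ + ν * (β * r ^ 3 * Real.cos (3 * θ))) :=
    A_mono le_rfl (by linarith) (A_add h05 hp hνq)
  have hder : ∀ θ : ℝ, HasDerivAt (fun θ => r * Real.cos θ + ν * (β * r ^ 3 * Real.cos (3 * θ)))
      (-(r * Real.sin θ) + ν * (β * r ^ 3 * (-(Real.sin (3 * θ) * 3)))) θ := by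
    intro θ
    have h1 := (Real.hasDerivAt_cos θ).const_mul r
    have h2 : HasDerivAt (fun θ : ℝ => 3 * θ) 3 θ := by
      simpa using (hasDerivAt_id θ).const_mul (3 : ℝ)
    have h3 := ((h2.cos).const_mul (β * r ^ 3)).const_mul ν
    refine (h1.add h3).congr_deriv ?_
    ring
  refine ⟨fun θ => r * Real.cos θ + ν * (β * r ^ 3 * Real.cos (3 * θ)),
    fun θ => (hder θ).differentiableAt, ?_, ?_, ?_⟩
  · refine A_mono le_rfl hCq ?_
    have e : (fun θ : ℝ => (r * Real.cos θ + ν * (β * r ^ 3 * Real.cos (3 * θ))) -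
        r * Real.cos θ) = fun θ => ν * (β * r ^ 3 * Real.cos (3 * θ)) := by
      funext θ; ring
    rw [e]; exact hνq
  · have h := A_smul (-(3 * (ν * (β * r ^ 3)))) (A_sin (1 / 2) 3)
    simp only [hcast3] at h
    have e : (fun θ : ℝ => deriv (fun θ => r * Real.cos θ +
        ν * (β * r ^ 3 * Real.cos (3 * θ))) θ + r * Real.sin θ) =
        fun θ => -(3 * (ν * (β * r ^ 3))) * Real.sin (3 * θ) := by
      funext θ; rw [(hder θ).deriv]; ring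
    rw [e]
    refine A_mono le_rfl ?_ h
    rw [abs_neg, abs_mul, abs_mul, hνa, abs_of_pos (by norm_num : (0 : ℝ) < 3)]
    calc 3 * (ν * |β * r ^ 3|) * Real.exp (1 / 2 * ((3 : ℕ) : ℝ))
        ≤ 3 * (ν * (γ / (8 * d₁))) * 5 := by
          refine mul_le_mul ?_ K16_e3 (Real.exp_pos _).le (by positivity)
          have := mul_le_mul_of_nonneg_left hbr hν.le
          linarith
      _ = 3 * q' * ν := by rw [hq']; ring
      _ ≤ _ := by
          have h1 : 0 ≤ γ * (12 * q' + 6 * q' ^ 2 + q' ^ 3) := by positivity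
          nlinarith [mul_nonneg h1 hν.le]
  · have hΨX := hΨ.val (1 / 2) _ h05 hX
    have t1 := A_mul h05 (A_pow h05 hp 2) hνq
    have t2 := A_mul h05 hp (A_pow h05 hνq 2)
    have t3 := A_pow h05 hνq 3
    have s1 := A_smul (3 : ℝ) t1
    have s2 := A_smul (3 : ℝ) t2
    have s12 := A_add h05 (A_add h05 s1 s2) t3
    have s4 := A_smul γ s12
    have s5 := A_add h05 s4 hΨX
    have s6 := A_smul (-ν) s5
    have e : Er (Fn c ν (fun z => γ * z ^ 3 + Ψ z)) Ω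
        (fun θ => r * Real.cos θ + ν * (β * r ^ 3 * Real.cos (3 * θ))) =
        fun θ => -ν * (γ * (3 * ((r * Real.cos θ) ^ 2 * (ν * (β * r ^ 3 * Real.cos (3 * θ)))) +
          3 * ((r * Real.cos θ) * (ν * (β * r ^ 3 * Real.cos (3 * θ))) ^ 2) +
          (ν * (β * r ^ 3 * Real.cos (3 * θ))) ^ 3) +
          Ψ (r * Real.cos θ + ν * (β * r ^ 3 * Real.cos (3 * θ)))) := by
      funext θ
      simp only [Er, Fn]
      have c1 : Real.cos (θ + Ω) + Real.cos (θ - Ω) = 2 * Real.cos θ * Real.cos Ω := by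
        rw [Real.cos_add, Real.cos_sub]; ring
      have c3 : Real.cos (3 * (θ + Ω)) + Real.cos (3 * (θ - Ω)) =
          2 * Real.cos (3 * θ) * Real.cos (3 * Ω) := by
        rw [mul_add, mul_sub, Real.cos_add, Real.cos_sub]; ring
      have c4 : Real.cos (3 * θ) = 4 * Real.cos θ ^ 3 - 3 * Real.cos θ := Real.cos_three_mul θ
      have hΩ' : 2 * Real.cos Ω = 2 * c + 3 / 4 * ν * γ * r ^ 2 := by linarith
      have c4' : Real.cos θ ^ 3 = (3 * Real.cos θ + Real.cos (3 * θ)) / 4 := by rw [c4]; ring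
      linear_combination r * c1 + ν * β * r ^ 3 * c3 + r * Real.cos θ * hΩ' +
        ν * r ^ 3 * Real.cos (3 * θ) * hβe - ν * γ * r ^ 3 * c4'
    rw [e]
    refine A_mono le_rfl ?_ s6
    rw [abs_neg, hνa, abs_of_pos hγ, abs_of_pos (by norm_num : (0 : ℝ) < 3)]
    apply mul_le_mul_of_nonneg_left _ hν.le
    have hν2 : ν ^ 2 ≤ ν := by nlinarith
    have hν3 : ν ^ 3 ≤ ν := by nlinarith [sq_nonneg ν]
    have b2 : (ν * q') ^ 2 ≤ ν * q' ^ 2 := by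
      rw [mul_pow]; exact mul_le_mul_of_nonneg_right hν2 (sq_nonneg _)
    have b3 : (ν * q') ^ 3 ≤ ν * q' ^ 3 := by
      rw [mul_pow]; exact mul_le_mul_of_nonneg_right hν3 (by positivity)
    have b4 : 3 * (2 ^ 2 * (ν * q')) + 3 * (2 * (ν * q') ^ 2) + (ν * q') ^ 3 ≤
        ν * (12 * q' + 6 * q' ^ 2 + q' ^ 3) := by nlinarith
    have b5 := mul_le_mul_of_nonneg_left b4 hγ.le
    have b6 : 0 ≤ 3 * q' * ν := by positivity
    nlinarith

end Pool.Agent.LibKam44
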