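import Pool.Agent.LibKam44.K02
import Pool.Agent.LibKam44.K03
import Pool.Agent.LibKam44.K04
import Pool.Agent.LibKam44.K07
set_option autoImplicit false
namespace Pool.Agent.LibKam44
private theorem K17_pow {x y η : ℝ} (hx : |x| ≤ 1001 / 1000) (hy : |y| ≤ 1) (h : |x - y| ≤ η) :
    y ^ 4 - 5 * η ≤ x ^ 4 := by
  have h0 : 0 ≤ η := (abs_nonneg _).trans h
  have e : x ^ 4 - y ^ 4 = (x - y) * (x ^ 3 + x ^ 2 * y + x * y ^ 2 + y ^ 3) := by ring
  have h1 : |x ^ 3 + x ^ 2 * y + x * y ^ 2 + y ^ 3| ≤ 5 := by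
    have hx0 := abs_nonneg x
    have hy0 := abs_nonneg y
    calc |x ^ 3 + x ^ 2 * y + x * y ^ 2 + y ^ 3|
        ≤ |x ^ 3| + |x ^ 2 * y| + |x * y ^ 2| + |y ^ 3| := by
          refine (abs_add_le _ _).trans (add_le_add ((abs_add_le _ _).trans
            (add_le_add (abs_add_le _ _) le_rfl)) le_rfl)
      _ = |x| ^ 3 + |x| ^ 2 * |y| + |x| * |y| ^ 2 + |y| ^ 3 := by
          rw [abs_pow, abs_mul, abs_pow, abs_mul, abs_pow, abs_pow]
      _ ≤ (1001 / 1000) ^ 3 + (1001 / 1000) ^ 2 * 1 + (1001 / 1000) * 1 ^ 2 + 1 ^ 3 := by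
          gcongr
      _ ≤ 5 := by norm_num
  have h2 : |x ^ 4 - y ^ 4| ≤ η * 5 := by
    rw [e, abs_mul]
    exact mul_le_mul h h1 (abs_nonneg _) h0
  have h3 := (abs_le.1 h2).1
  linarith

private theorem K17_W {r η Ω : ℝ} {X w : ℝ → ℝ} (hr0 : 0 ≤ r) (hr1 : r ≤ 1) (hη : η ≤ 1 / 1000)
    (h1 : ∀ θ, |X θ - r * Real.cos θ| ≤ η) (h2 : ∀ θ, |w θ + r * Real.sin θ| ≤ η) (θ : ℝ) :
    |Wr Ω X w θ + r ^ 2 * Real.sin Ω| ≤ 41 / 10 * η := by
  have h0 : 0 ≤ η := (abs_nonneg _).trans (h1 θ)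
  set a := X θ - r * Real.cos θ with ha
  set b := w θ + r * Real.sin θ with hb
  set a' := X (θ - Ω) - r * Real.cos (θ - Ω) with ha'
  set b' := w (θ - Ω) + r * Real.sin (θ - Ω) with hb'
  have hs : Real.sin Ω = Real.sin θ * Real.cos (θ - Ω) - Real.cos θ * Real.sin (θ - Ω) := by
    rw [← Real.sin_sub]
    congr 1
    ring
  have e : Wr Ω X w θ + r ^ 2 * Real.sin Ω = b * a' - b' * a +
      r * (Real.cos (θ - Ω) * b - Real.sin θ * a' + Real.sin (θ - Ω) * a - Real.cos θ * b') := by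
    rw [hs]
    unfold Wr
    rw [ha, hb, ha', hb']
    ring
  have c1 : |b * a'| ≤ η * η := by
    rw [abs_mul]
    exact mul_le_mul (h2 θ) (h1 _) (abs_nonneg _) h0
  have c2 : |b' * a| ≤ η * η := by
    rw [abs_mul]
    exact mul_le_mul (h2 _) (h1 θ) (abs_nonneg _) h0
  have c : ∀ x y : ℝ, |x| ≤ 1 → |y| ≤ η → |x * y| ≤ η := by
    intro x y hx hy
    rw [abs_mul]
    calc |x| * |y| ≤ 1 * η := mul_le_mul hx hy (abs_nonneg _) zero_le_one
      _ = η := one_mul _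
  have d1 := c _ _ (Real.abs_cos_le_one (θ - Ω)) (h2 θ)
  have d2 := c _ _ (Real.abs_sin_le_one θ) (h1 (θ - Ω))
  have d3 := c _ _ (Real.abs_sin_le_one (θ - Ω)) (h1 θ)
  have d4 := c _ _ (Real.abs_cos_le_one θ) (h2 (θ - Ω))
  rw [abs_le] at c1 c2 d1 d2 d3 d4
  have d5 : |r * (Real.cos (θ - Ω) * b - Real.sin θ * a' + Real.sin (θ - Ω) * a - Real.cos θ * b')| ≤
      4 * η := by
    rw [abs_mul, abs_of_nonneg hr0]
    have d6 : |Real.cos (θ - Ω) * b - Real.sin θ * a' + Real.sin (θ - Ω) * a - Real.cos θ * b'| ≤ 4 * η := by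
      rw [abs_le]
      constructor <;> linarith [c1.1, d1.1, d1.2, d2.1, d2.2, d3.1, d3.2, d4.1, d4.2]
    calc r * |Real.cos (θ - Ω) * b - Real.sin θ * a' + Real.sin (θ - Ω) * a - Real.cos θ * b'|
        ≤ 1 * (4 * η) := mul_le_mul hr1 d6 (abs_nonneg _) zero_le_one
      _ = 4 * η := one_mul _
  rw [abs_le] at d5
  have hηη : η * η ≤ η * (1 / 1000) := mul_le_mul_of_nonneg_left hη h0
  rw [e, abs_le]
  constructor <;> linarith [c1.1, c1.2, c2.1, c2.2, d5.1, d5.2]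

private theorem K17_P {t δ δ' σ : ℝ} (hσ : 0 < σ) (hσ1 : σ ≤ 1) (ht : σ / 4 ≤ |t|) (ht1 : |t| ≤ 1)
    (h : |δ + t| ≤ 41 / 10000 * σ) (h' : |δ' + t| ≤ 41 / 10000 * σ) :
    σ ^ 2 / 25 ≤ δ * δ' ∧ δ * δ' ≤ 103 / 100 := by
  rw [abs_le] at h h'
  rcases le_or_gt 0 t with h0 | h0
  · rw [abs_of_nonneg h0] at ht ht1
    have e1 : σ / 5 ≤ -δ := by linarith [h.2]
    have e2 : σ / 5 ≤ -δ' := by linarith [h'.2]
    have e3 : -δ ≤ 101 / 100 := by linarith [h.1]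
    have e4 : -δ' ≤ 101 / 100 := by linarith [h'.1]
    have e5 : δ * δ' = (-δ) * (-δ') := by ring
    rw [e5]
    constructor
    · calc σ ^ 2 / 25 = (σ / 5) * (σ / 5) := by ring
        _ ≤ (-δ) * (-δ') := mul_le_mul e1 e2 (by positivity) (by linarith)
    · calc (-δ) * (-δ') ≤ (101 / 100) * (101 / 100) := mul_le_mul e3 e4 (by linarith) (by norm_num)
        _ ≤ 103 / 100 := by norm_num
  · rw [abs_of_neg h0] at ht ht1
    have e1 : σ / 5 ≤ δ := by linarith [h.1]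
    have e2 : σ / 5 ≤ δ' := by linarith [h'.1]
    have e3 : δ ≤ 101 / 100 := by linarith [h.2]
    have e4 : δ' ≤ 101 / 100 := by linarith [h'.2]
    constructor
    · calc σ ^ 2 / 25 = (σ / 5) * (σ / 5) := by ring
        _ ≤ δ * δ' := mul_le_mul e1 e2 (by positivity) (by linarith)
    · calc δ * δ' ≤ (101 / 100) * (101 / 100) := mul_le_mul e3 e4 (by linarith) (by norm_num)
        _ ≤ 103 / 100 := by norm_num

private theorem K17_cos : avg (fun θ => Real.cos θ ^ 2) = 1 / 2 := by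
  unfold avg
  rw [integral_cos_sq]
  rw [Real.sin_two_pi, Real.sin_zero]
  have := Real.pi_pos
  field_simp
  ring

/-
ROW K17 (the torsion is bounded below). PLAN (pointwise): |X - r cos| ≤ η, |X' + r sin| ≤ η by A_abs,
η ≤ σ/1000 ≤ 1/1000. W + r^2 sin Ω = O(4.1 η), so W has the sign of - sin Ω, σ/5 ≤ |W| ≤ 1.01 and
σ^2/25 ≤ W W₊ ≤ 1.03. The numerator is ν (2 γ X^4 + X^2 Ψ1(X) - X Ψ(X)) - X E, |Ψ|, |Ψ1| ≤ τ at
|z| ≤ 3 (NL.val with ρ = 0 and the constant function z, A_const, A_mono, A_abs), |E| ≤ ν e. Hence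
S ≥ ν (2 γ X^4/1.03 - (2.1 τ + 1.01 e) 25/σ^2), X^4 ≥ (r cos θ)^4 - 5 η ≥ (1/16)(cos^2 θ - 1/4) - 5 η
(because (cos^2 - 1/2)^2 ≥ 0), the mean of cos^2 is 1/2 (integral_cos_sq), so
avg S ≥ ν (2 γ (1/64 - 5/1000)/1.03 - γ 10^(-4)) ≥ γ ν/256. avg_mono needs the continuity of S:
A_cont for X and X', W ≠ 0.
-/
theorem torsion {γ σ : ℝ} (hγ : 0 < γ) (hσ : 0 < σ) (c ν τ e Ω r η ρ : ℝ) (Ψ Ψ1 X : ℝ → ℝ)
    (hν : 0 < ν) (hr : 1 / 2 ≤ r) (hr1 : r ≤ 1) (hΩ : σ ≤ |Real.sin Ω|) (hη : η ≤ σ / 1000)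
    (hΨ : NL Ψ Ψ1 τ) (hτ : τ ≤ γ * σ ^ 2 / 10 ^ 6) (he : e ≤ γ * σ ^ 2 / 10 ^ 6) (hρ : 0 ≤ ρ)
    (hX : Differentiable ℝ X) (h1 : A ρ η (fun θ => X θ - r * Real.cos θ))
    (h2 : A ρ η (fun θ => deriv X θ + r * Real.sin θ))
    (h3 : A ρ (ν * e) (Er (Fn c ν (fun z => γ * z ^ 3 + Ψ z)) Ω X)) :
    γ / 256 * ν ≤ |avg (Sr (Fn c ν (fun z => γ * z ^ 3 + Ψ z))
      (Fd c ν (fun z => 3 * γ * z ^ 2 + Ψ1 z)) Ω X (deriv X))| := by
  have hη0 : 0 ≤ η := A_nonneg h1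
  have hs1 : |Real.sin Ω| ≤ 1 := Real.abs_sin_le_one Ω
  have hσ1 : σ ≤ 1 := hΩ.trans hs1
  have hη1 : η ≤ 1 / 1000 := by linarith
  have hr0 : 0 ≤ r := by linarith
  have p1 : ∀ θ, |X θ - r * Real.cos θ| ≤ η := A_abs hρ h1
  have p2 : ∀ θ, |deriv X θ + r * Real.sin θ| ≤ η := A_abs hρ h2
  have p3 : ∀ θ, |Er (Fn c ν (fun z => γ * z ^ 3 + Ψ z)) Ω X θ| ≤ ν * e := A_abs hρ h3
  have hτ0 : 0 ≤ τ := hΨ.nonneg
  have he0 : 0 ≤ e := by
    have h := A_nonneg h3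
    by_contra hcon
    push Not at hcon
    nlinarith
  -- `X` is in the class
  have hXA : A 0 3 X := by
    have a1 := A_add (le_refl (0 : ℝ)) (A_mono hρ (le_refl η) h1) (A_smul r (A_cos 0 1))
    have a2 : (fun θ => (X θ - r * Real.cos θ) + r * Real.cos (((1 : ℕ) : ℝ) * θ)) = X := by
      funext θ
      rw [Nat.cast_one, one_mul]
      ring
    rw [a2] at a1
    refine A_mono le_rfl ?_ a1
    rw [zero_mul, Real.exp_zero, mul_one, abs_of_nonneg hr0]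
    linarith
  have hΨA := hΨ.val 0 X le_rfl hXA
  have hΨ1A := hΨ.val1 0 X le_rfl hXA
  have q1 : ∀ θ, |Ψ (X θ)| ≤ τ := A_abs le_rfl hΨA
  have q2 : ∀ θ, |Ψ1 (X θ)| ≤ τ := A_abs le_rfl hΨ1A
  -- continuity
  have cX : Continuous X := hX.continuous
  have cw : Continuous (deriv X) := by
    have c1 : Continuous (fun θ => (deriv X θ + r * Real.sin θ) - r * Real.sin θ) :=
      (A_cont hρ h2).sub (continuous_const.mul Real.continuous_sin)
    have c2 : (fun θ => (deriv X θ + r * Real.sin θ) - r * Real.sin θ) = deriv X := by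
      funext θ
      ring
    rw [c2] at c1
    exact c1
  have cΨ : Continuous (fun θ => Ψ (X θ)) := A_cont le_rfl hΨA
  have cΨ1 : Continuous (fun θ => Ψ1 (X θ)) := A_cont le_rfl hΨ1A
  have cE := A_cont hρ h3
  -- the determinant
  have hW : ∀ θ, |Wr Ω X (deriv X) θ + r ^ 2 * Real.sin Ω| ≤ 41 / 10000 * σ := by
    intro θ
    refine (K17_W hr0 hr1 hη1 p1 p2 θ).trans ?_
    linarith
  have hr2 : 1 / 4 ≤ r ^ 2 := by nlinarith
  have hr2' : r ^ 2 ≤ 1 := by nlinarith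
  have ht : σ / 4 ≤ |r ^ 2 * Real.sin Ω| := by
    rw [abs_mul, abs_of_nonneg (sq_nonneg r)]
    nlinarith
  have ht1 : |r ^ 2 * Real.sin Ω| ≤ 1 := by
    rw [abs_mul, abs_of_nonneg (sq_nonneg r)]
    nlinarith [abs_nonneg (Real.sin Ω)]
  have hP : ∀ θ, σ ^ 2 / 25 ≤ Wr Ω X (deriv X) θ * Wr Ω X (deriv X) (θ + Ω) ∧
      Wr Ω X (deriv X) θ * Wr Ω X (deriv X) (θ + Ω) ≤ 103 / 100 := fun θ =>
    K17_P hσ hσ1 ht ht1 (hW θ) (hW (θ + Ω))
  have hP0 : ∀ θ, 0 < Wr Ω X (deriv X) θ * Wr Ω X (deriv X) (θ + Ω) := fun θ =>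
    lt_of_lt_of_le (by positivity) (hP θ).1
  have cW : Continuous (Wr Ω X (deriv X)) := by
    unfold Wr
    exact (cw.mul (cX.comp (continuous_id.sub continuous_const))).sub
      ((cw.comp (continuous_id.sub continuous_const)).mul cX)
  have cS : Continuous (Sr (Fn c ν (fun z => γ * z ^ 3 + Ψ z))
      (Fd c ν (fun z => 3 * γ * z ^ 2 + Ψ1 z)) Ω X (deriv X)) := by
    unfold Sr
    refine Continuous.div ?_ (cW.mul (cW.comp (continuous_id.add continuous_const)))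
      (fun θ => (hP0 θ).ne')
    refine cX.mul (((cX.mul ?_).sub ?_).sub cE)
    · unfold Fd
      exact continuous_const.add (continuous_const.mul
        ((continuous_const.mul (cX.pow 2)).add cΨ1))
    · unfold Fn
      exact (continuous_const.mul cX).add (continuous_const.mul
        ((continuous_const.mul (cX.pow 3)).add cΨ))
  -- the lower bound
  set α : ℝ := ν * (2 * γ) * (100 / 103) * (1 / 16) with hα
  set β : ℝ := ν * (2 * γ) * (100 / 103) * (-(1 / 64) - 5 * η) - ν * (γ / 10000) with hβ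
  have key : ∀ θ, α * Real.cos θ ^ 2 + β ≤ Sr (Fn c ν (fun z => γ * z ^ 3 + Ψ z))
      (Fd c ν (fun z => 3 * γ * z ^ 2 + Ψ1 z)) Ω X (deriv X) θ := by
    intro θ
    have hc1 := Real.abs_cos_le_one θ
    have hy : |r * Real.cos θ| ≤ 1 := by
      rw [abs_mul, abs_of_nonneg hr0]
      nlinarith [abs_nonneg (Real.cos θ)]
    have hx : |X θ| ≤ 1001 / 1000 := by
      have h4 := p1 θ
      rw [abs_le] at h4 hy ⊢
      constructor <;> linarith [h4.1, h4.2, hy.1, hy.2]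
    have hX4 := K17_pow hx hy (p1 θ)
    have hr4 : 1 / 16 ≤ r ^ 4 := by nlinarith
    have hc4 : Real.cos θ ^ 2 - 1 / 4 ≤ Real.cos θ ^ 4 := by nlinarith [sq_nonneg (Real.cos θ ^ 2 - 1 / 2)]
    have hy4 : 1 / 16 * (Real.cos θ ^ 2 - 1 / 4) ≤ (r * Real.cos θ) ^ 4 := by
      have h5 : 0 ≤ Real.cos θ ^ 4 := by positivity
      rw [mul_pow]
      nlinarith
    set P := Wr Ω X (deriv X) θ * Wr Ω X (deriv X) (θ + Ω) with hPdef
    obtain ⟨hPl, hPu⟩ := hP θ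
    have hPp := hP0 θ
    rw [← hPdef] at hPl hPu hPp
    set M := ν * (2 * γ * X θ ^ 4) with hM
    have hM0 : 0 ≤ M := by positivity
    set q := 21 / 10 * τ + 101 / 100 * e with hq
    have hN : M - ν * q ≤ X θ * (X θ * Fd c ν (fun z => 3 * γ * z ^ 2 + Ψ1 z) (X θ) -
        Fn c ν (fun z => γ * z ^ 3 + Ψ z) (X θ) -
        Er (Fn c ν (fun z => γ * z ^ 3 + Ψ z)) Ω X θ) := by
      have e1 : X θ * (X θ * Fd c ν (fun z => 3 * γ * z ^ 2 + Ψ1 z) (X θ) -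
        Fn c ν (fun z => γ * z ^ 3 + Ψ z) (X θ) -
        Er (Fn c ν (fun z => γ * z ^ 3 + Ψ z)) Ω X θ) =
        M + ν * (X θ ^ 2 * Ψ1 (X θ) - X θ * Ψ (X θ)) -
          X θ * Er (Fn c ν (fun z => γ * z ^ 3 + Ψ z)) Ω X θ := by
        unfold Fd Fn
        rw [hM]
        ring
      have f1 : |X θ ^ 2 * Ψ1 (X θ)| ≤ (1001 / 1000) ^ 2 * τ := by
        rw [abs_mul, abs_pow]
        have := q2 θ
        gcongr
      have f2 : |X θ * Ψ (X θ)| ≤ (1001 / 1000) * τ := by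
        rw [abs_mul]
        have := q1 θ
        gcongr
      have f3 : |X θ * Er (Fn c ν (fun z => γ * z ^ 3 + Ψ z)) Ω X θ| ≤ (1001 / 1000) * (ν * e) := by
        rw [abs_mul]
        have := p3 θ
        gcongr
      rw [abs_le] at f1 f2 f3
      have f4 : -(21 / 10 * τ) ≤ X θ ^ 2 * Ψ1 (X θ) - X θ * Ψ (X θ) := by
        nlinarith [f1.1, f2.2]
      have f5 := mul_le_mul_of_nonneg_left f4 hν.le
      have f6 : 0 ≤ ν * e := mul_nonneg hν.le he0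
      rw [e1, hq]
      nlinarith [f3.2]
    have a1 : M * (100 / 103) ≤ M / P := by
      rw [le_div_iff₀ hPp]
      calc M * (100 / 103) * P ≤ M * (100 / 103) * (103 / 100) :=
            mul_le_mul_of_nonneg_left hPu (by positivity)
        _ = M := by ring
    have a2 : ν * q / P ≤ ν * (γ / 10000) := by
      rw [div_le_iff₀ hPp]
      have b1 : q ≤ γ / 10000 * (σ ^ 2 / 25) := by
        rw [hq]
        have b2 : 0 ≤ γ * σ ^ 2 := by positivity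
        nlinarith
      calc ν * q ≤ ν * (γ / 10000 * (σ ^ 2 / 25)) := mul_le_mul_of_nonneg_left b1 hν.le
        _ ≤ ν * (γ / 10000 * P) := by gcongr
        _ = ν * (γ / 10000) * P := by ring
    have a3 : (M - ν * q) / P ≤ Sr (Fn c ν (fun z => γ * z ^ 3 + Ψ z))
        (Fd c ν (fun z => 3 * γ * z ^ 2 + Ψ1 z)) Ω X (deriv X) θ := by
      unfold Sr
      rw [← hPdef]
      exact div_le_div_of_nonneg_right hN hPp.le
    rw [sub_div] at a3
    have a4 : α * Real.cos θ ^ 2 + β ≤ M * (100 / 103) - ν * (γ / 10000) := by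
      have b3 : 1 / 16 * (Real.cos θ ^ 2 - 1 / 4) - 5 * η ≤ X θ ^ 4 := by linarith
      have b4 : 0 ≤ ν * (2 * γ) * (100 / 103) := by positivity
      have b5 := mul_le_mul_of_nonneg_left b3 b4
      rw [hα, hβ, hM]
      linarith
    linarith
  have h4 := avg_mono (u := fun θ => α * Real.cos θ ^ 2 + β)
    ((continuous_const.mul (Real.continuous_cos.pow 2)).add continuous_const) cS key
  have h5 : avg (fun θ => α * Real.cos θ ^ 2 + β) = α / 2 + β := by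
    have h6 := avg_add (u := fun θ => α * Real.cos θ ^ 2) (v := fun _ => β)
      (continuous_const.mul (Real.continuous_cos.pow 2)) continuous_const
    have h7 := avg_smul (u := fun θ => Real.cos θ ^ 2) α
    rw [h6, h7, K17_cos, avg_const]
    ring
  rw [h5] at h4
  refine le_trans ?_ (h4.trans (le_abs_self _))
  have h6 : 0 < ν * γ := mul_pos hν hγ
  have h7 : ν * γ * η ≤ ν * γ * (1 / 1000) := mul_le_mul_of_nonneg_left hη1 h6.le
  rw [hα, hβ]
  nlinarith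

end Pool.Agent.LibKam44
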