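import Pool.Agent.LibKam44.Defs
set_option autoImplicit false
namespace Pool.Agent.LibKam44
/-
ROW K18 (measure of the frequencies). PLAN: for k ≥ 1 the bad set is
B_k = {Ω ∈ [p,p+ℓ] : |exp(k Ω I) - 1| < κ/k^2}. |exp(x I) - 1| = 2 |sin (x/2)| ≥ (2/π) dist(x, 2πℤ)
(take m = round(x/(2π)), Real.mul_le_sin type inequality), so Ω ∈ B_k gives m ∈ ℤ with
|Ω - 2π m/k| ≤ 2 κ/k^3 (π/2 ≤ 2). These m lie in an interval of length k (ℓ + 4κ/k^3)/(2π) ≤ k/3,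
so there are at most 2 k of them (finite set of integers Icc ⌈..⌉ ⌊..⌋), each contributes an interval of
length 4 κ/k^3: volume B_k ≤ 8 κ/k^2, sum ≤ 8 κ * 2 = 16 κ < 100 κ ≤ ℓ (∑ 1/k^2 ≤ 2). Negative k: the norm
is the same (conjugation). volume {good} ≥ ℓ - ∑ volume B_k > 0 (measure_iUnion_le, tsum in ENNReal;
Set.Icc p (p+ℓ) ⊆ good ∪ ⋃ B_k).
-/
open MeasureTheory

private theorem K18_norm (x : ℝ) :
    ‖Complex.exp ((x : ℂ) * Complex.I) - 1‖ = 2 * |Real.sin (x / 2)| := by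
  have h := Complex.norm_exp_I_mul_ofReal_sub_one x
  rw [mul_comm] at h
  rw [h, Real.norm_eq_abs, abs_mul, abs_two]

private theorem K18_near (x : ℝ) :
    ∃ m : ℤ, |x - 2 * Real.pi * m| ≤ 2 * ‖Complex.exp ((x : ℂ) * Complex.I) - 1‖ := by
  have hpi : 0 < Real.pi := Real.pi_pos
  refine ⟨round (x / (2 * Real.pi)), ?_⟩
  set m := round (x / (2 * Real.pi)) with hm
  set y := x - 2 * Real.pi * m with hy
  have h1 : |x / (2 * Real.pi) - m| ≤ 1 / 2 := abs_sub_round _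
  have h2 : y = (2 * Real.pi) * (x / (2 * Real.pi) - m) := by
    rw [hy]
    field_simp
  have h3 : |y| ≤ Real.pi := by
    rw [h2, abs_mul, abs_of_pos (by positivity : (0 : ℝ) < 2 * Real.pi)]
    nlinarith
  have h4 : |Real.sin (x / 2)| = |Real.sin (y / 2)| := by
    have h5 : x / 2 = y / 2 + m * Real.pi := by rw [hy]; ring
    rw [h5, Real.sin_add_int_mul_pi, abs_mul, abs_zpow, abs_neg, abs_one, one_zpow, one_mul]
  have h6 : 2 / Real.pi * |y / 2| ≤ |Real.sin (y / 2)| := by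
    apply Real.mul_abs_le_abs_sin
    rw [abs_div, abs_two]
    linarith
  rw [K18_norm, h4]
  have h7 : |y / 2| = |y| / 2 := by rw [abs_div, abs_two]
  rw [h7] at h6
  have h8 : 2 / Real.pi * (|y| / 2) = |y| / Real.pi := by ring
  rw [h8, div_le_iff₀ hpi] at h6
  have h9 : Real.pi ≤ 4 := Real.pi_le_four
  nlinarith [abs_nonneg (Real.sin (y / 2))]

private def K18_bad (p ℓ κ : ℝ) (k : ℕ) : Set ℝ :=
  {Ω | Ω ∈ Set.Icc p (p + ℓ) ∧ ‖Complex.exp ((k : ℂ) * (Ω : ℂ) * Complex.I) - 1‖ * (k : ℝ) ^ 2 < κ}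

private theorem K18_vol {p ℓ κ : ℝ} (hκ : 0 < κ) (hℓ : 100 * κ ≤ ℓ) (hℓ1 : ℓ ≤ 1) {k : ℕ}
    (hk : 1 ≤ k) : volume (K18_bad p ℓ κ k) ≤ ENNReal.ofReal (8 * κ * (1 / (k : ℝ) ^ 2)) := by
  have hpi : 3 < Real.pi := Real.pi_gt_three
  have hk1 : (1 : ℝ) ≤ k := by exact_mod_cast hk
  have hk0 : (0 : ℝ) < k := by linarith
  set δ : ℝ := 2 * κ / (k : ℝ) ^ 3 with hδ
  have hδ0 : 0 < δ := by positivity
  have hδk : k * δ ≤ 1 := by
    rw [hδ]
    have : (k : ℝ) * (2 * κ / (k : ℝ) ^ 3) = 2 * κ / (k : ℝ) ^ 2 := by field_simp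
    rw [this, div_le_one (by positivity)]
    nlinarith
  set a : ℝ := k * (p - δ) / (2 * Real.pi) with ha
  set b : ℝ := k * (p + ℓ + δ) / (2 * Real.pi) with hb
  have hsub : K18_bad p ℓ κ k ⊆ ⋃ m ∈ Finset.Icc ⌈a⌉ ⌊b⌋,
      Set.Icc (2 * Real.pi * m / k - δ) (2 * Real.pi * m / k + δ) := by
    rintro Ω ⟨hΩ, hlt⟩
    obtain ⟨m, hm⟩ := K18_near (k * Ω)
    have hcast : (((k : ℝ) * Ω : ℝ) : ℂ) * Complex.I = (k : ℂ) * (Ω : ℂ) * Complex.I := by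
      push_cast
      ring
    rw [hcast] at hm
    set N := ‖Complex.exp ((k : ℂ) * (Ω : ℂ) * Complex.I) - 1‖ with hN
    have h1 : |Ω - 2 * Real.pi * m / k| ≤ δ := by
      have h2 : k * Ω - 2 * Real.pi * m = k * (Ω - 2 * Real.pi * m / k) := by field_simp
      rw [h2, abs_mul, abs_of_pos hk0] at hm
      have h3 : N * (k : ℝ) ^ 2 ≤ κ := hlt.le
      rw [hδ, le_div_iff₀ (by positivity)]
      have h4 : |Ω - 2 * Real.pi * m / k| * (k : ℝ) ^ 3 =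
        (k * |Ω - 2 * Real.pi * m / k|) * (k : ℝ) ^ 2 := by ring
      rw [h4]
      calc (k * |Ω - 2 * Real.pi * m / k|) * (k : ℝ) ^ 2 ≤ (2 * N) * (k : ℝ) ^ 2 := by
            gcongr
        _ = 2 * (N * (k : ℝ) ^ 2) := by ring
        _ ≤ 2 * κ := by linarith
    rw [abs_le] at h1
    rw [Set.mem_iUnion₂]
    refine ⟨m, ?_, ⟨by linarith, by linarith⟩⟩
    rw [Finset.mem_Icc, Int.ceil_le, Int.le_floor, ha, hb, div_le_iff₀ (by positivity),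
      le_div_iff₀ (by positivity)]
    have h5 : 2 * Real.pi * m / k * k = 2 * Real.pi * m := by field_simp
    constructor
    · have h6 : p - δ ≤ 2 * Real.pi * m / k := by linarith [hΩ.1]
      calc (k : ℝ) * (p - δ) = (p - δ) * k := by ring
        _ ≤ 2 * Real.pi * m / k * k := by gcongr
        _ = m * (2 * Real.pi) := by rw [h5]; ring
    · have h6 : 2 * Real.pi * m / k ≤ p + ℓ + δ := by linarith [hΩ.2]
      calc (m : ℝ) * (2 * Real.pi) = 2 * Real.pi * m / k * k := by rw [h5]; ring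
        _ ≤ (p + ℓ + δ) * k := by gcongr
        _ = k * (p + ℓ + δ) := by ring
  have hcard : ((Finset.Icc ⌈a⌉ ⌊b⌋).card : ℝ) ≤ 2 * k := by
    rw [Int.card_Icc]
    have h1 : ((⌊b⌋ + 1 - ⌈a⌉ : ℤ) : ℝ) ≤ 2 * k := by
      push_cast
      have h2 : (⌊b⌋ : ℝ) ≤ b := Int.floor_le b
      have h3 : a ≤ (⌈a⌉ : ℝ) := Int.le_ceil a
      have h4 : b - a ≤ k := by
        have h5 : b - a = k * (ℓ + 2 * δ) / (2 * Real.pi) := by rw [ha, hb]; ring
        rw [h5, div_le_iff₀ (by positivity)]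
        nlinarith
      linarith
    have h6 : (⌊b⌋ + 1 - ⌈a⌉ : ℤ) ≤ ((2 * k : ℕ) : ℤ) := by
      have : ((⌊b⌋ + 1 - ⌈a⌉ : ℤ) : ℝ) ≤ (((2 * k : ℕ) : ℤ) : ℝ) := by
        push_cast at h1 ⊢
        exact h1
      exact_mod_cast this
    have h7 : (⌊b⌋ + 1 - ⌈a⌉).toNat ≤ 2 * k := by omega
    exact_mod_cast h7
  calc volume (K18_bad p ℓ κ k) ≤ volume (⋃ m ∈ Finset.Icc ⌈a⌉ ⌊b⌋,
        Set.Icc (2 * Real.pi * m / k - δ) (2 * Real.pi * m / k + δ)) := measure_mono hsub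
    _ ≤ ∑ m ∈ Finset.Icc ⌈a⌉ ⌊b⌋,
        volume (Set.Icc (2 * Real.pi * m / k - δ) (2 * Real.pi * m / k + δ)) :=
      measure_biUnion_finset_le _ _
    _ = ∑ m ∈ Finset.Icc ⌈a⌉ ⌊b⌋, ENNReal.ofReal (2 * δ) := by
      refine Finset.sum_congr rfl fun m _ => ?_
      rw [Real.volume_Icc]
      congr 1
      ring
    _ = ((Finset.Icc ⌈a⌉ ⌊b⌋).card : ENNReal) * ENNReal.ofReal (2 * δ) := by
      rw [Finset.sum_const, nsmul_eq_mul]
    _ = ENNReal.ofReal (((Finset.Icc ⌈a⌉ ⌊b⌋).card : ℝ) * (2 * δ)) := by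
      rw [ENNReal.ofReal_mul (Nat.cast_nonneg _), ENNReal.ofReal_natCast]
    _ ≤ ENNReal.ofReal (8 * κ * (1 / (k : ℝ) ^ 2)) := by
      apply ENNReal.ofReal_le_ofReal
      calc ((Finset.Icc ⌈a⌉ ⌊b⌋).card : ℝ) * (2 * δ) ≤ (2 * k) * (2 * δ) := by gcongr
        _ = 8 * κ * (1 / (k : ℝ) ^ 2) := by
          rw [hδ]
          field_simp
          ring

theorem dio_measure {p ℓ κ : ℝ} (hκ : 0 < κ) (hℓ : 100 * κ ≤ ℓ) (hℓ1 : ℓ ≤ 1) :
    0 < MeasureTheory.volume {Ω : ℝ | Ω ∈ Set.Icc p (p + ℓ) ∧ Dio κ Ω} := by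
  by_contra hcon
  have hz : volume {Ω : ℝ | Ω ∈ Set.Icc p (p + ℓ) ∧ Dio κ Ω} = 0 := by
    rcases eq_or_ne (volume {Ω : ℝ | Ω ∈ Set.Icc p (p + ℓ) ∧ Dio κ Ω}) 0 with h | h
    · exact h
    · exact absurd (pos_iff_ne_zero.2 h) hcon
  have hsub : Set.Icc p (p + ℓ) ⊆ {Ω : ℝ | Ω ∈ Set.Icc p (p + ℓ) ∧ Dio κ Ω} ∪
      ⋃ k : ℕ, K18_bad p ℓ κ (k + 1) := by
    intro Ω hΩ
    by_cases hD : Dio κ Ω
    · exact Or.inl ⟨hΩ, hD⟩
    · right
      unfold Dio at hD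
      push Not at hD
      obtain ⟨k, hk0, hk⟩ := hD
      rw [Set.mem_iUnion]
      rcases lt_or_gt_of_ne hk0 with hneg | hpos
      · refine ⟨(-k).toNat - 1, hΩ, ?_⟩
        have h1 : (-k).toNat - 1 + 1 = (-k).toNat := by omega
        have h2 : (((-k).toNat : ℕ) : ℤ) = -k := Int.toNat_of_nonneg (by omega)
        rw [h1]
        have h3 : (((-k).toNat : ℕ) : ℝ) = -(k : ℝ) := by exact_mod_cast congrArg (Int.cast : ℤ → ℝ) h2
        have h4 : (((-k).toNat : ℕ) : ℂ) = -(k : ℂ) := by exact_mod_cast congrArg (Int.cast : ℤ → ℂ) h2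
        rw [h3, h4]
        have h5 : ‖Complex.exp (-(k : ℂ) * (Ω : ℂ) * Complex.I) - 1‖ =
            ‖Complex.exp ((k : ℂ) * (Ω : ℂ) * Complex.I) - 1‖ := by
          have e1 : -(k : ℂ) * (Ω : ℂ) * Complex.I = ((-(k * Ω) : ℝ) : ℂ) * Complex.I := by
            push_cast; ring
          have e2 : (k : ℂ) * (Ω : ℂ) * Complex.I = (((k : ℝ) * Ω : ℝ) : ℂ) * Complex.I := by
            push_cast; ring
          rw [e1, e2, K18_norm, K18_norm, neg_div, Real.sin_neg, abs_neg]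
        rw [h5, neg_sq]
        exact hk
      · refine ⟨k.toNat - 1, hΩ, ?_⟩
        have h1 : k.toNat - 1 + 1 = k.toNat := by omega
        have h2 : ((k.toNat : ℕ) : ℤ) = k := Int.toNat_of_nonneg (by omega)
        rw [h1]
        have h3 : ((k.toNat : ℕ) : ℝ) = (k : ℝ) := by exact_mod_cast congrArg (Int.cast : ℤ → ℝ) h2
        have h4 : ((k.toNat : ℕ) : ℂ) = (k : ℂ) := by exact_mod_cast congrArg (Int.cast : ℤ → ℂ) h2
        rw [h3, h4]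
        exact hk
  have hsum : HasSum (fun k : ℕ => 8 * κ * (1 / ((k + 1 : ℕ) : ℝ) ^ 2))
      (8 * κ * (Real.pi ^ 2 / 6)) := by
    have h1 := hasSum_zeta_two
    have h2 : HasSum (fun k : ℕ => 1 / ((k + 1 : ℕ) : ℝ) ^ 2) (Real.pi ^ 2 / 6) := by
      have h3 := (hasSum_nat_add_iff' (f := fun n : ℕ => 1 / (n : ℝ) ^ 2) 1).2 h1
      simpa using h3
    exact h2.mul_left _
  have hle : ENNReal.ofReal ℓ ≤ ENNReal.ofReal (8 * κ * (Real.pi ^ 2 / 6)) := by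
    calc ENNReal.ofReal ℓ = volume (Set.Icc p (p + ℓ)) := by
          rw [Real.volume_Icc]
          congr 1
          ring
      _ ≤ volume ({Ω : ℝ | Ω ∈ Set.Icc p (p + ℓ) ∧ Dio κ Ω} ∪
          ⋃ k : ℕ, K18_bad p ℓ κ (k + 1)) := measure_mono hsub
      _ ≤ volume {Ω : ℝ | Ω ∈ Set.Icc p (p + ℓ) ∧ Dio κ Ω} +
          volume (⋃ k : ℕ, K18_bad p ℓ κ (k + 1)) := measure_union_le _ _
      _ = volume (⋃ k : ℕ, K18_bad p ℓ κ (k + 1)) := by rw [hz, zero_add]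
      _ ≤ ∑' k : ℕ, volume (K18_bad p ℓ κ (k + 1)) := measure_iUnion_le _
      _ ≤ ∑' k : ℕ, ENNReal.ofReal (8 * κ * (1 / ((k + 1 : ℕ) : ℝ) ^ 2)) := by
          refine ENNReal.tsum_le_tsum fun k => ?_
          exact K18_vol hκ hℓ hℓ1 (by omega)
      _ = ENNReal.ofReal (∑' k : ℕ, 8 * κ * (1 / ((k + 1 : ℕ) : ℝ) ^ 2)) := by
          rw [ENNReal.ofReal_tsum_of_nonneg]
          · intro k
            positivity
          · exact hsum.summable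
      _ = ENNReal.ofReal (8 * κ * (Real.pi ^ 2 / 6)) := by rw [hsum.tsum_eq]
  rw [ENNReal.ofReal_le_ofReal_iff (by positivity)] at hle
  have h3 : Real.pi ≤ 4 := Real.pi_le_four
  have h4 : 0 < Real.pi := Real.pi_pos
  have h5 : Real.pi ^ 2 ≤ 16 := by nlinarith
  nlinarith

end Pool.Agent.LibKam44
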