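import Pool.Agent.LibKam44.Defs
set_option autoImplicit false
namespace Pool.Agent.LibKam44
/-
ROW K19 (radial coordinates near an invariant curve). Write K φ = (X φ, X(φ-Ω)), K' = (w φ, w(φ-Ω)),
det(K',K) = Wr. frame_bounds: |X - r cos| ≤ η, |w + r sin| ≤ η ≤ 1/1000 give W = -r^2 sin Ω + O(4.1 η), so
σ/5 ≤ |W| ≤ 2, |X| ≤ 11/10, |w| ≤ 11/10. radial: PLAN f(s) = X(φ+s) q2 - X(φ+s-Ω) q1 = det(K(φ+s),Q);
|f(0)| ≤ 3 d; f'(s) = w(φ+s) q2 - w(φ+s-Ω) q1 = W(φ) + O(d + L |s|), so for |s|, d small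
(depending on σ, L) |f' - W(φ)| ≤ σ/10 and |f(s) - f(0) - W(φ) s| ≤ (σ/10)|s|; IVT on
[-C d, C d] gives a zero s, |s| ≤ C d. Then Q = λ K(φ+s) with λ = det(K'(φ+s),Q)/W(φ+s) (Cramer:
Q det(K',K) = K det(K',Q) - K' det(K,Q)), and
|λ - 1| = |det(K'(φ+s), Q - K(φ+s))|/|W| ≤ C d. Take t = λ - 1.
-/
theorem frame_bounds {σ : ℝ} (hσ : 0 < σ) (Ω r η : ℝ) (X w : ℝ → ℝ) (hr : 1 / 2 ≤ r)
    (hr1 : r ≤ 1) (hΩ : σ ≤ |Real.sin Ω|) (hη : η ≤ σ / 1000)
    (h1 : ∀ θ, |X θ - r * Real.cos θ| ≤ η) (h2 : ∀ θ, |w θ + r * Real.sin θ| ≤ η) :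
    ∀ θ, σ / 5 ≤ |Wr Ω X w θ| ∧ |Wr Ω X w θ| ≤ 2 ∧ |X θ| ≤ 11 / 10 ∧ |w θ| ≤ 11 / 10 := by
  intro θ
  have hη0 : 0 ≤ η := le_trans (abs_nonneg _) (h1 0)
  have hS1 : |Real.sin Ω| ≤ 1 := Real.abs_sin_le_one Ω
  have hσ1 : σ ≤ 1 := hΩ.trans hS1
  have hη1 : η ≤ 1 / 1000 := by linarith
  obtain ⟨e1, he1⟩ : ∃ e, X θ = r * Real.cos θ + e := ⟨X θ - r * Real.cos θ, by ring⟩
  obtain ⟨e2, he2⟩ : ∃ e, X (θ - Ω) = r * Real.cos (θ - Ω) + e :=
    ⟨X (θ - Ω) - r * Real.cos (θ - Ω), by ring⟩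
  obtain ⟨e3, he3⟩ : ∃ e, w θ = - (r * Real.sin θ) + e := ⟨w θ + r * Real.sin θ, by ring⟩
  obtain ⟨e4, he4⟩ : ∃ e, w (θ - Ω) = - (r * Real.sin (θ - Ω)) + e :=
    ⟨w (θ - Ω) + r * Real.sin (θ - Ω), by ring⟩
  have b1 : |e1| ≤ η := by
    have := h1 θ; rwa [he1, add_sub_cancel_left] at this
  have b2 : |e2| ≤ η := by
    have := h1 (θ - Ω); rwa [he2, add_sub_cancel_left] at this
  have b3 : |e3| ≤ η := by
    have := h2 θ
    rwa [he3, neg_add_cancel_comm] at this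
  have b4 : |e4| ≤ η := by
    have := h2 (θ - Ω)
    rwa [he4, neg_add_cancel_comm] at this
  have hr0 : 0 ≤ r := by linarith
  have hmul : ∀ u e : ℝ, |u| ≤ 1 → |e| ≤ η → |r * u * e| ≤ η := by
    intro u e hu he
    rw [abs_mul, abs_mul, abs_of_nonneg hr0]
    have h3 : r * |u| ≤ 1 := mul_le_one₀ hr1 (abs_nonneg u) hu
    calc r * |u| * |e| ≤ 1 * |e| := mul_le_mul_of_nonneg_right h3 (abs_nonneg e)
      _ ≤ η := by rw [one_mul]; exact he
  have hmul2 : ∀ e e' : ℝ, |e| ≤ η → |e'| ≤ η → |e * e'| ≤ η / 1000 := by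
    intro e e' he he'
    rw [abs_mul]
    calc |e| * |e'| ≤ η * η := mul_le_mul he he' (abs_nonneg _) hη0
      _ ≤ η * (1 / 1000) := mul_le_mul_of_nonneg_left hη1 hη0
      _ = η / 1000 := by ring
  have hW : Wr Ω X w θ = - (r ^ 2 * Real.sin Ω) + (- (r * Real.sin θ * e2) +
      r * Real.cos (θ - Ω) * e3 + e3 * e2 + r * Real.sin (θ - Ω) * e1 - r * Real.cos θ * e4 -
      e4 * e1) := by
    have h3 : Real.sin Ω = Real.sin θ * Real.cos (θ - Ω) - Real.cos θ * Real.sin (θ - Ω) := by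
      rw [← Real.sin_sub]; congr 1; ring
    rw [Wr, he1, he2, he3, he4, h3]
    ring
  have k1 := hmul _ _ (Real.abs_sin_le_one θ) b2
  have k2 := hmul _ _ (Real.abs_cos_le_one (θ - Ω)) b3
  have k3 := hmul2 _ _ b3 b2
  have k4 := hmul _ _ (Real.abs_sin_le_one (θ - Ω)) b1
  have k5 := hmul _ _ (Real.abs_cos_le_one θ) b4
  have k6 := hmul2 _ _ b4 b1
  rw [abs_le] at k1 k2 k3 k4 k5 k6
  set E : ℝ := - (r * Real.sin θ * e2) +
      r * Real.cos (θ - Ω) * e3 + e3 * e2 + r * Real.sin (θ - Ω) * e1 - r * Real.cos θ * e4 -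
      e4 * e1 with hE
  have hEb : |E| ≤ 41 / 10 * η := by
    rw [abs_le, hE]
    constructor
    · linarith [k1.1, k1.2, k2.1, k2.2, k3.1, k3.2, k4.1, k4.2, k5.1, k5.2, k6.1, k6.2]
    · linarith [k1.1, k1.2, k2.1, k2.2, k3.1, k3.2, k4.1, k4.2, k5.1, k5.2, k6.1, k6.2]
  have hr2 : 1 / 4 ≤ r ^ 2 := by nlinarith
  have hr3 : r ^ 2 ≤ 1 := by nlinarith
  have hA : |-(r ^ 2 * Real.sin Ω)| = r ^ 2 * |Real.sin Ω| := by
    rw [abs_neg, abs_mul, abs_of_nonneg (sq_nonneg r)]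
  have hA1 : σ / 4 ≤ r ^ 2 * |Real.sin Ω| := by
    have h3 := mul_le_mul hr2 hΩ hσ.le (sq_nonneg r)
    linarith
  have hA2 : r ^ 2 * |Real.sin Ω| ≤ 1 := mul_le_one₀ hr3 (abs_nonneg _) hS1
  refine ⟨?_, ?_, ?_, ?_⟩
  · have h3 := abs_sub_abs_le_abs_sub (-(r ^ 2 * Real.sin Ω)) (-E)
    rw [abs_neg E, hA, sub_neg_eq_add, ← hW] at h3
    linarith
  · have h3 := abs_add_le (-(r ^ 2 * Real.sin Ω)) E
    rw [hA, ← hW] at h3
    linarith
  · rw [he1]
    have h3 := abs_add_le (r * Real.cos θ) e1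
    have h4 : |r * Real.cos θ| ≤ 1 := by
      rw [abs_mul, abs_of_nonneg hr0]
      exact mul_le_one₀ hr1 (abs_nonneg _) (Real.abs_cos_le_one θ)
    linarith
  · rw [he3]
    have h3 := abs_add_le (-(r * Real.sin θ)) e3
    have h4 : |-(r * Real.sin θ)| ≤ 1 := by
      rw [abs_neg, abs_mul, abs_of_nonneg hr0]
      exact mul_le_one₀ hr1 (abs_nonneg _) (Real.abs_sin_le_one θ)
    linarith

theorem radial {σ L : ℝ} (hσ : 0 < σ) (hL : 0 ≤ L) :
    ∃ C d₀ : ℝ, 0 < C ∧ 0 < d₀ ∧ ∀ (F : ℝ → ℝ) (Ω r η : ℝ) (X w : ℝ → ℝ), 1 / 2 ≤ r → r ≤ 1 →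
      σ ≤ |Real.sin Ω| → η ≤ σ / 1000 → Cur F Ω r η L X w →
      ∀ φ d q1 q2 : ℝ, 0 < d → d ≤ d₀ → |q1 - X φ| ≤ d → |q2 - X (φ - Ω)| ≤ d →
        ∃ s t : ℝ, |s| ≤ C * d ∧ |t| ≤ C * d ∧ q1 = (1 + t) * X (φ + s) ∧
          q2 = (1 + t) * X (φ + s - Ω) := by
  set C1 : ℝ := 30 / σ with hC1
  have hC10 : 0 < C1 := by positivity
  have hC1σ : C1 * σ = 30 := by rw [hC1]; field_simp
  set C2 : ℝ := 12 * (1 + 2 * C1) / σ with hC2
  have hC20 : 0 < C2 := by positivity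
  have hC2σ : C2 * σ = 12 * (1 + 2 * C1) := by rw [hC2]; field_simp
  set d₀ : ℝ := σ / (30 * (L * C1 + 1)) with hd₀
  have hden : 0 < 30 * (L * C1 + 1) := by positivity
  have hd₀0 : 0 < d₀ := by positivity
  refine ⟨C1 + C2, d₀, by positivity, hd₀0, ?_⟩
  intro F Ω r η X w hr hr1 hΩ hη hcur φ d q1 q2 hd hdd hq1 hq2
  have hfb := frame_bounds hσ Ω r η X w hr hr1 hΩ hη hcur.close hcur.close1
  have hLip : ∀ a b : ℝ, |X a - X b| ≤ 11 / 10 * |a - b| := by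
    intro a b
    have := Convex.norm_image_sub_le_of_norm_hasDerivWithin_le (f := X) (f' := w) (C := 11 / 10)
      (s := Set.univ) (x := b) (y := a) (fun x _ => (hcur.der x).hasDerivWithinAt)
      (fun x _ => by rw [Real.norm_eq_abs]; exact (hfb x).2.2.2) convex_univ (Set.mem_univ _)
      (Set.mem_univ _)
    simpa only [Real.norm_eq_abs] using this
  obtain ⟨a, ha⟩ : ∃ a, q1 = X φ + a := ⟨q1 - X φ, by ring⟩
  obtain ⟨b, hb⟩ : ∃ b, q2 = X (φ - Ω) + b := ⟨q2 - X (φ - Ω), by ring⟩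
  have ha1 : |a| ≤ d := by rwa [ha, add_sub_cancel_left] at hq1
  have hb1 : |b| ≤ d := by rwa [hb, add_sub_cancel_left] at hq2
  set W : ℝ := Wr Ω X w φ with hW
  have hWb : σ / 5 ≤ |W| := (hfb φ).1
  -- the function
  set f : ℝ → ℝ := fun s => X (φ + s) * q2 - X (φ + s - Ω) * q1 with hf
  have hfd : ∀ s, HasDerivAt f (w (φ + s) * q2 - w (φ + s - Ω) * q1) s := by
    intro s
    have e1 : HasDerivAt (fun s : ℝ => φ + s) 1 s := by
      simpa using (hasDerivAt_id s).const_add φ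
    have e2 : HasDerivAt (fun s : ℝ => φ + s - Ω) 1 s := e1.sub_const Ω
    have e3 : HasDerivAt (fun s : ℝ => X (φ + s)) (w (φ + s)) s := by
      have := (hcur.der (φ + s)).comp s e1
      rw [mul_one] at this
      exact this
    have e4 : HasDerivAt (fun s : ℝ => X (φ + s - Ω)) (w (φ + s - Ω)) s := by
      have := (hcur.der (φ + s - Ω)).comp s e2
      rw [mul_one] at this
      exact this
    exact (e3.mul_const q2).sub (e4.mul_const q1)
  have hbd : ∀ s : ℝ, |s| ≤ C1 * d →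
      |w (φ + s) * q2 - w (φ + s - Ω) * q1 - W| ≤ σ / 10 := by
    intro s hs
    have hexp : w (φ + s) * q2 - w (φ + s - Ω) * q1 - W =
        (w (φ + s) - w φ) * X (φ - Ω) + w (φ + s) * b -
          ((w (φ + s - Ω) - w (φ - Ω)) * X φ + w (φ + s - Ω) * a) := by
      rw [hW, Wr, ha, hb]; ring
    have l1 : |w (φ + s) - w φ| ≤ L * |s| := by
      have := hcur.lip (φ + s) φ
      rwa [add_sub_cancel_left] at this
    have l2 : |w (φ + s - Ω) - w (φ - Ω)| ≤ L * |s| := by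
      have := hcur.lip (φ + s - Ω) (φ - Ω)
      have h3 : φ + s - Ω - (φ - Ω) = s := by ring
      rwa [h3] at this
    have hLs : 0 ≤ L * |s| := mul_nonneg hL (abs_nonneg s)
    have m1 : |(w (φ + s) - w φ) * X (φ - Ω)| ≤ L * |s| * (11 / 10) := by
      rw [abs_mul]
      exact mul_le_mul l1 (hfb (φ - Ω)).2.2.1 (abs_nonneg _) hLs
    have m2 : |w (φ + s) * b| ≤ 11 / 10 * d := by
      rw [abs_mul]
      exact mul_le_mul (hfb (φ + s)).2.2.2 hb1 (abs_nonneg _) (by norm_num)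
    have m3 : |(w (φ + s - Ω) - w (φ - Ω)) * X φ| ≤ L * |s| * (11 / 10) := by
      rw [abs_mul]
      exact mul_le_mul l2 (hfb φ).2.2.1 (abs_nonneg _) hLs
    have m4 : |w (φ + s - Ω) * a| ≤ 11 / 10 * d := by
      rw [abs_mul]
      exact mul_le_mul (hfb (φ + s - Ω)).2.2.2 ha1 (abs_nonneg _) (by norm_num)
    have m5 : L * |s| ≤ L * (C1 * d) := mul_le_mul_of_nonneg_left hs hL
    have m6 : 30 * (L * C1 + 1) * d ≤ σ := by
      have := mul_le_mul_of_nonneg_left hdd hden.le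
      rw [hd₀, mul_div_cancel₀ _ hden.ne'] at this
      exact this
    have m7 : L * (C1 * d) + d ≤ σ / 30 := by
      have : L * (C1 * d) + d = 30 * (L * C1 + 1) * d / 30 := by ring
      rw [this]; linarith
    rw [hexp]
    rw [abs_le] at m1 m2 m3 m4 ⊢
    constructor
    · linarith [m1.1, m1.2, m2.1, m2.2, m3.1, m3.2, m4.1, m4.2]
    · linarith [m1.1, m1.2, m2.1, m2.2, m3.1, m3.2, m4.1, m4.2]
  have hf0 : |f 0| ≤ 3 * d := by
    have h3 : f 0 = X φ * b - X (φ - Ω) * a := by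
      simp only [hf, add_zero]
      rw [ha, hb]; ring
    have m1 : |X φ * b| ≤ 11 / 10 * d := by
      rw [abs_mul]
      exact mul_le_mul (hfb φ).2.2.1 hb1 (abs_nonneg _) (by norm_num)
    have m2 : |X (φ - Ω) * a| ≤ 11 / 10 * d := by
      rw [abs_mul]
      exact mul_le_mul (hfb (φ - Ω)).2.2.1 ha1 (abs_nonneg _) (by norm_num)
    rw [h3]
    have := abs_sub (X φ * b) (X (φ - Ω) * a)
    linarith
  have hC1d : 0 < C1 * d := by positivity
  have hlin : ∀ s : ℝ, |s| ≤ C1 * d → |f s - W * s - f 0| ≤ σ / 10 * |s| := by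
    intro s hs
    have h3 := Convex.norm_image_sub_le_of_norm_hasDerivWithin_le
      (f := fun s => f s - W * s)
      (f' := fun s => w (φ + s) * q2 - w (φ + s - Ω) * q1 - W) (C := σ / 10)
      (s := Set.Icc (-(C1 * d)) (C1 * d)) (x := 0) (y := s)
      (fun x _ => by
        have h4 : HasDerivAt (fun s : ℝ => W * s) W x := by
          simpa using (hasDerivAt_id x).const_mul W
        exact ((hfd x).sub h4).hasDerivWithinAt)
      (fun x hx => by
        rw [Real.norm_eq_abs]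
        exact hbd x (abs_le.mpr ⟨hx.1, hx.2⟩))
      (convex_Icc _ _) ⟨by linarith, by linarith⟩ ⟨(abs_le.mp hs).1, (abs_le.mp hs).2⟩
    simp only [Real.norm_eq_abs, mul_zero, sub_zero] at h3
    exact h3
  have hWd : 0 ≤ |W| * (|W| * (C1 * d) - 3 * d - σ / 10 * (C1 * d)) := by
    apply mul_nonneg (abs_nonneg _)
    have e1 := mul_le_mul_of_nonneg_right hWb hC1d.le
    have e2 : σ / 5 * (C1 * d) = 6 * d := by
      have : σ / 5 * (C1 * d) = (C1 * σ) * d / 5 := by ring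
      rw [this, hC1σ]; ring
    have e3 : σ / 10 * (C1 * d) = 3 * d := by
      have : σ / 10 * (C1 * d) = (C1 * σ) * d / 10 := by ring
      rw [this, hC1σ]; ring
    rw [e2] at e1
    rw [e3]
    linarith
  have habsW : |W| * |W| = W * W := abs_mul_abs_self W
  have hgp : 0 ≤ W * f (C1 * d) := by
    have h3 := hlin (C1 * d) (by rw [abs_of_pos hC1d])
    rw [abs_of_pos hC1d] at h3
    have h4 : |W * (f (C1 * d) - W * (C1 * d))| ≤ |W| * (3 * d + σ / 10 * (C1 * d)) := by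
      rw [abs_mul]
      apply mul_le_mul_of_nonneg_left _ (abs_nonneg _)
      have h5 := abs_sub_abs_le_abs_sub (f (C1 * d) - W * (C1 * d)) (f 0)
      linarith
    have h5 := (abs_le.mp h4).1
    have e1 : W * f (C1 * d) = W * (f (C1 * d) - W * (C1 * d)) + W * W * (C1 * d) := by ring
    have e2 : |W| * |W| * (C1 * d) = |W| * (|W| * (C1 * d) - 3 * d - σ / 10 * (C1 * d)) +
      |W| * (3 * d + σ / 10 * (C1 * d)) := by ring
    rw [e1, ← habsW, e2]
    linarith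
  have hgn : W * f (-(C1 * d)) ≤ 0 := by
    have h3 := hlin (-(C1 * d)) (by rw [abs_neg, abs_of_pos hC1d])
    rw [abs_neg, abs_of_pos hC1d] at h3
    have h4 : |W * (f (-(C1 * d)) - W * (-(C1 * d)))| ≤ |W| * (3 * d + σ / 10 * (C1 * d)) := by
      rw [abs_mul]
      apply mul_le_mul_of_nonneg_left _ (abs_nonneg _)
      have h5 := abs_sub_abs_le_abs_sub (f (-(C1 * d)) - W * (-(C1 * d))) (f 0)
      linarith
    have h5 := (abs_le.mp h4).2
    have e1 : W * f (-(C1 * d)) =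
      W * (f (-(C1 * d)) - W * (-(C1 * d))) - W * W * (C1 * d) := by ring
    have e2 : |W| * |W| * (C1 * d) = |W| * (|W| * (C1 * d) - 3 * d - σ / 10 * (C1 * d)) +
      |W| * (3 * d + σ / 10 * (C1 * d)) := by ring
    rw [e1, ← habsW, e2]
    linarith
  have hcont : ContinuousOn (fun s => W * f s) (Set.Icc (-(C1 * d)) (C1 * d)) := by
    apply Continuous.continuousOn
    exact continuous_const.mul (continuous_iff_continuousAt.mpr (fun s => (hfd s).continuousAt))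
  obtain ⟨s, hs, hs0⟩ := intermediate_value_Icc (by linarith : -(C1 * d) ≤ C1 * d) hcont
    ⟨hgn, hgp⟩
  have hsab : |s| ≤ C1 * d := abs_le.mpr ⟨hs.1, hs.2⟩
  have hWne : W ≠ 0 := by
    intro h; rw [h, abs_zero] at hWb; linarith
  have hfs : f s = 0 := by
    rcases mul_eq_zero.mp hs0 with h | h
    · exact absurd h hWne
    · exact h
  -- Cramer
  set V : ℝ := Wr Ω X w (φ + s) with hV
  set D : ℝ := w (φ + s) * q2 - w (φ + s - Ω) * q1 with hD
  have hVb : σ / 5 ≤ |V| := (hfb (φ + s)).1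
  have hVne : V ≠ 0 := by
    intro h; rw [h, abs_zero] at hVb; linarith
  have hfs' : X (φ + s) * q2 - X (φ + s - Ω) * q1 = 0 := hfs
  have hr1' : q1 * V = D * X (φ + s) := by
    rw [hV, hD, Wr]
    linear_combination (- w (φ + s)) * hfs'
  have hr2' : q2 * V = D * X (φ + s - Ω) := by
    rw [hV, hD, Wr]
    linear_combination (- w (φ + s - Ω)) * hfs'
  have hDV : |D - V| ≤ 22 / 10 * (1 + 11 / 10 * C1) * d := by
    have h3 : D - V = w (φ + s) * (q2 - X (φ + s - Ω)) - w (φ + s - Ω) * (q1 - X (φ + s)) := by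
      rw [hV, hD, Wr]; ring
    have n1 : |q1 - X (φ + s)| ≤ (1 + 11 / 10 * C1) * d := by
      have h4 := hLip φ (φ + s)
      have h5 : |φ - (φ + s)| = |s| := by
        rw [show φ - (φ + s) = - s by ring, abs_neg]
      rw [h5] at h4
      have h6 := abs_sub_le q1 (X φ) (X (φ + s))
      linarith
    have n2 : |q2 - X (φ + s - Ω)| ≤ (1 + 11 / 10 * C1) * d := by
      have h4 := hLip (φ - Ω) (φ + s - Ω)
      have h5 : |φ - Ω - (φ + s - Ω)| = |s| := by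
        rw [show φ - Ω - (φ + s - Ω) = - s by ring, abs_neg]
      rw [h5] at h4
      have h6 := abs_sub_le q2 (X (φ - Ω)) (X (φ + s - Ω))
      linarith
    have n3 : |w (φ + s) * (q2 - X (φ + s - Ω))| ≤ 11 / 10 * ((1 + 11 / 10 * C1) * d) := by
      rw [abs_mul]
      exact mul_le_mul (hfb (φ + s)).2.2.2 n2 (abs_nonneg _) (by norm_num)
    have n4 : |w (φ + s - Ω) * (q1 - X (φ + s))| ≤ 11 / 10 * ((1 + 11 / 10 * C1) * d) := by
      rw [abs_mul]
      exact mul_le_mul (hfb (φ + s - Ω)).2.2.2 n1 (abs_nonneg _) (by norm_num)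
    rw [h3]
    have := abs_sub (w (φ + s) * (q2 - X (φ + s - Ω))) (w (φ + s - Ω) * (q1 - X (φ + s)))
    linarith
  refine ⟨s, D / V - 1, ?_, ?_, ?_, ?_⟩
  · have : C1 * d ≤ (C1 + C2) * d := by
      have := mul_pos hC20 hd
      linarith
    exact hsab.trans this
  · have h3 : D / V - 1 = (D - V) / V := by field_simp
    rw [h3, abs_div, div_le_iff₀ (by linarith : (0 : ℝ) < |V|)]
    have h4 : (C1 + C2) * d * (σ / 5) ≤ (C1 + C2) * d * |V| :=
      mul_le_mul_of_nonneg_left hVb (by positivity)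
    have h5 : (C1 + C2) * d * (σ / 5) = (30 + 12 * (1 + 2 * C1)) * d / 5 := by
      have : (C1 + C2) * d * (σ / 5) = (C1 * σ + C2 * σ) * d / 5 := by ring
      rw [this, hC1σ, hC2σ]
    have h6 : 0 < C1 * d := hC1d
    have h7 : 22 / 10 * (1 + 11 / 10 * C1) * d ≤ (30 + 12 * (1 + 2 * C1)) * d / 5 := by
      linarith
    linarith
  · rw [add_sub_cancel, div_mul_eq_mul_div, eq_div_iff hVne, hr1']
  · rw [add_sub_cancel, div_mul_eq_mul_div, eq_div_iff hVne, hr2']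

end Pool.Agent.LibKam44
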