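import Pool.Agent.LibKam44.K19
set_option autoImplicit false
namespace Pool.Agent.LibKam44
/-
ROW K20 (one step of the map in radial coordinates). PLAN: t = 0: θ' = θ + Ω, t' = 0 (Cur.eqn).
t ≠ 0: φ = θ + Ω, Q = (F((1+t) X) - (1+t) X₋, (1+t) X) (X = X θ, X₋ = X(θ-Ω)); by eqn
K φ = (F(X) - X₋, X); |Q - K φ| ≤ C |t|, so radial gives θ' = φ + s, t', |s|, |t'| ≤ C|t|.
Then t' W(θ') = det(K'(θ'), t' K(θ')) = det(K'(θ'), Q - K(θ')); replace θ' by φ: K'(θ') = K'(φ) + O(L s),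
K(θ') = K(φ) + s K'(φ) + O(L s^2) (mean value with the Lipschitz derivative), det(K'φ, K'φ) = 0, so
t' W(θ') = det(K'(φ), Q - K(φ)) + O(t^2). And K'(φ) = (w₊, w) with w₊ + w₋ = F1(X) w (differentiate
eqn), Q - Kφ = (F((1+t)X) - F(X) - t X₋, t X), F((1+t)X) - F(X) = t X F1(X) + O(t^2):
det = w₊ t X - w (t X F1(X) - t X₋) + O(t^2) = t (w X₋ - w₋ X) + O(t^2) = t W(θ) + O(t^2).
Choose t₀ ≤ 1/10 so that |(1+t) X| ≤ 5/2.
-/

private theorem K20_taylor {f f' : ℝ → ℝ} {L a b : ℝ} (hL : 0 ≤ L)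
    (hd : ∀ u ∈ Set.uIcc a b, HasDerivAt f (f' u) u)
    (hlip : ∀ u ∈ Set.uIcc a b, |f' u - f' a| ≤ L * |u - a|) :
    |f b - f a - f' a * (b - a)| ≤ L * (b - a) ^ 2 := by
  have h1 : ∀ u ∈ Set.uIcc a b, HasDerivWithinAt (fun u => f u - f' a * u) (f' u - f' a) (Set.uIcc a b) u := by
    intro u hu
    have h2 := (hd u hu).sub ((hasDerivAt_id u).const_mul (f' a))
    simp only [id, mul_one] at h2
    exact h2.hasDerivWithinAt
  have h2 : ∀ u ∈ Set.uIcc a b, ‖f' u - f' a‖ ≤ L * |b - a| := by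
    intro u hu
    rw [Real.norm_eq_abs]
    refine (hlip u hu).trans (mul_le_mul_of_nonneg_left ?_ hL)
    exact Set.abs_sub_left_of_mem_uIcc hu
  have h3 := Convex.norm_image_sub_le_of_norm_hasDerivWithin_le h1 h2 (convex_uIcc a b)
    Set.left_mem_uIcc Set.right_mem_uIcc
  rw [Real.norm_eq_abs, Real.norm_eq_abs] at h3
  have e : f b - f a - f' a * (b - a) = f b - f' a * b - (f a - f' a * a) := by ring
  rw [e]
  refine h3.trans (le_of_eq ?_)
  rw [mul_assoc, ← sq, sq_abs]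

private theorem K20_lip {F F1 : ℝ → ℝ} {L a b : ℝ}
    (hd : ∀ u ∈ Set.uIcc a b, HasDerivAt F (F1 u) u)
    (hbd : ∀ u ∈ Set.uIcc a b, |F1 u| ≤ L) :
    |F b - F a| ≤ L * |b - a| := by
  have h3 := Convex.norm_image_sub_le_of_norm_hasDerivWithin_le
    (fun u hu => (hd u hu).hasDerivWithinAt) (fun u hu => by rw [Real.norm_eq_abs]; exact hbd u hu) (convex_uIcc a b)
    Set.left_mem_uIcc Set.right_mem_uIcc
  rw [Real.norm_eq_abs, Real.norm_eq_abs] at h3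
  exact h3

private theorem K20_uIcc_bound {a b B u : ℝ} (ha : |a| ≤ B) (hb : |b| ≤ B) (hu : u ∈ Set.uIcc a b) : |u| ≤ B := by
  rw [abs_le] at ha hb ⊢
  rw [Set.mem_uIcc] at hu
  rcases hu with h | h
  · exact ⟨ha.1.trans h.1, h.2.trans hb.2⟩
  · exact ⟨hb.1.trans h.1, h.2.trans ha.2⟩

/-- abstract computation -/
private theorem K20_alg {L t s t' x0 xm xp w0 wm wp xs xs' ws ws' f0 f1 g C1 : ℝ} (hL : 0 ≤ L)
    (hC1 : 0 ≤ C1)
    (hx0 : |x0| ≤ 11 / 10) (hxs : |xs| ≤ 11 / 10) (hxs' : |xs'| ≤ 11 / 10) (hw0 : |w0| ≤ 11 / 10)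
    (hwp : |wp| ≤ 11 / 10)
    (heq : xp + xm = f0) (hder : wp + wm = f1 * w0)
    (hg : |g - f0 - f1 * (t * x0)| ≤ L * (t * x0) ^ 2)
    (hs : |s| ≤ C1 * |t|) (ht' : |t'| ≤ C1 * |t|)
    (hws : |ws - wp| ≤ L * |s|) (hws' : |ws' - w0| ≤ L * |s|)
    (hXs : |xs - xp - wp * s| ≤ L * s ^ 2) (hXs' : |xs' - x0 - w0 * s| ≤ L * s ^ 2)
    (e1 : g - (1 + t) * xm = (1 + t') * xs) (e2 : (1 + t) * x0 = (1 + t') * xs') :
    |t' * (ws * xs' - ws' * xs) - t * (w0 * xm - wm * x0)| ≤ (2 * L + 5 * L * C1 ^ 2) * t ^ 2 := by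
  have key : t' * (ws * xs' - ws' * xs) - t * (w0 * xm - wm * x0) =
      (ws - wp) * (t' * xs') - (ws' - w0) * (t' * xs) - wp * (xs' - x0 - w0 * s) +
        w0 * (xs - xp - wp * s) - w0 * (g - f0 - f1 * (t * x0)) := by
    have h1 : t' * xs = g - (1 + t) * xm - xs := by linarith
    have h2 : t' * xs' = (1 + t) * x0 - xs' := by linarith
    have h3 : t' * (ws * xs' - ws' * xs) = ws * (t' * xs') - ws' * (t' * xs) := by ring
    have h4 : wm = f1 * w0 - wp := by linarith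
    have h5 : xp = f0 - xm := by linarith
    rw [h3, h1, h2, h4, h5]
    ring
  rw [key]
  have hst : |s| * |t'| ≤ C1 ^ 2 * t ^ 2 := by
    calc |s| * |t'| ≤ (C1 * |t|) * (C1 * |t|) :=
          mul_le_mul hs ht' (abs_nonneg _) (by positivity)
      _ = C1 ^ 2 * |t| ^ 2 := by ring
      _ = C1 ^ 2 * t ^ 2 := by rw [sq_abs]
  have hss : s ^ 2 ≤ C1 ^ 2 * t ^ 2 := by
    calc s ^ 2 = |s| * |s| := by rw [← sq, sq_abs]
      _ ≤ (C1 * |t|) * (C1 * |t|) := mul_le_mul hs hs (abs_nonneg _) (by positivity)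
      _ = C1 ^ 2 * |t| ^ 2 := by ring
      _ = C1 ^ 2 * t ^ 2 := by rw [sq_abs]
  have b1 : |(ws - wp) * (t' * xs')| ≤ 11 / 10 * L * (C1 ^ 2 * t ^ 2) := by
    rw [abs_mul, abs_mul]
    calc |ws - wp| * (|t'| * |xs'|) ≤ (L * |s|) * (|t'| * (11 / 10)) :=
          mul_le_mul hws (mul_le_mul_of_nonneg_left hxs' (abs_nonneg _)) (by positivity) (by positivity)
      _ = 11 / 10 * L * (|s| * |t'|) := by ring
      _ ≤ _ := mul_le_mul_of_nonneg_left hst (by positivity)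
  have b2 : |(ws' - w0) * (t' * xs)| ≤ 11 / 10 * L * (C1 ^ 2 * t ^ 2) := by
    rw [abs_mul, abs_mul]
    calc |ws' - w0| * (|t'| * |xs|) ≤ (L * |s|) * (|t'| * (11 / 10)) :=
          mul_le_mul hws' (mul_le_mul_of_nonneg_left hxs (abs_nonneg _)) (by positivity) (by positivity)
      _ = 11 / 10 * L * (|s| * |t'|) := by ring
      _ ≤ _ := mul_le_mul_of_nonneg_left hst (by positivity)
  have b3 : |wp * (xs' - x0 - w0 * s)| ≤ 11 / 10 * L * (C1 ^ 2 * t ^ 2) := by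
    rw [abs_mul]
    calc |wp| * |xs' - x0 - w0 * s| ≤ (11 / 10) * (L * s ^ 2) :=
          mul_le_mul hwp hXs' (abs_nonneg _) (by norm_num)
      _ = 11 / 10 * L * s ^ 2 := by ring
      _ ≤ _ := mul_le_mul_of_nonneg_left hss (by positivity)
  have b4 : |w0 * (xs - xp - wp * s)| ≤ 11 / 10 * L * (C1 ^ 2 * t ^ 2) := by
    rw [abs_mul]
    calc |w0| * |xs - xp - wp * s| ≤ (11 / 10) * (L * s ^ 2) :=
          mul_le_mul hw0 hXs (abs_nonneg _) (by norm_num)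
      _ = 11 / 10 * L * s ^ 2 := by ring
      _ ≤ _ := mul_le_mul_of_nonneg_left hss (by positivity)
  have b5 : |w0 * (g - f0 - f1 * (t * x0))| ≤ 2 * L * t ^ 2 := by
    rw [abs_mul]
    have hx2 : x0 ^ 2 ≤ (11 / 10) ^ 2 := by
      rw [← sq_abs]
      exact pow_le_pow_left₀ (abs_nonneg _) hx0 2
    calc |w0| * |g - f0 - f1 * (t * x0)| ≤ (11 / 10) * (L * (t * x0) ^ 2) :=
          mul_le_mul hw0 hg (abs_nonneg _) (by norm_num)
      _ = (11 / 10 * L * t ^ 2) * x0 ^ 2 := by ring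
      _ ≤ (11 / 10 * L * t ^ 2) * (11 / 10) ^ 2 := mul_le_mul_of_nonneg_left hx2 (by positivity)
      _ ≤ 2 * L * t ^ 2 := by nlinarith [mul_nonneg hL (sq_nonneg t)]
  have hq : 0 ≤ L * (C1 ^ 2 * t ^ 2) := by positivity
  rw [abs_le] at b1 b2 b3 b4 b5 ⊢
  constructor <;> linarith [b1.1, b1.2, b2.1, b2.2, b3.1, b3.2, b4.1, b4.2, b5.1, b5.2]

theorem step {σ L : ℝ} (hσ : 0 < σ) (hL : 0 ≤ L) :
    ∃ C t₀ : ℝ, 0 < C ∧ 0 < t₀ ∧ ∀ (F F1 : ℝ → ℝ) (Ω r η : ℝ) (X w : ℝ → ℝ), Fo F F1 L →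
      1 / 2 ≤ r → r ≤ 1 → σ ≤ |Real.sin Ω| → η ≤ σ / 1000 → Cur F Ω r η L X w →
      ∀ θ t : ℝ, |t| ≤ t₀ → ∃ θ' t' : ℝ,
        F ((1 + t) * X θ) - (1 + t) * X (θ - Ω) = (1 + t') * X θ' ∧
        (1 + t) * X θ = (1 + t') * X (θ' - Ω) ∧ |θ' - θ - Ω| ≤ C * |t| ∧
        |t' * Wr Ω X w θ' - t * Wr Ω X w θ| ≤ C * t ^ 2 := by
  obtain ⟨C0, d₀, hC0, hd₀, hrad⟩ := radial hσ hL
  set M : ℝ := (L + 1) * (11 / 10) with hM
  have hMpos : 0 < M := by positivity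
  set C1 : ℝ := C0 * M with hC1
  have hC1pos : 0 < C1 := by positivity
  refine ⟨C1 + (2 * L + 5 * L * C1 ^ 2), min (1 / 10) (d₀ / M), by positivity, by positivity, ?_⟩
  intro F F1 Ω r η X w hF hr hr1 hΩ hη hcur θ t ht
  have ht1 : |t| ≤ 1 / 10 := ht.trans (min_le_left _ _)
  have ht2 : |t| * M ≤ d₀ := by
    have := ht.trans (min_le_right _ _)
    rwa [le_div_iff₀ hMpos] at this
  by_cases h0 : t = 0
  · subst h0
    refine ⟨θ + Ω, 0, ?_, ?_, ?_, ?_⟩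
    · have := hcur.eqn θ
      simp only [add_zero, one_mul]
      linarith
    · simp
    · simp
    · simp
  have hfb := frame_bounds hσ Ω r η X w hr hr1 hΩ hη hcur.close hcur.close1
  have hx : ∀ φ, |X φ| ≤ 11 / 10 := fun φ => (hfb φ).2.2.1
  have hw : ∀ φ, |w φ| ≤ 11 / 10 := fun φ => (hfb φ).2.2.2
  have htpos : 0 < |t| := abs_pos.2 h0
  -- F along the segment
  have ha : |X θ| ≤ 5 / 2 := (hx θ).trans (by norm_num)
  have hb : |(1 + t) * X θ| ≤ 5 / 2 := by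
    rw [abs_mul]
    have h1 : |1 + t| ≤ 11 / 10 := by
      calc |1 + t| ≤ |1| + |t| := abs_add_le _ _
        _ ≤ 11 / 10 := by rw [abs_one]; linarith
    calc |1 + t| * |X θ| ≤ (11 / 10) * (11 / 10) := mul_le_mul h1 (hx θ) (abs_nonneg _) (by norm_num)
      _ ≤ 5 / 2 := by norm_num
  have hseg : ∀ u ∈ Set.uIcc (X θ) ((1 + t) * X θ), |u| ≤ 5 / 2 := fun u hu => K20_uIcc_bound ha hb hu
  have hFlip : |F ((1 + t) * X θ) - F (X θ)| ≤ L * (|t| * |X θ|) := by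
    have := K20_lip (F := F) (F1 := F1) (L := L) (a := X θ) (b := (1 + t) * X θ)
      (fun u hu => hF.der u (hseg u hu)) (fun u hu => hF.bd u (hseg u hu))
    have e : (1 + t) * X θ - X θ = t * X θ := by ring
    rwa [e, abs_mul] at this
  have hFtay : |F ((1 + t) * X θ) - F (X θ) - F1 (X θ) * (t * X θ)| ≤ L * (t * X θ) ^ 2 := by
    have := K20_taylor (f := F) (f' := F1) (L := L) (a := X θ) (b := (1 + t) * X θ) hL
      (fun u hu => hF.der u (hseg u hu)) (fun u hu => hF.lip u (X θ) (hseg u hu) ha)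
    have e : (1 + t) * X θ - X θ = t * X θ := by ring
    rwa [e] at this
  have heqn := hcur.eqn θ
  -- apply radial
  have hd1 : 0 < |t| * M := by positivity
  have hq1 : |F ((1 + t) * X θ) - (1 + t) * X (θ - Ω) - X (θ + Ω)| ≤ |t| * M := by
    have e : F ((1 + t) * X θ) - (1 + t) * X (θ - Ω) - X (θ + Ω) =
        (F ((1 + t) * X θ) - F (X θ)) - t * X (θ - Ω) := by linarith
    rw [e]
    calc |(F ((1 + t) * X θ) - F (X θ)) - t * X (θ - Ω)| ≤
          |F ((1 + t) * X θ) - F (X θ)| + |t * X (θ - Ω)| := abs_sub _ _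
      _ ≤ L * (|t| * |X θ|) + |t| * |X (θ - Ω)| := by rw [abs_mul]; linarith
      _ ≤ L * (|t| * (11 / 10)) + |t| * (11 / 10) := by
          have h1 := mul_le_mul_of_nonneg_left (mul_le_mul_of_nonneg_left (hx θ) (abs_nonneg t)) hL
          have h2 := mul_le_mul_of_nonneg_left (hx (θ - Ω)) (abs_nonneg t)
          linarith
      _ = |t| * M := by rw [hM]; ring
  have hq2 : |(1 + t) * X θ - X (θ + Ω - Ω)| ≤ |t| * M := by
    rw [add_sub_cancel_right]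
    have e : (1 + t) * X θ - X θ = t * X θ := by ring
    rw [e, abs_mul, hM]
    have h1 := mul_le_mul_of_nonneg_left (hx θ) (abs_nonneg t)
    nlinarith [abs_nonneg t, mul_nonneg hL (abs_nonneg t)]
  obtain ⟨s, t', hs, ht', e1, e2⟩ := hrad F Ω r η X w hr hr1 hΩ hη hcur (θ + Ω) (|t| * M) _ _ hd1 ht2 hq1 hq2
  have hs' : |s| ≤ C1 * |t| := by
    refine hs.trans (le_of_eq ?_)
    rw [hC1]; ring
  have ht'' : |t'| ≤ C1 * |t| := by
    refine ht'.trans (le_of_eq ?_)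
    rw [hC1]; ring
  -- derivative of the equation
  have hder : w (θ + Ω) + w (θ - Ω) = F1 (X θ) * w θ := by
    have h1 : HasDerivAt (fun x => X (x + Ω) + X (x - Ω)) (w (θ + Ω) + w (θ - Ω)) θ := by
      have a1 : HasDerivAt (fun x => X (x + Ω)) (w (θ + Ω)) θ := (hcur.der (θ + Ω)).comp_add_const θ Ω
      have a2 : HasDerivAt (fun x => X (x - Ω)) (w (θ - Ω)) θ := (hcur.der (θ - Ω)).comp_sub_const θ Ω
      exact a1.add a2
    have h2 : HasDerivAt (fun x => F (X x)) (F1 (X θ) * w θ) θ :=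
      (hF.der (X θ) ha).comp θ (hcur.der θ)
    have h3 : (fun x => X (x + Ω) + X (x - Ω)) = fun x => F (X x) := funext hcur.eqn
    rw [h3] at h1
    exact h1.unique h2
  have hXT : ∀ φ, |X (φ + s) - X φ - w φ * s| ≤ L * s ^ 2 := by
    intro φ
    have := K20_taylor (f := X) (f' := w) (L := L) (a := φ) (b := φ + s) hL
      (fun u _ => hcur.der u) (fun u _ => hcur.lip u φ)
    rwa [add_sub_cancel_left] at this
  have hXT1 := hXT (θ + Ω)
  have hXT2 := hXT θ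
  have hws : |w (θ + Ω + s) - w (θ + Ω)| ≤ L * |s| := by
    have := hcur.lip (θ + Ω + s) (θ + Ω)
    rwa [add_sub_cancel_left] at this
  have hws' : |w (θ + s) - w θ| ≤ L * |s| := by
    have := hcur.lip (θ + s) θ
    rwa [add_sub_cancel_left] at this
  have esub : θ + Ω + s - Ω = θ + s := by ring
  rw [esub] at e2
  have hres := K20_alg hL hC1pos.le (hx θ) (hx (θ + Ω + s)) (hx (θ + s)) (hw θ) (hw (θ + Ω)) heqn hder
    hFtay hs' ht'' hws hws' hXT1 hXT2 e1 e2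
  refine ⟨θ + Ω + s, t', e1, by rw [esub]; exact e2, ?_, ?_⟩
  · have e : θ + Ω + s - θ - Ω = s := by ring
    rw [e]
    refine hs'.trans (mul_le_mul_of_nonneg_right ?_ (abs_nonneg t))
    have : 0 ≤ 2 * L + 5 * L * C1 ^ 2 := by positivity
    linarith
  · unfold Wr
    rw [esub]
    refine hres.trans (mul_le_mul_of_nonneg_right ?_ (sq_nonneg t))
    linarith

end Pool.Agent.LibKam44
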