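import Pool.Agent.LibKam44.Defs
set_option autoImplicit false
namespace Pool.Agent.LibKam44
private theorem K21_eps {τ t x y a b : ℝ} (hτ : τ ≤ 1 / 1000) (hx : |x - a| ≤ τ)
    (hy : |y - b| ≤ τ) (ht : |t| ≤ τ) (ha : |a| ≤ 1) (e : (1 + t) * x = y) :
    |b - a| ≤ 31 / 10 * τ := by
  have hτ0 : 0 ≤ τ := (abs_nonneg _).trans ht
  have h1 : b - a = (x - a) + t * x - (y - b) := by linear_combination -e
  have h2 : |x| ≤ 1 + τ := by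
    have : x = (x - a) + a := by ring
    rw [this]
    exact (abs_add_le _ _).trans (by linarith)
  have h3 : |t * x| ≤ τ * (1 + τ) := by
    rw [abs_mul]
    exact mul_le_mul ht h2 (abs_nonneg _) hτ0
  have h4 : τ * (1 + τ) ≤ τ * (1001 / 1000) := mul_le_mul_of_nonneg_left (by linarith) hτ0
  rw [h1]
  have h5 := abs_sub ((x - a) + t * x) (y - b)
  have h6 := abs_add_le (x - a) (t * x)
  linarith

private theorem K21_abs_mul_le {a b A : ℝ} (ha : |a| ≤ A) (hb : |b| ≤ 1) : |a * b| ≤ A := by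
  rw [abs_mul]
  have h0 : 0 ≤ A := (abs_nonneg _).trans ha
  calc |a| * |b| ≤ A * 1 := mul_le_mul ha hb (abs_nonneg _) h0
    _ = A := mul_one A

private theorem K21_one {r : ℝ} (h1 : 1 / 2 ≤ r) (h2 : r ≤ 1) (θ : ℝ) : |r * Real.cos θ| ≤ 1 :=
  K21_abs_mul_le (by rw [abs_of_nonneg (by linarith)]; exact h2) (Real.abs_cos_le_one θ)

private theorem K21_one' {r : ℝ} (h1 : 1 / 2 ≤ r) (h2 : r ≤ 1) (θ : ℝ) : |r * Real.sin θ| ≤ 1 :=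
  K21_abs_mul_le (by rw [abs_of_nonneg (by linarith)]; exact h2) (Real.abs_sin_le_one θ)

private theorem K21_div {r x A : ℝ} (h1 : 1 / 2 ≤ r) (h : |r * x| ≤ A) : |x| ≤ 2 * A := by
  rw [abs_mul, abs_of_nonneg (by linarith : (0 : ℝ) ≤ r)] at h
  have := mul_le_mul_of_nonneg_right h1 (abs_nonneg x)
  linarith

/-
ROW K21 (comparison of phases). PLAN: r₂ cos θ₂ = r₁ cos θ₁ + ε₁, |ε₁| ≤ 2η + 1.1|t| ≤ 3.1 σ/1000;
r₂ cos(θ₂-Ω₂) = r₁ cos(θ₁-Ω₁) + ε₂, same bound. r₂ sin θ₂ sin Ω₂ = r₂ cos(θ₂-Ω₂) - r₂ cos θ₂ cos Ω₂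
= r₁ sin θ₁ sin Ω₂ + r₁ (cos θ₁ (cos Ω₁ - cos Ω₂) + sin θ₁ (sin Ω₁ - sin Ω₂)) + ε₂ - ε₁ cos Ω₂,
error ≤ 2|Ω₁-Ω₂| + 6.2 σ/1000 ≤ 8.2 σ/1000, divide by |sin Ω₂| ≥ σ: |r₂ sin θ₂ - r₁ sin θ₁| ≤ .0082,
|r₂ cos θ₂ - r₁ cos θ₁| ≤ .0031, so |r₂ - r₁| ≤ .01 and |cos θ₂ - cos θ₁|, |sin θ₂ - sin θ₁| ≤ 2 * .02.
-/
theorem phase {σ : ℝ} (hσ : 0 < σ) (F : ℝ → ℝ) (L Ω₁ Ω₂ r₁ r₂ η : ℝ) (X₁ w₁ X₂ w₂ : ℝ → ℝ)
    (h1 : σ ≤ |Real.sin Ω₁|) (h2 : σ ≤ |Real.sin Ω₂|) (h12 : |Ω₁ - Ω₂| ≤ σ / 1000)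
    (hr₁ : 1 / 2 ≤ r₁) (hr₁' : r₁ ≤ 1) (hr₂ : 1 / 2 ≤ r₂) (hr₂' : r₂ ≤ 1) (hη : η ≤ σ / 1000)
    (hc₁ : Cur F Ω₁ r₁ η L X₁ w₁) (hc₂ : Cur F Ω₂ r₂ η L X₂ w₂) (t θ₁ θ₂ : ℝ)
    (ht : |t| ≤ σ / 1000) (e1 : (1 + t) * X₁ θ₁ = X₂ θ₂)
    (e2 : (1 + t) * X₁ (θ₁ - Ω₁) = X₂ (θ₂ - Ω₂)) :
    |Real.cos θ₁ - Real.cos θ₂| ≤ 1 / 20 ∧ |Real.sin θ₁ - Real.sin θ₂| ≤ 1 / 20 := by
  have hσ1 : σ ≤ 1 := h1.trans (Real.abs_sin_le_one _)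
  have hτ : σ / 1000 ≤ 1 / 1000 := by linarith
  have hD : |r₂ * Real.cos θ₂ - r₁ * Real.cos θ₁| ≤ 31 / 10 * (σ / 1000) :=
    K21_eps hτ ((hc₁.close θ₁).trans hη) ((hc₂.close θ₂).trans hη) ht (K21_one hr₁ hr₁' _) e1
  have hE : |r₂ * Real.cos (θ₂ - Ω₂) - r₁ * Real.cos (θ₁ - Ω₁)| ≤ 31 / 10 * (σ / 1000) :=
    K21_eps hτ ((hc₁.close (θ₁ - Ω₁)).trans hη) ((hc₂.close (θ₂ - Ω₂)).trans hη) ht
      (K21_one hr₁ hr₁' _) e2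
  have hcΩ := (Real.abs_cos_sub_cos_le Ω₁ Ω₂).trans h12
  have hsΩ := (Real.abs_sin_sub_sin_le Ω₁ Ω₂).trans h12
  have key : (r₂ * Real.sin θ₂ - r₁ * Real.sin θ₁) * Real.sin Ω₂ =
      (Real.cos Ω₁ - Real.cos Ω₂) * (r₁ * Real.cos θ₁) +
      (Real.sin Ω₁ - Real.sin Ω₂) * (r₁ * Real.sin θ₁) +
      (r₂ * Real.cos (θ₂ - Ω₂) - r₁ * Real.cos (θ₁ - Ω₁)) -
      (r₂ * Real.cos θ₂ - r₁ * Real.cos θ₁) * Real.cos Ω₂ := by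
    rw [Real.cos_sub, Real.cos_sub]
    ring
  have hS : |r₂ * Real.sin θ₂ - r₁ * Real.sin θ₁| ≤ 82 / 10 * (1 / 1000) := by
    have b1 := K21_abs_mul_le hcΩ (K21_one hr₁ hr₁' θ₁)
    have b2 := K21_abs_mul_le hsΩ (K21_one' hr₁ hr₁' θ₁)
    have b3 := K21_abs_mul_le hD (Real.abs_cos_le_one Ω₂)
    have b4 : |(r₂ * Real.sin θ₂ - r₁ * Real.sin θ₁) * Real.sin Ω₂| ≤ 82 / 10 * (σ / 1000) := by
      rw [key]
      have c1 := abs_sub ((Real.cos Ω₁ - Real.cos Ω₂) * (r₁ * Real.cos θ₁) +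
        (Real.sin Ω₁ - Real.sin Ω₂) * (r₁ * Real.sin θ₁) +
        (r₂ * Real.cos (θ₂ - Ω₂) - r₁ * Real.cos (θ₁ - Ω₁)))
        ((r₂ * Real.cos θ₂ - r₁ * Real.cos θ₁) * Real.cos Ω₂)
      have c2 := abs_add_le ((Real.cos Ω₁ - Real.cos Ω₂) * (r₁ * Real.cos θ₁) +
        (Real.sin Ω₁ - Real.sin Ω₂) * (r₁ * Real.sin θ₁))
        (r₂ * Real.cos (θ₂ - Ω₂) - r₁ * Real.cos (θ₁ - Ω₁))
      have c3 := abs_add_le ((Real.cos Ω₁ - Real.cos Ω₂) * (r₁ * Real.cos θ₁))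
        ((Real.sin Ω₁ - Real.sin Ω₂) * (r₁ * Real.sin θ₁))
      linarith
    rw [abs_mul] at b4
    have b5 := mul_le_mul_of_nonneg_left h2
      (abs_nonneg (r₂ * Real.sin θ₂ - r₁ * Real.sin θ₁))
    by_contra hcon
    push Not at hcon
    have b6 := mul_lt_mul_of_pos_right hcon hσ
    linarith
  have hD' : |r₂ * Real.cos θ₂ - r₁ * Real.cos θ₁| ≤ 31 / 10 * (1 / 1000) := by linarith
  have hr : |r₂ - r₁| ≤ 113 / 10 * (1 / 1000) := by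
    have g1 : r₂ * Real.cos (θ₂ - θ₁) ≤ r₂ := by
      have := mul_le_mul_of_nonneg_left (Real.cos_le_one (θ₂ - θ₁))
        (by linarith : (0 : ℝ) ≤ r₂)
      linarith
    have g2 : r₁ * Real.cos (θ₂ - θ₁) ≤ r₁ := by
      have := mul_le_mul_of_nonneg_left (Real.cos_le_one (θ₂ - θ₁))
        (by linarith : (0 : ℝ) ≤ r₁)
      linarith
    have g3 : r₂ * Real.cos (θ₂ - θ₁) - r₁ =
        (r₂ * Real.cos θ₂ - r₁ * Real.cos θ₁) * Real.cos θ₁ +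
        (r₂ * Real.sin θ₂ - r₁ * Real.sin θ₁) * Real.sin θ₁ := by
      rw [Real.cos_sub]
      have := Real.sin_sq_add_cos_sq θ₁
      linear_combination r₁ * this
    have g4 : r₂ - r₁ * Real.cos (θ₂ - θ₁) =
        (r₂ * Real.cos θ₂ - r₁ * Real.cos θ₁) * Real.cos θ₂ +
        (r₂ * Real.sin θ₂ - r₁ * Real.sin θ₁) * Real.sin θ₂ := by
      rw [Real.cos_sub]
      have := Real.sin_sq_add_cos_sq θ₂
      linear_combination (-r₂) * this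
    have k1 := abs_le.mp (K21_abs_mul_le hD' (Real.abs_cos_le_one θ₁))
    have k2 := abs_le.mp (K21_abs_mul_le hS (Real.abs_sin_le_one θ₁))
    have k3 := abs_le.mp (K21_abs_mul_le hD' (Real.abs_cos_le_one θ₂))
    have k4 := abs_le.mp (K21_abs_mul_le hS (Real.abs_sin_le_one θ₂))
    rw [abs_le]
    constructor
    · linarith [k1.1, k2.1]
    · linarith [k3.2, k4.2]
  constructor
  · rw [abs_sub_comm]
    have h3 : r₂ * (Real.cos θ₂ - Real.cos θ₁) =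
        (r₂ * Real.cos θ₂ - r₁ * Real.cos θ₁) - (r₂ - r₁) * Real.cos θ₁ := by ring
    have h4 : |r₂ * (Real.cos θ₂ - Real.cos θ₁)| ≤ 144 / 10 * (1 / 1000) := by
      rw [h3]
      have := abs_sub (r₂ * Real.cos θ₂ - r₁ * Real.cos θ₁) ((r₂ - r₁) * Real.cos θ₁)
      have := K21_abs_mul_le hr (Real.abs_cos_le_one θ₁)
      linarith
    exact (K21_div hr₂ h4).trans (by norm_num)
  · rw [abs_sub_comm]
    have h3 : r₂ * (Real.sin θ₂ - Real.sin θ₁) =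
        (r₂ * Real.sin θ₂ - r₁ * Real.sin θ₁) - (r₂ - r₁) * Real.sin θ₁ := by ring
    have h4 : |r₂ * (Real.sin θ₂ - Real.sin θ₁)| ≤ 195 / 10 * (1 / 1000) := by
      rw [h3]
      have := abs_sub (r₂ * Real.sin θ₂ - r₁ * Real.sin θ₁) ((r₂ - r₁) * Real.sin θ₁)
      have := K21_abs_mul_le hr (Real.abs_sin_le_one θ₁)
      linarith
    exact (K21_div hr₂ h4).trans (by norm_num)

end Pool.Agent.LibKam44
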