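import Pool.Agent.LibKam44.K20
import Pool.Agent.LibKam44.K21
set_option autoImplicit false
namespace Pool.Agent.LibKam44

private theorem K22_small {σ L : ℝ} (hσ : 0 < σ) (hL : 0 ≤ L) :
    ∃ K d₁ : ℝ, 0 < K ∧ 0 < d₁ ∧ ∀ (F F1 : ℝ → ℝ) (Ω₁ Ω₂ r₁ r₂ η : ℝ) (X₁ w₁ X₂ w₂ : ℝ → ℝ),
      Fo F F1 L → σ ≤ |Real.sin Ω₁| → σ ≤ |Real.sin Ω₂| → |Ω₁ - Ω₂| ≤ σ / 1000 → 1 / 2 ≤ r₁ →
      r₁ ≤ 1 → 1 / 2 ≤ r₂ → r₂ ≤ 1 → η ≤ σ / 1000 → Cur F Ω₁ r₁ η L X₁ w₁ →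
      Cur F Ω₂ r₂ η L X₂ w₂ → ∀ θ₁ θ₂ d : ℝ, 0 < d → d ≤ d₁ → |X₁ θ₁ - X₂ θ₂| ≤ d →
      |X₁ (θ₁ - Ω₁) - X₂ (θ₂ - Ω₂)| ≤ d → |Ω₁ - Ω₂| ≤ 2 * K * d := by
  obtain ⟨C₁, d₀, hC₁, hd₀, hrad⟩ := radial hσ hL
  obtain ⟨C₂, t₀, hC₂, ht₀, hstep⟩ := step hσ hL
  obtain ⟨C₃, hC₃⟩ : ∃ C₃, C₃ = 25 * C₂ / σ ^ 2 := ⟨_, rfl⟩
  obtain ⟨K, hK⟩ : ∃ K, K = 8 * C₃ * C₁ + 800 * C₁ * C₂ / σ := ⟨_, rfl⟩
  have hC₃0 : 0 < C₃ := by rw [hC₃]; positivity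
  have hK0 : 0 < K := by rw [hK]; positivity
  have hKa : 8 * C₃ * C₁ ≤ K := by
    rw [hK]
    have : 0 < 800 * C₁ * C₂ / σ := by positivity
    linarith
  have hKb : 800 * C₁ * C₂ / σ ≤ K := by
    rw [hK]
    have : 0 < 8 * C₃ * C₁ := by positivity
    linarith
  obtain ⟨d₁, hd₁⟩ : ∃ d₁, d₁ = min d₀ (min (1 / (40 * C₁)) (min (1 / (2 * K))
    (min (σ * t₀ / (20 * C₁)) (σ ^ 2 / (20000 * C₁))))) := ⟨_, rfl⟩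
  have hd₁0 : 0 < d₁ := by
    rw [hd₁]
    exact lt_min hd₀ (lt_min (by positivity) (lt_min (by positivity)
      (lt_min (by positivity) (by positivity))))
  refine ⟨K, d₁, hK0, hd₁0, ?_⟩
  intro F F1 Ω₁ Ω₂ r₁ r₂ η X₁ w₁ X₂ w₂ hF hs1 hs2 h12 hr1 hr1' hr2 hr2' hη hc1 hc2 θ₁ θ₂ d hd hdd
    hx hy
  have hda : d ≤ d₀ := hdd.trans (by rw [hd₁]; exact min_le_left _ _)
  have hdb : d ≤ 1 / (40 * C₁) := hdd.trans (by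
    rw [hd₁]; exact (min_le_right _ _).trans (min_le_left _ _))
  have hdc : d ≤ 1 / (2 * K) := hdd.trans (by
    rw [hd₁]; exact (min_le_right _ _).trans ((min_le_right _ _).trans (min_le_left _ _)))
  have hde : d ≤ σ * t₀ / (20 * C₁) := hdd.trans (by
    rw [hd₁]
    exact (min_le_right _ _).trans ((min_le_right _ _).trans
      ((min_le_right _ _).trans (min_le_left _ _))))
  have hdf : d ≤ σ ^ 2 / (20000 * C₁) := hdd.trans (by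
    rw [hd₁]
    exact (min_le_right _ _).trans ((min_le_right _ _).trans
      ((min_le_right _ _).trans (min_le_right _ _))))
  rw [le_div_iff₀ (by positivity)] at hdb hdc hde hdf
  obtain ⟨M, hM⟩ : ∃ M, M = 2 * C₁ * d := ⟨_, rfl⟩
  have hM0 : 0 < M := by rw [hM]; positivity
  have hMt : 10 * M / σ ≤ t₀ := by
    rw [div_le_iff₀ hσ, hM]
    linarith
  have hMs : 10 * M / σ ≤ σ / 1000 := by
    rw [div_le_iff₀ hσ, hM]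
    nlinarith
  obtain ⟨s, t, hs, ht, e1, e2⟩ := hrad F Ω₁ r₁ η X₁ w₁ hr1 hr1' hs1 hη hc1 θ₁ d (X₂ θ₂)
    (X₂ (θ₂ - Ω₂)) hd hda (by rw [abs_sub_comm]; exact hx) (by rw [abs_sub_comm]; exact hy)
  have hfb := frame_bounds hσ Ω₁ r₁ η X₁ w₁ hr1 hr1' hs1 hη hc1.close hc1.close1
  -- consequences of the bound on a_n
  have hsmall : ∀ (n : ℕ) (ψ t : ℝ), (n : ℝ) * (d * K) ≤ 1 →
      |t * Wr Ω₁ X₁ w₁ ψ| ≤ M + n * (4 * C₃ * M ^ 2) → |t| ≤ 10 * M / σ := by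
    intro n ψ t hn ha
    have h1 : (n : ℝ) * (4 * C₃ * M ^ 2) ≤ M := by
      have h2 : (n : ℝ) * (4 * C₃ * M) ≤ 1 := by
        calc (n : ℝ) * (4 * C₃ * M) = n * (d * (8 * C₃ * C₁)) := by rw [hM]; ring
          _ ≤ n * (d * K) := by gcongr
          _ ≤ 1 := hn
      calc (n : ℝ) * (4 * C₃ * M ^ 2) = (n * (4 * C₃ * M)) * M := by ring
        _ ≤ 1 * M := mul_le_mul_of_nonneg_right h2 hM0.le
        _ = M := one_mul M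
    have h3 := (hfb ψ).1
    rw [abs_mul] at ha
    rw [le_div_iff₀ hσ]
    have h4 : |t| * (σ / 5) ≤ |t| * |Wr Ω₁ X₁ w₁ ψ| := mul_le_mul_of_nonneg_left h3 (abs_nonneg _)
    linarith
  have hind : ∀ n : ℕ, (n : ℝ) * (d * K) ≤ 1 → ∃ ψ t, (1 + t) * X₁ ψ = X₂ (θ₂ + n * Ω₂) ∧
      (1 + t) * X₁ (ψ - Ω₁) = X₂ (θ₂ + n * Ω₂ - Ω₂) ∧
      |t * Wr Ω₁ X₁ w₁ ψ| ≤ M + n * (4 * C₃ * M ^ 2) ∧
      |ψ - θ₁ - n * Ω₁| ≤ C₁ * d + n * (C₂ * (10 * M / σ)) := by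
    intro n
    induction n with
    | zero =>
      intro _
      refine ⟨θ₁ + s, t, ?_, ?_, ?_, ?_⟩
      · rw [Nat.cast_zero, zero_mul, add_zero]
        exact e1.symm
      · rw [Nat.cast_zero, zero_mul, add_zero]
        exact e2.symm
      · rw [Nat.cast_zero, zero_mul, add_zero, abs_mul, hM]
        have h1 := (hfb (θ₁ + s)).2.1
        calc |t| * |Wr Ω₁ X₁ w₁ (θ₁ + s)| ≤ (C₁ * d) * 2 :=
              mul_le_mul ht h1 (abs_nonneg _) (by positivity)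
          _ = 2 * C₁ * d := by ring
      · rw [Nat.cast_zero, zero_mul, zero_mul, sub_zero, add_zero]
        have h1 : θ₁ + s - θ₁ = s := by ring
        rw [h1]
        exact hs
    | succ n ih =>
      intro hn
      push_cast at hn
      have hdK : 0 < d * K := mul_pos hd hK0
      have hn' : (n : ℝ) * (d * K) ≤ 1 := by nlinarith
      obtain ⟨ψ, t, i1, i2, i3, i4⟩ := ih hn'
      have ht1 := hsmall n ψ t hn' i3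
      obtain ⟨ψ', t', j1, j2, j3, j4⟩ := hstep F F1 Ω₁ r₁ η X₁ w₁ hF hr1 hr1' hs1 hη hc1 ψ t
        (ht1.trans hMt)
      refine ⟨ψ', t', ?_, ?_, ?_, ?_⟩
      · rw [← j1, i1, i2]
        have h1 := hc2.eqn (θ₂ + n * Ω₂)
        have h2 : θ₂ + ((n + 1 : ℕ) : ℝ) * Ω₂ = θ₂ + n * Ω₂ + Ω₂ := by
          push_cast
          ring
        rw [h2]
        linarith
      · rw [← j2, i1]
        congr 1
        push_cast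
        ring
      · have h1 : C₂ * t ^ 2 ≤ 4 * C₃ * M ^ 2 := by
          have h2 : t ^ 2 ≤ (10 * M / σ) ^ 2 := by
            rw [← sq_abs]
            exact pow_le_pow_left₀ (abs_nonneg _) ht1 2
          calc C₂ * t ^ 2 ≤ C₂ * (10 * M / σ) ^ 2 := mul_le_mul_of_nonneg_left h2 hC₂.le
            _ = 4 * C₃ * M ^ 2 := by
              rw [hC₃]
              field_simp
              ring
        have h3 := abs_sub_abs_le_abs_sub (t' * Wr Ω₁ X₁ w₁ ψ') (t * Wr Ω₁ X₁ w₁ ψ)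
        push_cast
        linarith
      · have h1 : ψ' - θ₁ - ((n + 1 : ℕ) : ℝ) * Ω₁ = (ψ' - ψ - Ω₁) + (ψ - θ₁ - n * Ω₁) := by
          push_cast
          ring
        rw [h1]
        refine (abs_add_le _ _).trans ?_
        have h2 : C₂ * |t| ≤ C₂ * (10 * M / σ) := mul_le_mul_of_nonneg_left ht1 hC₂.le
        push_cast
        linarith
  -- the phases
  have hcos : ∀ n : ℕ, (n : ℝ) * (d * K) ≤ 1 →
      99 / 100 ≤ Real.cos (θ₁ + n * Ω₁ - (θ₂ + n * Ω₂)) := by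
    intro n hn
    obtain ⟨ψ, t, i1, i2, i3, i4⟩ := hind n hn
    have ht1 := hsmall n ψ t hn i3
    obtain ⟨p1, p2⟩ := phase hσ F L Ω₁ Ω₂ r₁ r₂ η X₁ w₁ X₂ w₂ hs1 hs2 h12 hr1 hr1' hr2 hr2' hη
      hc1 hc2 t ψ (θ₂ + n * Ω₂) (ht1.trans hMs) i1 i2
    have hψ : |ψ - (θ₁ + n * Ω₁)| ≤ 1 / 20 := by
      have h1 : (n : ℝ) * (C₂ * (10 * M / σ)) ≤ 1 / 40 := by
        calc (n : ℝ) * (C₂ * (10 * M / σ)) = n * (d * (800 * C₁ * C₂ / σ)) / 40 := by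
              rw [hM]
              ring
          _ ≤ n * (d * K) / 40 := by gcongr
          _ ≤ 1 / 40 := by linarith
      have h2 : ψ - (θ₁ + n * Ω₁) = ψ - θ₁ - n * Ω₁ := by ring
      rw [h2]
      have h3 : C₁ * d ≤ 1 / 40 := by linarith
      linarith
    have q1 : |Real.cos ψ - Real.cos (θ₁ + n * Ω₁)| ≤ 1 / 20 :=
      (Real.abs_cos_sub_cos_le _ _).trans hψ
    have q2 : |Real.sin ψ - Real.sin (θ₁ + n * Ω₁)| ≤ 1 / 20 :=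
      (Real.abs_sin_sub_sin_le _ _).trans hψ
    have u1 : |Real.cos (θ₁ + n * Ω₁) - Real.cos (θ₂ + n * Ω₂)| ≤ 1 / 10 := by
      rw [abs_le] at p1 q1 ⊢
      constructor <;> linarith [p1.1, p1.2, q1.1, q1.2]
    have u2 : |Real.sin (θ₁ + n * Ω₁) - Real.sin (θ₂ + n * Ω₂)| ≤ 1 / 10 := by
      rw [abs_le] at p2 q2 ⊢
      constructor <;> linarith [p2.1, p2.2, q2.1, q2.2]
    rw [Real.cos_sub]
    have v1 := Real.sin_sq_add_cos_sq (θ₁ + n * Ω₁)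
    have v2 := Real.sin_sq_add_cos_sq (θ₂ + n * Ω₂)
    have v3 : (Real.cos (θ₁ + n * Ω₁) - Real.cos (θ₂ + n * Ω₂)) ^ 2 ≤ (1 / 10) ^ 2 :=
      sq_le_sq' (abs_le.1 u1).1 (abs_le.1 u1).2
    have v4 : (Real.sin (θ₁ + n * Ω₁) - Real.sin (θ₂ + n * Ω₂)) ^ 2 ≤ (1 / 10) ^ 2 :=
      sq_le_sq' (abs_le.1 u2).1 (abs_le.1 u2).2
    have e : Real.cos (θ₁ + n * Ω₁) * Real.cos (θ₂ + n * Ω₂) +
        Real.sin (θ₁ + n * Ω₁) * Real.sin (θ₂ + n * Ω₂) =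
        ((Real.sin (θ₁ + n * Ω₁) ^ 2 + Real.cos (θ₁ + n * Ω₁) ^ 2) +
          (Real.sin (θ₂ + n * Ω₂) ^ 2 + Real.cos (θ₂ + n * Ω₂) ^ 2) -
          (Real.cos (θ₁ + n * Ω₁) - Real.cos (θ₂ + n * Ω₂)) ^ 2 -
          (Real.sin (θ₁ + n * Ω₁) - Real.sin (θ₂ + n * Ω₂)) ^ 2) / 2 := by ring
    rw [e, v1, v2]
    linarith
  by_contra hcon
  push Not at hcon
  have hΔ0 : 0 < |Ω₁ - Ω₂| := lt_trans (by positivity) hcon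
  have hσ1 : σ ≤ 1 := hs1.trans (Real.abs_sin_le_one _)
  obtain ⟨n, hn⟩ : ∃ n : ℕ, n = ⌈1 / |Ω₁ - Ω₂|⌉₊ := ⟨_, rfl⟩
  have hn1 : 1 / |Ω₁ - Ω₂| ≤ n := by
    rw [hn]
    exact Nat.le_ceil _
  have hn2 : (n : ℝ) < 1 / |Ω₁ - Ω₂| + 1 := by
    rw [hn]
    exact Nat.ceil_lt_add_one (by positivity)
  have hn3 : 1 ≤ n * |Ω₁ - Ω₂| := by
    rwa [div_le_iff₀ hΔ0] at hn1
  have hn4 : n * |Ω₁ - Ω₂| ≤ 2 := by
    have h1 : (n : ℝ) * |Ω₁ - Ω₂| ≤ (1 / |Ω₁ - Ω₂| + 1) * |Ω₁ - Ω₂| :=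
      mul_le_mul_of_nonneg_right hn2.le hΔ0.le
    have h2 : (1 / |Ω₁ - Ω₂| + 1) * |Ω₁ - Ω₂| = 1 + |Ω₁ - Ω₂| := by
      field_simp
    rw [h2] at h1
    linarith
  have hn5 : (n : ℝ) * (d * K) ≤ 1 := by
    have h1 : 1 / |Ω₁ - Ω₂| ≤ 1 / (2 * K * d) := by
      apply one_div_le_one_div_of_le (by positivity) hcon.le
    have h2 : 1 / (2 * K * d) * (d * K) = 1 / 2 := by
      field_simp
    have h3 : (n : ℝ) * (d * K) ≤ (1 / (2 * K * d) + 1) * (d * K) :=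
      mul_le_mul_of_nonneg_right (by linarith) (by positivity)
    have h4 : (1 / (2 * K * d) + 1) * (d * K) = 1 / 2 + d * K := by
      rw [add_mul, h2, one_mul]
    rw [h4] at h3
    linarith
  have c0 := hcos 0 (by simp)
  have c1 := hcos n hn5
  rw [Nat.cast_zero, zero_mul, zero_mul, add_zero, add_zero] at c0
  have c2 : Real.cos (n * |Ω₁ - Ω₂|) = Real.cos ((θ₁ + n * Ω₁ - (θ₂ + n * Ω₂)) - (θ₁ - θ₂)) := by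
    have h1 : (θ₁ + n * Ω₁ - (θ₂ + n * Ω₂)) - (θ₁ - θ₂) = n * (Ω₁ - Ω₂) := by ring
    rw [h1, ← Real.cos_abs (n * (Ω₁ - Ω₂)), abs_mul, Nat.abs_cast]
  have c3 : Real.cos (n * |Ω₁ - Ω₂|) ≤ Real.cos 1 :=
    Real.cos_le_cos_of_nonneg_of_le_pi (by norm_num) (by linarith [Real.pi_gt_three]) hn3
  have c4 := Real.cos_one_le
  rw [c2, Real.cos_sub] at c3
  have s1 := Real.sin_sq_add_cos_sq (θ₁ + n * Ω₁ - (θ₂ + n * Ω₂))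
  have s2 := Real.sin_sq_add_cos_sq (θ₁ - θ₂)
  have s7 : (99 / 100 : ℝ) ^ 2 ≤ Real.cos (θ₁ + n * Ω₁ - (θ₂ + n * Ω₂)) ^ 2 :=
    pow_le_pow_left₀ (by norm_num) c1 2
  have s8 : (99 / 100 : ℝ) ^ 2 ≤ Real.cos (θ₁ - θ₂) ^ 2 := pow_le_pow_left₀ (by norm_num) c0 2
  have s3 : Real.sin (θ₁ + n * Ω₁ - (θ₂ + n * Ω₂)) ^ 2 ≤ 2 / 100 := by linarith
  have s4 : Real.sin (θ₁ - θ₂) ^ 2 ≤ 2 / 100 := by linarith
  have s9 := two_mul_le_add_sq (Real.sin (θ₁ + n * Ω₁ - (θ₂ + n * Ω₂))) (-Real.sin (θ₁ - θ₂))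
  rw [neg_sq] at s9
  have s5 : -(2 / 100) ≤ Real.sin (θ₁ + n * Ω₁ - (θ₂ + n * Ω₂)) * Real.sin (θ₁ - θ₂) := by
    linarith
  have s6 : (99 / 100) * (99 / 100) ≤
      Real.cos (θ₁ + n * Ω₁ - (θ₂ + n * Ω₂)) * Real.cos (θ₁ - θ₂) :=
    mul_le_mul c1 c0 (by norm_num) (by linarith)
  linarith

/-
ROW K22 (the rotation number is Lipschitz on the union of the curves). PLAN: let
d = max of the two differences. If d > d₁ (small constant) use |Ω₁-Ω₂| ≤ σ/1000 ≤ 1 ≤ d/d₁.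
If 0 < d ≤ d₁ (if d = 0 use the estimate with every small positive number in place of d, i.e. prove:
for all 0 < d ≤ d₁ with both differences ≤ d, |Ω₁-Ω₂| ≤ C d): by radial the point
(X₂ θ₂, X₂(θ₂-Ω₂)) is (1+t₀) K₁(ψ₀) with |t₀| ≤ C₁ d, |ψ₀-θ₁| ≤ C₁ d. Iterate step: sequences ψ_n, t_n,
(1+t_n) K₁(ψ_n) = K₂(θ₂ + n Ω₂) (Cur.eqn for the second curve), a_n = t_n W₁(ψ_n), |W| ∈ [σ/5, 2]:
|a_{n+1} - a_n| ≤ C₂ t_n^2 ≤ C₃ a_n^2. With M = C₄ d ≥ |a_0| (C₄ ≥ 2 C₁): induction |a_n| ≤ 2 M as long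
as n * 4 C₃ M ≤ 1, then |t_n| ≤ 10 M/σ ≤ min(t₀, σ/1000) for d ≤ d₁, |ψ_n - ψ_0 - n Ω₁| ≤ n C₅ d. So for
all n ≤ N = c₆/d: |ψ_n - θ₁ - n Ω₁| ≤ 1/20, and phase: |cos ψ_n - cos(θ₂+nΩ₂)|, |sin..| ≤ 1/20. Hence
|e^{i(θ₁+nΩ₁)} - e^{i(θ₂+nΩ₂)}| ≤ 1/4 for all 0 ≤ n ≤ N; with n = 0: |e^{in(Ω₂-Ω₁)} - 1| ≤ 1/2 for n ≤ N.
If |Ω₂-Ω₁| > 2/N choose n ≤ N with n|Ω₂-Ω₁| ∈ [1,2] (|Ω₂-Ω₁| ≤ 1/1000): |e^{ix}-1| = 2 sin(x/2) ≥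
2 sin(1/2) > 1/2, contradiction (or cos x ≤ cos 1 < 7/8). So |Ω₂-Ω₁| ≤ 2/N ≤ C d.
-/
theorem rot_lip {σ L : ℝ} (hσ : 0 < σ) (hL : 0 ≤ L) :
    ∃ C : ℝ, 0 < C ∧ ∀ (F F1 : ℝ → ℝ) (Ω₁ Ω₂ r₁ r₂ η : ℝ) (X₁ w₁ X₂ w₂ : ℝ → ℝ), Fo F F1 L →
      σ ≤ |Real.sin Ω₁| → σ ≤ |Real.sin Ω₂| → |Ω₁ - Ω₂| ≤ σ / 1000 → 1 / 2 ≤ r₁ → r₁ ≤ 1 →
      1 / 2 ≤ r₂ → r₂ ≤ 1 → η ≤ σ / 1000 → Cur F Ω₁ r₁ η L X₁ w₁ → Cur F Ω₂ r₂ η L X₂ w₂ →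
      ∀ θ₁ θ₂ : ℝ, |Ω₁ - Ω₂| ≤
        C * max |X₁ θ₁ - X₂ θ₂| |X₁ (θ₁ - Ω₁) - X₂ (θ₂ - Ω₂)| := by
  obtain ⟨K, d₁, hK, hd₁, h⟩ := K22_small hσ hL
  refine ⟨2 * K + 1 / d₁, by positivity, ?_⟩
  intro F F1 Ω₁ Ω₂ r₁ r₂ η X₁ w₁ X₂ w₂ hF hs1 hs2 h12 hr1 hr1' hr2 hr2' hη hc1 hc2 θ₁ θ₂
  obtain ⟨m, hm⟩ : ∃ m, m = max |X₁ θ₁ - X₂ θ₂| |X₁ (θ₁ - Ω₁) - X₂ (θ₂ - Ω₂)| := ⟨_, rfl⟩
  rw [← hm]
  have ha : |X₁ θ₁ - X₂ θ₂| ≤ m := by rw [hm]; exact le_max_left _ _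
  have hb : |X₁ (θ₁ - Ω₁) - X₂ (θ₂ - Ω₂)| ≤ m := by rw [hm]; exact le_max_right _ _
  have hm0 : 0 ≤ m := (abs_nonneg _).trans ha
  have key : ∀ d, 0 < d → d ≤ d₁ → m ≤ d → |Ω₁ - Ω₂| ≤ 2 * K * d := fun d hd hdd hmd =>
    h F F1 Ω₁ Ω₂ r₁ r₂ η X₁ w₁ X₂ w₂ hF hs1 hs2 h12 hr1 hr1' hr2 hr2' hη hc1 hc2 θ₁ θ₂ d hd hdd
      (ha.trans hmd) (hb.trans hmd)
  have hd1' : 0 < 1 / d₁ := by positivity
  rcases le_or_gt m d₁ with hmd | hmd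
  · rcases hm0.eq_or_lt with h0 | h0
    · rw [← h0, mul_zero]
      by_contra hcon
      push Not at hcon
      have h1 := key (min d₁ (|Ω₁ - Ω₂| / (4 * K))) (lt_min hd₁ (by positivity))
        (min_le_left _ _) (by
          rw [← h0]
          exact (lt_min hd₁ (by positivity)).le)
      have h2 : 2 * K * min d₁ (|Ω₁ - Ω₂| / (4 * K)) ≤ 2 * K * (|Ω₁ - Ω₂| / (4 * K)) :=
        mul_le_mul_of_nonneg_left (min_le_right _ _) (by positivity)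
      have h3 : 2 * K * (|Ω₁ - Ω₂| / (4 * K)) = |Ω₁ - Ω₂| / 2 := by
        field_simp
        ring
      linarith
    · have h1 := key m h0 hmd le_rfl
      have h2 : 0 ≤ 1 / d₁ * m := by positivity
      linarith
  · have hσ1 : σ ≤ 1 := hs1.trans (Real.abs_sin_le_one _)
    have h1 : 1 ≤ 1 / d₁ * m := by
      rw [div_mul_eq_mul_div, one_mul, le_div_iff₀ hd₁]
      linarith
    have h2 : 0 ≤ 2 * K * m := by positivity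
    linarith

end Pool.Agent.LibKam44
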