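import Pool.Agent.LibKam44.Defs
set_option autoImplicit false
namespace Pool.Agent.LibKam44
/-
ROW K23 (positive measure). PLAN: Z' = toMeasurable volume Z (same measure, measurable, contains Z).
For y ∈ [-1/4,1/4] put S_y = {x | (x,y) ∈ Z'}; it contains f(D), f Ω = x Ω y, and Ω is a C-Lipschitz
function of f Ω, so volume D ≤ C volume (f '' D) ≤ C volume S_y (LipschitzOnWith of an inverse function,
hausdorffMeasure_image_le for d = 1 and hausdorffMeasure_real / or
Real.volume_image_le type lemma). Then volume Z = volume Z' = ∫⁻ y, volume S_y ≥ (1/2) volume D / C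
(MeasureTheory.Measure.prod_apply_symm).
-/
theorem positive_measure {D : Set ℝ} {Z : Set (ℝ × ℝ)} {C : ℝ} (hC : 0 < C)
    (hD : 0 < MeasureTheory.volume D) (x : ℝ → ℝ → ℝ)
    (hx : ∀ Ω ∈ D, ∀ y ∈ Set.Icc (-(1 / 4) : ℝ) (1 / 4), (x Ω y, y) ∈ Z)
    (hlip : ∀ Ω ∈ D, ∀ Ω' ∈ D, ∀ y ∈ Set.Icc (-(1 / 4) : ℝ) (1 / 4),
      |Ω - Ω'| ≤ C * |x Ω y - x Ω' y|) : 0 < MeasureTheory.volume Z := by
  rw [pos_iff_ne_zero]
  intro hZ
  have h1 : (MeasureTheory.volume.prod MeasureTheory.volume : MeasureTheory.Measure (ℝ × ℝ))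
      (Prod.swap ⁻¹' Z) = 0 := by
    have hmp : MeasureTheory.MeasurePreserving
        (MeasurableEquiv.prodComm : ℝ × ℝ ≃ᵐ ℝ × ℝ)
        (MeasureTheory.volume.prod MeasureTheory.volume)
        (MeasureTheory.volume.prod MeasureTheory.volume) :=
      MeasureTheory.Measure.measurePreserving_swap
    have h := hmp.measure_preimage_equiv Z
    rw [← MeasureTheory.Measure.volume_eq_prod, hZ] at h
    exact h
  have h2 := MeasureTheory.Measure.measure_ae_null_of_prod_null h1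
  have hI : (MeasureTheory.volume : MeasureTheory.Measure ℝ) (Set.Icc (-(1 / 4)) (1 / 4)) ≠ 0 := by
    rw [Real.volume_Icc]
    norm_num
  obtain ⟨y, hy, hy0⟩ := MeasureTheory.Measure.exists_mem_of_measure_ne_zero_of_ae hI
    (MeasureTheory.ae_restrict_of_ae h2)
  have hsub : (fun Ω => x Ω y) '' D ⊆ Prod.mk y ⁻¹' (Prod.swap ⁻¹' Z) := by
    rintro _ ⟨Ω, hΩ, rfl⟩
    exact hx Ω hΩ y hy
  have him : MeasureTheory.volume ((fun Ω => x Ω y) '' D) = 0 :=
    MeasureTheory.measure_mono_null hsub hy0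
  have hinj : Set.InjOn (fun Ω => x Ω y) D := by
    intro Ω hΩ Ω' hΩ' h
    have h3 := hlip Ω hΩ Ω' hΩ' y hy
    have h4 : x Ω y = x Ω' y := h
    rw [h4, sub_self, abs_zero, mul_zero] at h3
    exact sub_eq_zero.1 (abs_eq_zero.1 (le_antisymm h3 (abs_nonneg _)))
  rcases D.eq_empty_or_nonempty with hDe | hDne
  · rw [hDe, MeasureTheory.measure_empty] at hD
    exact lt_irrefl _ hD
  haveI : Nonempty ℝ := ⟨0⟩
  have hLip : LipschitzOnWith C.toNNReal (Function.invFunOn (fun Ω => x Ω y) D)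
      ((fun Ω => x Ω y) '' D) := by
    refine LipschitzOnWith.of_dist_le_mul ?_
    rintro _ ⟨Ω, hΩ, rfl⟩ _ ⟨Ω', hΩ', rfl⟩
    have e1 : Function.invFunOn (fun Ω => x Ω y) D (x Ω y) = Ω := hinj.leftInvOn_invFunOn hΩ
    have e2 : Function.invFunOn (fun Ω => x Ω y) D (x Ω' y) = Ω' := hinj.leftInvOn_invFunOn hΩ'
    change dist (Function.invFunOn (fun Ω => x Ω y) D (x Ω y))
      (Function.invFunOn (fun Ω => x Ω y) D (x Ω' y)) ≤ _ * dist (x Ω y) (x Ω' y)
    rw [e1, e2, Real.dist_eq, Real.dist_eq, Real.coe_toNNReal C hC.le]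
    exact hlip Ω hΩ Ω' hΩ' y hy
  have hD' : Function.invFunOn (fun Ω => x Ω y) D '' ((fun Ω => x Ω y) '' D) = D := by
    rw [Set.image_image]
    conv_rhs => rw [← Set.image_id D]
    exact Set.image_congr fun Ω hΩ => hinj.leftInvOn_invFunOn hΩ
  have h5 := hLip.hausdorffMeasure_image_le (d := 1) zero_le_one
  rw [hD', MeasureTheory.hausdorffMeasure_real, him, mul_zero] at h5
  exact (lt_irrefl _) (hD.trans_le h5)

end Pool.Agent.LibKam44
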