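import Pool.Agent.LibKam44.K19
set_option autoImplicit false
namespace Pool.Agent.LibKam44
/-
ROW K24 (linear growth of the derivative on an invariant curve). PLAN: K θ = (X θ, X(θ-Ω)),
V θ = (w θ, w(θ-Ω)), N θ = W(θ)⁻¹ K θ. Tm F (K θ) = K (θ+Ω), and Tm F has the derivative
D(x,y) (a,b) = (F1 x * a - b, a) at K θ (|X| ≤ 11/10). D V θ = V(θ+Ω) (from w₊ + w₋ = F1(X) w, the derivative
of eqn), D N θ = N(θ+Ω) + S θ V(θ+Ω), S = Sr F F1 Ω X w (id1, id2 of K12 with E = E1 = 0, or directly);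
|S| ≤ some constant C₁ by frame_bounds and Fo. So by induction HasFDerivAt (Tm F)^[n] L_n (K θ) with
L_n V θ = V(θ + nΩ), L_n N θ = N(θ+nΩ) + s_n V(θ+nΩ), |s_n| ≤ n C₁. Every vector is
α V θ + β N θ with |α|, |β| ≤ C₂ ‖v‖ (determinant 1), so ‖L_n‖ ≤ C (n+1).
-/
theorem orbit {F : ℝ → ℝ} {Ω r η L : ℝ} {X w : ℝ → ℝ} (hc : Cur F Ω r η L X w) (θ : ℝ) (n : ℕ) :
    (Tm F)^[n] (X θ, X (θ - Ω)) = (X (θ + n * Ω), X (θ + n * Ω - Ω)) := by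
  induction n with
  | zero => simp
  | succ n ih =>
    rw [Function.iterate_succ_apply', ih]
    unfold Tm
    have h1 := hc.eqn (θ + n * Ω)
    have h2 : θ + ((n + 1 : ℕ) : ℝ) * Ω = θ + n * Ω + Ω := by push_cast; ring
    rw [h2, add_sub_cancel_right]
    congr 1
    show F (X (θ + n * Ω)) - X (θ + n * Ω - Ω) = X (θ + n * Ω + Ω)
    rw [← h1]
    ring

private theorem K24_alg2 {x xp xm w wp wm f F W Wp S : ℝ} (hF : xp + xm = F)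
    (hw : wp + wm = f * w) (hW : W = w * xm - wm * x) (hWp : Wp = wp * x - w * xp)
    (hW0 : W ≠ 0) (hWp0 : Wp ≠ 0) (hS : S = x * (x * f - F) / (W * Wp)) :
    x / W = x / Wp + S * w := by
  have e : x * Wp = x * W + w * (x * (x * f - F)) := by
    rw [hW, hWp, ← hF]
    linear_combination (x ^ 2) * hw
  rw [hS]
  field_simp
  linear_combination e

private theorem K24_alg1 {x xp xm w wp wm f F W Wp S : ℝ} (hF : xp + xm = F)
    (hw : wp + wm = f * w) (hW : W = w * xm - wm * x) (hWp : Wp = wp * x - w * xp)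
    (hW0 : W ≠ 0) (hWp0 : Wp ≠ 0) (hS : S = x * (x * f - F) / (W * Wp)) :
    f * (x / W) - xm / W = xp / Wp + S * wp := by
  have e : (f * x - xm) * Wp = xp * W + wp * (x * (x * f - F)) := by
    rw [hW, hWp, ← hF]
    linear_combination (x * xp) * hw
  rw [hS]
  field_simp
  linear_combination e

private noncomputable def K24_D (F1 : ℝ → ℝ) (x : ℝ) : ℝ × ℝ →L[ℝ] ℝ × ℝ :=
  (F1 x • ContinuousLinearMap.fst ℝ ℝ ℝ - ContinuousLinearMap.snd ℝ ℝ ℝ).prod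
    (ContinuousLinearMap.fst ℝ ℝ ℝ)

private theorem K24_D_apply (F1 : ℝ → ℝ) (x a b : ℝ) : K24_D F1 x (a, b) = (F1 x * a - b, a) := rfl

private theorem K24_hasD {F F1 : ℝ → ℝ} {x y : ℝ} (h : HasDerivAt F (F1 x) x) :
    HasFDerivAt (Tm F) (K24_D F1 x) (x, y) := by
  have h1 : HasFDerivAt (fun p : ℝ × ℝ => F p.1) (F1 x • ContinuousLinearMap.fst ℝ ℝ ℝ) (x, y) :=
    HasDerivAt.comp_hasFDerivAt (x, y) h hasFDerivAt_fst
  exact (h1.sub hasFDerivAt_snd).prodMk hasFDerivAt_fst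

private def K24_V (Ω : ℝ) (w : ℝ → ℝ) (θ : ℝ) : ℝ × ℝ := (w θ, w (θ - Ω))

private noncomputable def K24_N (Ω : ℝ) (X w : ℝ → ℝ) (θ : ℝ) : ℝ × ℝ :=
  (X θ / Wr Ω X w θ, X (θ - Ω) / Wr Ω X w θ)

private theorem K24_weq {F F1 : ℝ → ℝ} {Ω r η L : ℝ} {X w : ℝ → ℝ} (hF : Fo F F1 L)
    (hc : Cur F Ω r η L X w) (θ : ℝ) (hX : |X θ| ≤ 5 / 2) :
    w (θ + Ω) + w (θ - Ω) = F1 (X θ) * w θ := by
  have h1 : HasDerivAt (fun t => X (t + Ω)) (w (θ + Ω)) θ := (hc.der (θ + Ω)).comp_add_const θ Ω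
  have h2 : HasDerivAt (fun t => X (t - Ω)) (w (θ - Ω)) θ := (hc.der (θ - Ω)).comp_sub_const θ Ω
  have h3 : HasDerivAt (fun t => F (X t)) (F1 (X θ) * w θ) θ :=
    (hF.der (X θ) hX).comp θ (hc.der θ)
  have h4 : (fun t => X (t + Ω) + X (t - Ω)) = fun t => F (X t) := funext hc.eqn
  have h5 : HasDerivAt (fun t => X (t + Ω) + X (t - Ω)) (w (θ + Ω) + w (θ - Ω)) θ := h1.add h2
  rw [h4] at h5
  exact h5.unique h3

theorem growth {σ L : ℝ} (hσ : 0 < σ) (F F1 : ℝ → ℝ) (Ω r η : ℝ) (X w : ℝ → ℝ)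
    (hF : Fo F F1 L) (hr : 1 / 2 ≤ r) (hr1 : r ≤ 1) (hΩ : σ ≤ |Real.sin Ω|) (hη : η ≤ σ / 1000)
    (hc : Cur F Ω r η L X w) (θ : ℝ) :
    ∃ C : ℝ, ∀ n : ℕ, ‖fderiv ℝ ((Tm F)^[n]) (X θ, X (θ - Ω))‖ ≤ C * (n + 1) := by
  have hfb := frame_bounds hσ Ω r η X w hr hr1 hΩ hη hc.close hc.close1
  have hX : ∀ φ, |X φ| ≤ 11 / 10 := fun φ => (hfb φ).2.2.1
  have hw : ∀ φ, |w φ| ≤ 11 / 10 := fun φ => (hfb φ).2.2.2
  have hσ5 : 0 < σ / 5 := by positivity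
  have hW : ∀ φ, σ / 5 ≤ |Wr Ω X w φ| := fun φ => (hfb φ).1
  have hW0 : ∀ φ, Wr Ω X w φ ≠ 0 := fun φ => abs_pos.1 (lt_of_lt_of_le hσ5 (hW φ))
  have hX2 : ∀ φ, |X φ| ≤ 5 / 2 := fun φ => (hX φ).trans (by norm_num)
  have hL : 0 ≤ L := (abs_nonneg _).trans (hF.bd (X θ) (hX2 θ))
  let S : ℝ → ℝ := fun φ => X φ * (X φ * F1 (X φ) - F (X φ)) / (Wr Ω X w φ * Wr Ω X w (φ + Ω))
  let c₁ : ℝ := 11 / 10 * (11 / 10 * L + 11 / 5) / (σ / 5 * (σ / 5))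
  have hc₁ : 0 ≤ c₁ := by positivity
  have hSb : ∀ φ, |S φ| ≤ c₁ := by
    intro φ
    have h1 : |F (X φ)| ≤ 11 / 5 := by
      rw [← hc.eqn φ]
      refine (abs_add_le _ _).trans ?_
      have := hX (φ + Ω)
      have := hX (φ - Ω)
      linarith
    have h2 : |X φ * F1 (X φ) - F (X φ)| ≤ 11 / 10 * L + 11 / 5 := by
      refine (abs_sub _ _).trans ?_
      rw [abs_mul]
      have h3 : |X φ| * |F1 (X φ)| ≤ 11 / 10 * L :=
        mul_le_mul (hX φ) (hF.bd _ (hX2 φ)) (abs_nonneg _) (by norm_num)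
      linarith
    show |X φ * (X φ * F1 (X φ) - F (X φ)) / (Wr Ω X w φ * Wr Ω X w (φ + Ω))| ≤ c₁
    rw [abs_div, abs_mul, abs_mul (Wr Ω X w φ)]
    exact div_le_div₀ (by positivity) (mul_le_mul (hX φ) h2 (abs_nonneg _) (by norm_num))
      (by positivity) (mul_le_mul (hW φ) (hW _) hσ5.le (abs_nonneg _))
  have hWp : ∀ φ, Wr Ω X w (φ + Ω) = w (φ + Ω) * X φ - w φ * X (φ + Ω) := by
    intro φ
    unfold Wr
    rw [add_sub_cancel_right]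
  have hDV : ∀ φ, K24_D F1 (X φ) (K24_V Ω w φ) = K24_V Ω w (φ + Ω) := by
    intro φ
    unfold K24_V
    rw [K24_D_apply, ← K24_weq hF hc φ (hX2 φ), add_sub_cancel_right, add_sub_cancel_right]
  have hDN : ∀ φ, K24_D F1 (X φ) (K24_N Ω X w φ) = K24_N Ω X w (φ + Ω) + S φ • K24_V Ω w (φ + Ω) := by
    intro φ
    unfold K24_V K24_N
    rw [K24_D_apply, add_sub_cancel_right]
    have e1 := K24_alg1 (hc.eqn φ) (K24_weq hF hc φ (hX2 φ)) (rfl : Wr Ω X w φ = _) (hWp φ) (hW0 φ)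
      (hW0 (φ + Ω)) (rfl : S φ = _)
    have e2 := K24_alg2 (hc.eqn φ) (K24_weq hF hc φ (hX2 φ)) (rfl : Wr Ω X w φ = _) (hWp φ) (hW0 φ)
      (hW0 (φ + Ω)) (rfl : S φ = _)
    refine Prod.ext ?_ ?_
    · exact e1
    · exact e2
  have hstep : ∀ n : ℕ, ∃ (Λ : ℝ × ℝ →L[ℝ] ℝ × ℝ) (s : ℝ),
      HasFDerivAt ((Tm F)^[n]) Λ (X θ, X (θ - Ω)) ∧ Λ (K24_V Ω w θ) = K24_V Ω w (θ + n * Ω) ∧
      Λ (K24_N Ω X w θ) = K24_N Ω X w (θ + n * Ω) + s • K24_V Ω w (θ + n * Ω) ∧ |s| ≤ n * c₁ := by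
    intro n
    induction n with
    | zero =>
      refine ⟨ContinuousLinearMap.id ℝ (ℝ × ℝ), 0, hasFDerivAt_id _, ?_, ?_, ?_⟩
      · simp
      · simp
      · simp
    | succ n ih =>
      obtain ⟨Λ, s, h1, h2, h3, h4⟩ := ih
      have hθ : θ + ((n + 1 : ℕ) : ℝ) * Ω = θ + n * Ω + Ω := by push_cast; ring
      refine ⟨(K24_D F1 (X (θ + n * Ω))).comp Λ, S (θ + n * Ω) + s, ?_, ?_, ?_, ?_⟩
      · rw [Function.iterate_succ']
        have h5 : HasFDerivAt (Tm F) (K24_D F1 (X (θ + n * Ω))) ((Tm F)^[n] (X θ, X (θ - Ω))) := by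
          rw [orbit hc θ n]
          exact K24_hasD (hF.der _ (hX2 _))
        exact h5.comp _ h1
      · rw [ContinuousLinearMap.comp_apply, h2, hDV, hθ]
      · rw [ContinuousLinearMap.comp_apply, h3, map_add, map_smul, hDN, hDV, hθ, add_smul, add_assoc]
      · refine (abs_add_le _ _).trans ?_
        have := hSb (θ + n * Ω)
        push_cast
        linarith
  let cN : ℝ := 11 / 10 / (σ / 5)
  have hcN : 0 ≤ cN := by positivity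
  have hVn : ∀ φ, ‖K24_V Ω w φ‖ ≤ 11 / 10 := by
    intro φ
    unfold K24_V
    rw [Prod.norm_def]
    exact max_le (hw φ) (hw _)
  have hNc : ∀ φ ψ, |X ψ / Wr Ω X w φ| ≤ cN := by
    intro φ ψ
    rw [abs_div]
    exact div_le_div₀ (by norm_num) (hX ψ) hσ5 (hW φ)
  have hNn : ∀ φ, ‖K24_N Ω X w φ‖ ≤ cN := by
    intro φ
    unfold K24_N
    rw [Prod.norm_def]
    exact max_le (hNc φ φ) (hNc φ _)
  refine ⟨2 * cN * (11 / 10) + 2 * (11 / 10) * (cN + c₁ * (11 / 10)), fun n => ?_⟩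
  obtain ⟨Λ, s, h1, h2, h3, h4⟩ := hstep n
  rw [h1.fderiv]
  have hn1 : (0 : ℝ) ≤ n := Nat.cast_nonneg n
  refine ContinuousLinearMap.opNorm_le_bound _ (by positivity) fun v => ?_
  let al : ℝ := v.1 * (X (θ - Ω) / Wr Ω X w θ) - v.2 * (X θ / Wr Ω X w θ)
  let be : ℝ := w θ * v.2 - w (θ - Ω) * v.1
  have hdet : w θ * (X (θ - Ω) / Wr Ω X w θ) - w (θ - Ω) * (X θ / Wr Ω X w θ) = 1 := by
    have h5 : w θ * (X (θ - Ω) / Wr Ω X w θ) - w (θ - Ω) * (X θ / Wr Ω X w θ) =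
        Wr Ω X w θ / Wr Ω X w θ := by
      unfold Wr
      ring
    rw [h5, div_self (hW0 θ)]
  have hv : v = al • K24_V Ω w θ + be • K24_N Ω X w θ := by
    refine Prod.ext ?_ ?_
    · show v.1 = (v.1 * (X (θ - Ω) / Wr Ω X w θ) - v.2 * (X θ / Wr Ω X w θ)) * w θ +
        (w θ * v.2 - w (θ - Ω) * v.1) * (X θ / Wr Ω X w θ)
      linear_combination (-v.1) * hdet
    · show v.2 = (v.1 * (X (θ - Ω) / Wr Ω X w θ) - v.2 * (X θ / Wr Ω X w θ)) * w (θ - Ω) +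
        (w θ * v.2 - w (θ - Ω) * v.1) * (X (θ - Ω) / Wr Ω X w θ)
      linear_combination (-v.2) * hdet
  have hv1 : |v.1| ≤ ‖v‖ := norm_fst_le v
  have hv2 : |v.2| ≤ ‖v‖ := norm_snd_le v
  have hv0 : 0 ≤ ‖v‖ := norm_nonneg v
  have hal : |al| ≤ 2 * cN * ‖v‖ := by
    refine (abs_sub _ _).trans ?_
    rw [abs_mul, abs_mul]
    have h6 : |v.1| * |X (θ - Ω) / Wr Ω X w θ| ≤ ‖v‖ * cN :=
      mul_le_mul hv1 (hNc _ _) (abs_nonneg _) hv0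
    have h7 : |v.2| * |X θ / Wr Ω X w θ| ≤ ‖v‖ * cN :=
      mul_le_mul hv2 (hNc _ _) (abs_nonneg _) hv0
    linarith
  have hbe : |be| ≤ 2 * (11 / 10) * ‖v‖ := by
    refine (abs_sub _ _).trans ?_
    rw [abs_mul, abs_mul]
    have h6 : |w θ| * |v.2| ≤ 11 / 10 * ‖v‖ := mul_le_mul (hw _) hv2 (abs_nonneg _) (by norm_num)
    have h7 : |w (θ - Ω)| * |v.1| ≤ 11 / 10 * ‖v‖ := mul_le_mul (hw _) hv1 (abs_nonneg _) (by norm_num)
    linarith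
  have hΛ : Λ v = al • K24_V Ω w (θ + n * Ω) + be • (K24_N Ω X w (θ + n * Ω) + s • K24_V Ω w (θ + n * Ω)) := by
    conv_lhs => rw [hv]
    rw [map_add, map_smul, map_smul, h2, h3]
  rw [hΛ]
  have h8 : ‖al • K24_V Ω w (θ + n * Ω)‖ ≤ 2 * cN * ‖v‖ * (11 / 10) := by
    rw [norm_smul, Real.norm_eq_abs]
    exact mul_le_mul hal (hVn _) (norm_nonneg _) (by positivity)
  have h9 : ‖K24_N Ω X w (θ + n * Ω) + s • K24_V Ω w (θ + n * Ω)‖ ≤ cN + n * c₁ * (11 / 10) := by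
    refine (norm_add_le _ _).trans ?_
    refine add_le_add (hNn _) ?_
    rw [norm_smul, Real.norm_eq_abs]
    exact mul_le_mul h4 (hVn _) (norm_nonneg _) (by positivity)
  have h10 : ‖be • (K24_N Ω X w (θ + n * Ω) + s • K24_V Ω w (θ + n * Ω))‖ ≤
      2 * (11 / 10) * ‖v‖ * (cN + n * c₁ * (11 / 10)) := by
    rw [norm_smul, Real.norm_eq_abs]
    exact mul_le_mul hbe h9 (norm_nonneg _) (by positivity)
  refine (norm_add_le _ _).trans ((add_le_add h8 h10).trans ?_)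
  have h11 : 0 ≤ ‖v‖ * n := by positivity
  have h12 : (2 * cN * (11 / 10) + 2 * (11 / 10) * (cN + c₁ * (11 / 10))) * (n + 1) * ‖v‖ -
      (2 * cN * ‖v‖ * (11 / 10) + 2 * (11 / 10) * ‖v‖ * (cN + n * c₁ * (11 / 10))) =
      2 * cN * (11 / 10) * (‖v‖ * n) + 2 * (11 / 10) * cN * (‖v‖ * n) +
        2 * (11 / 10) * (c₁ * (11 / 10)) * ‖v‖ := by ring
  have h13 : 0 ≤ 2 * cN * (11 / 10) * (‖v‖ * n) + 2 * (11 / 10) * cN * (‖v‖ * n) +
        2 * (11 / 10) * (c₁ * (11 / 10)) * ‖v‖ := by positivity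
  linarith

end Pool.Agent.LibKam44
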