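import Pool.Agent.LibKam44.Defs
set_option autoImplicit false
namespace Pool.Agent.LibKam44
/-
ROW K25 (scaling). PLAN: scale_series: g n = f n δ^(n-3) for n ≥ 4; with δ₀ = R/12:
|g n| (n+1)^2 3^n = δ |f n| R^n (n+1)^2 (3/R)^n δ^(n-4) ≤ δ |f n| R^n (n+1)^2 (3/R)^4 (3δ/R)^(n-4)
and (n+1)^2 4^(-(n-4)) is bounded; δ^2 (γ z^3 + ∑_{n≥4} f n δ^(n-3) z^n) + 2 c z = (∑ f n (δ z)^n)/δ.
scale_iter: (Tm F)^[n] (δ • p) = δ • (Tm (fun z => F(δ z)/δ))^[n] p by induction.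
scale_fderiv: (Tm F)^[n] = (δ • ·) ∘ (Tm Fδ)^[n] ∘ (δ⁻¹ • ·) as functions; fderiv_comp with
the linear equivalences (fderiv_const_smul, fderiv_comp_smul or
ContinuousLinearEquiv.comp_fderiv; they hold without differentiability because the maps are equivalences).
scale_measure: volume (δ • Z) = δ^2 volume Z (MeasureTheory.Measure.addHaar_smul).
-/
private theorem K25_sq (n : ℕ) : (((n + 4 : ℕ) : ℝ) + 1) ^ 2 ≤ 25 * 4 ^ n := by
  induction n with
  | zero => norm_num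
  | succ n ih =>
    push_cast at ih ⊢
    have h0 : (0 : ℝ) ≤ n := Nat.cast_nonneg n
    calc ((n : ℝ) + 1 + 4 + 1) ^ 2 ≤ 4 * ((n : ℝ) + 4 + 1) ^ 2 := by nlinarith
      _ ≤ 4 * (25 * 4 ^ n) := by linarith
      _ = 25 * 4 ^ (n + 1) := by ring

private theorem K25_term {a R δ : ℝ} (hR : 0 < R) (hδ : 0 < δ) (hδR : δ ≤ R / 12) (n : ℕ) :
    |a * δ ^ (n + 1)| * (((n + 4 : ℕ) : ℝ) + 1) ^ 2 * 3 ^ (n + 4) ≤
      (2025 / R ^ 4 * δ) * (|a| * R ^ (n + 4)) := by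
  have h1 : δ ^ n ≤ (R / 12) ^ n := pow_le_pow_left₀ hδ.le hδR n
  have h2 := K25_sq n
  rw [abs_mul, abs_of_pos (pow_pos hδ (n + 1))]
  calc |a| * δ ^ (n + 1) * (((n + 4 : ℕ) : ℝ) + 1) ^ 2 * 3 ^ (n + 4)
      = (|a| * δ * 3 ^ (n + 4)) * (δ ^ n * (((n + 4 : ℕ) : ℝ) + 1) ^ 2) := by ring
    _ ≤ (|a| * δ * 3 ^ (n + 4)) * ((R / 12) ^ n * (25 * 4 ^ n)) := by
        apply mul_le_mul_of_nonneg_left _ (by positivity)
        exact mul_le_mul h1 h2 (by positivity) (by positivity)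
    _ = (2025 / R ^ 4 * δ) * (|a| * R ^ (n + 4)) := by
        have e : (R / 12) ^ n * 4 ^ n * 3 ^ n = R ^ n := by
          rw [← mul_pow, ← mul_pow]
          congr 1
          ring
        calc (|a| * δ * 3 ^ (n + 4)) * ((R / 12) ^ n * (25 * 4 ^ n))
            = |a| * δ * 2025 * ((R / 12) ^ n * 4 ^ n * 3 ^ n) := by ring
          _ = |a| * δ * 2025 * R ^ n := by rw [e]
          _ = _ := by
            rw [pow_add]
            field_simp

theorem scale_series {f : ℕ → ℝ} {R c γ : ℝ} (hR : 0 < R)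
    (hs : Summable (fun n : ℕ => |f n| * R ^ n)) (h0 : f 0 = 0) (h1 : f 1 = 2 * c)
    (h2 : f 2 = 0) (h3 : f 3 = γ) :
    ∃ C δ₀ : ℝ, 0 < C ∧ 0 < δ₀ ∧ 3 * δ₀ < R ∧ ∀ δ : ℝ, 0 < δ → δ ≤ δ₀ →
      PS (fun n => if n < 4 then 0 else f n * δ ^ (n - 3)) (C * δ) ∧
      ∀ z : ℝ, |z| ≤ 3 → (∑' n : ℕ, f n * (δ * z) ^ n) / δ =
        Fn c (δ ^ 2) (fun z => γ * z ^ 3 +
          H (fun n => if n < 4 then 0 else f n * δ ^ (n - 3)) z) z := by
  obtain ⟨S, hS⟩ : ∃ S, S = ∑' n : ℕ, |f n| * R ^ n := ⟨_, rfl⟩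
  have hS0 : 0 ≤ S := hS ▸ tsum_nonneg fun n => by positivity
  refine ⟨2025 / R ^ 4 * S + 1, R / 12, by positivity, by positivity, by linarith, ?_⟩
  intro δ hδ hδR
  have hs4 : Summable (fun n : ℕ => |f (n + 4)| * R ^ (n + 4)) :=
    (summable_nat_add_iff 4).2 hs
  have hS4 : ∑' n : ℕ, |f (n + 4)| * R ^ (n + 4) ≤ S := by
    rw [hS, ← hs.sum_add_tsum_nat_add 4]
    have : 0 ≤ ∑ i ∈ Finset.range 4, |f i| * R ^ i := Finset.sum_nonneg fun i _ => by positivity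
    linarith
  have hg4 : ∀ n : ℕ, (fun n => if n < 4 then 0 else f n * δ ^ (n - 3)) (n + 4) =
      f (n + 4) * δ ^ (n + 1) := by
    intro n
    simp only [show ¬ (n + 4 < 4) by omega, if_false]
    rfl
  have hsum4 : Summable (fun n : ℕ => |(fun n => if n < 4 then 0 else f n * δ ^ (n - 3)) (n + 4)| *
      (((n + 4 : ℕ) : ℝ) + 1) ^ 2 * 3 ^ (n + 4)) := by
    refine Summable.of_nonneg_of_le (fun n => by positivity) (fun n => ?_)
      (hs4.mul_left (2025 / R ^ 4 * δ))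
    rw [hg4]
    exact K25_term hR hδ hδR n
  have hsum : Summable (fun n : ℕ => |(fun n => if n < 4 then 0 else f n * δ ^ (n - 3)) n| *
      ((n : ℝ) + 1) ^ 2 * 3 ^ n) := (summable_nat_add_iff 4).1 hsum4
  refine ⟨⟨hsum, ?_⟩, ?_⟩
  · rw [← hsum.sum_add_tsum_nat_add 4]
    have e1 : ∑ i ∈ Finset.range 4, |(fun n => if n < 4 then 0 else f n * δ ^ (n - 3)) i| *
      ((i : ℝ) + 1) ^ 2 * 3 ^ i = 0 := by
      refine Finset.sum_eq_zero fun i hi => ?_
      have : i < 4 := Finset.mem_range.1 hi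
      simp [this]
    rw [e1, zero_add]
    calc ∑' n : ℕ, |(fun n => if n < 4 then 0 else f n * δ ^ (n - 3)) (n + 4)| *
          (((n + 4 : ℕ) : ℝ) + 1) ^ 2 * 3 ^ (n + 4)
        ≤ ∑' n : ℕ, (2025 / R ^ 4 * δ) * (|f (n + 4)| * R ^ (n + 4)) := by
          refine Summable.tsum_le_tsum (fun n => ?_) hsum4 (hs4.mul_left _)
          rw [hg4]
          exact K25_term hR hδ hδR n
      _ = (2025 / R ^ 4 * δ) * ∑' n : ℕ, (|f (n + 4)| * R ^ (n + 4)) := tsum_mul_left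
      _ ≤ (2025 / R ^ 4 * δ) * S := mul_le_mul_of_nonneg_left hS4 (by positivity)
      _ ≤ (2025 / R ^ 4 * S + 1) * δ := by nlinarith
  · intro z hz
    have hδz : |δ * z| ≤ R := by
      rw [abs_mul, abs_of_pos hδ]
      nlinarith [abs_nonneg z]
    have hfs : Summable (fun n : ℕ => f n * (δ * z) ^ n) := by
      refine Summable.of_norm_bounded hs fun n => ?_
      rw [Real.norm_eq_abs, abs_mul, abs_pow]
      exact mul_le_mul_of_nonneg_left (pow_le_pow_left₀ (abs_nonneg _) hδz n) (abs_nonneg _)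
    have hfs4 : Summable (fun n : ℕ => f (n + 4) * (δ * z) ^ (n + 4)) :=
      (summable_nat_add_iff 4).2 hfs
    have hgs4 : Summable (fun n : ℕ => (fun n => if n < 4 then 0 else f n * δ ^ (n - 3)) (n + 4) *
        z ^ (n + 4)) := by
      have := hfs4.mul_left (δ ^ 3)⁻¹
      refine this.congr fun n => ?_
      rw [hg4, mul_pow]
      field_simp
      ring
    have hgs : Summable (fun n : ℕ => (fun n => if n < 4 then 0 else f n * δ ^ (n - 3)) n *
        z ^ n) := (summable_nat_add_iff 4).1 hgs4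
    have hH : H (fun n => if n < 4 then 0 else f n * δ ^ (n - 3)) z =
        ∑' n : ℕ, (δ ^ 3)⁻¹ * (f (n + 4) * (δ * z) ^ (n + 4)) := by
      unfold H
      rw [← hgs.sum_add_tsum_nat_add 4]
      have e1 : ∑ i ∈ Finset.range 4, (fun n => if n < 4 then 0 else f n * δ ^ (n - 3)) i *
          z ^ i = 0 := by
        refine Finset.sum_eq_zero fun i hi => ?_
        have : i < 4 := Finset.mem_range.1 hi
        simp [this]
      rw [e1, zero_add]
      refine tsum_congr fun n => ?_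
      rw [hg4, mul_pow]
      field_simp
      ring
    unfold Fn
    beta_reduce
    rw [hH, tsum_mul_left, ← hfs.sum_add_tsum_nat_add 4]
    simp only [Finset.sum_range_succ, Finset.sum_range_zero, h0, h1, h2, h3]
    field_simp
    ring

private theorem K25_step (F : ℝ → ℝ) {δ : ℝ} (hδ : 0 < δ) (p : ℝ × ℝ) :
    Tm F (δ • p) = δ • Tm (fun z => F (δ * z) / δ) p := by
  unfold Tm
  ext
  · simp only [Prod.smul_fst, Prod.smul_snd, smul_eq_mul, Prod.smul_mk]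
    field_simp
  · simp

theorem scale_iter (F : ℝ → ℝ) {δ : ℝ} (hδ : 0 < δ) (n : ℕ) (p : ℝ × ℝ) :
    (Tm F)^[n] (δ • p) = δ • (Tm (fun z => F (δ * z) / δ))^[n] p := by
  induction n generalizing p with
  | zero => rfl
  | succ n ih => rw [Function.iterate_succ_apply, Function.iterate_succ_apply, K25_step F hδ, ih]

theorem scale_fderiv (F : ℝ → ℝ) {δ : ℝ} (hδ : 0 < δ) (n : ℕ) (p : ℝ × ℝ) :
    fderiv ℝ ((Tm F)^[n]) (δ • p) = fderiv ℝ ((Tm (fun z => F (δ * z) / δ))^[n]) p := by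
  obtain ⟨A, hA⟩ : ∃ A, A = (Tm (fun z => F (δ * z) / δ))^[n] := ⟨_, rfl⟩
  have h1 : (Tm F)^[n] = δ • (fun q => A (δ⁻¹ • q)) := by
    funext q
    have := scale_iter F hδ n (δ⁻¹ • q)
    rw [smul_inv_smul₀ hδ.ne'] at this
    rw [this, hA]
    rfl
  rw [h1, fderiv_const_smul_field, Pi.smul_apply, fderiv_comp_smul, inv_smul_smul₀ hδ.ne', smul_smul,
    mul_inv_cancel₀ hδ.ne', one_smul, hA]

theorem scale_measure {δ : ℝ} (hδ : 0 < δ) {Z : Set (ℝ × ℝ)}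
    (hZ : 0 < MeasureTheory.volume Z) :
    0 < MeasureTheory.volume {q : ℝ × ℝ | ∃ p ∈ Z, q = δ • p} := by
  open scoped Pointwise in
  have h1 : {q : ℝ × ℝ | ∃ p ∈ Z, q = δ • p} = δ • Z := by
    ext q
    rw [Set.mem_smul_set]
    constructor
    · rintro ⟨p, hp, rfl⟩
      exact ⟨p, hp, rfl⟩
    · rintro ⟨p, hp, rfl⟩
      exact ⟨p, hp, rfl⟩
  rw [h1, MeasureTheory.Measure.addHaar_smul]
  exact ENNReal.mul_pos (by
    rw [Ne, ENNReal.ofReal_eq_zero, not_le]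
    positivity) hZ.ne'

end Pool.Agent.LibKam44
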