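import Pool.Agent.LibKam44.K10
import Pool.Agent.LibKam44.K11
import Pool.Agent.LibKam44.K15
import Pool.Agent.LibKam44.K16
import Pool.Agent.LibKam44.K17
import Pool.Agent.LibKam44.K18
import Pool.Agent.LibKam44.K22
import Pool.Agent.LibKam44.K23
import Pool.Agent.LibKam44.K24
import Pool.Agent.LibKam44.K25
set_option autoImplicit false
namespace Pool.Agent.LibKam44
/- ROW K26 (assembly; helper44). -/

open Filter Topology

/-- from the analytic solution to an invariant curve -/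
theorem K26_cur {σ η Ω r c ν B : ℝ} {Φ F X : ℝ → ℝ} (hσ : 0 < σ) (hr : 1 / 2 ≤ r)
    (hr1 : r ≤ 1) (hΩ : σ ≤ |Real.sin Ω|) (hη : η ≤ σ / 64) (hX : Differentiable ℝ X)
    (h1 : A (1 / 4) η (fun θ => X θ - r * Real.cos θ))
    (h2 : A (1 / 4) η (fun θ => deriv X θ + r * Real.sin θ))
    (hE : ∀ θ, Er (Fn c ν Φ) Ω X θ = 0) (hF : ∀ z : ℝ, |z| < 3 → F z = Fn c ν Φ z) :
    Cur F Ω r η (10 + B + 8) X (deriv X) ∨ B < 0 := by
  by_cases hB : B < 0
  · exact Or.inr hB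
  left
  push Not at hB
  obtain ⟨hXA, hwA, -, -⟩ := K14_frame hσ hr hr1 hΩ (by norm_num) (by norm_num) hη h1 h2
  obtain ⟨hw, hwd⟩ := A_deriv (by norm_num : (0 : ℝ) < 1 / 4) le_rfl hwA
  have hX3 : ∀ θ, |X θ| < 3 := fun θ =>
    lt_of_le_of_lt (A_abs (by norm_num) hXA θ) (by norm_num)
  constructor
  · intro θ
    rw [hF _ (hX3 θ)]
    have := hE θ
    rw [Er] at this
    linarith
  · exact fun θ => (hX θ).hasDerivAt
  · exact A_per hXA
  · exact fun θ => A_abs (by norm_num) h1 θ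
  · exact fun θ => A_abs (by norm_num) h2 θ
  · intro θ φ
    have hb : ∀ x, |deriv (deriv X) x| ≤ 8 := by
      intro x
      have := A_abs (by norm_num) hwd x
      refine this.trans (by norm_num)
    have hL : LipschitzWith 8 (deriv X) := by
      apply lipschitzWith_of_nnnorm_deriv_le hw
      intro x
      have := hb x
      rw [← NNReal.coe_le_coe]
      simpa using this
    have h := hL.dist_le_mul θ φ
    rw [Real.dist_eq, Real.dist_eq] at h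
    have h8 : ((8 : NNReal) : ℝ) = 8 := by norm_num
    rw [h8] at h
    refine h.trans ?_
    apply mul_le_mul_of_nonneg_right _ (abs_nonneg _)
    linarith

/-- the force is admissible -/
theorem K26_force {c ν B : ℝ} {Φ Φ1 F : ℝ → ℝ} (hc : |c| ≤ 1) (hν : 0 < ν) (hν1 : ν ≤ 1)
    (hN : NL Φ Φ1 B) (hF : ∀ z : ℝ, |z| < 3 → F z = Fn c ν Φ z) :
    Fo F (Fd c ν Φ1) (10 + B + 8) := by
  have hB := hN.nonneg
  constructor
  · intro z hz
    have hz3 : |z| < 3 := by linarith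
    have h1 := ((hasDerivAt_id z).const_mul (2 * c)).add ((hN.der z hz3).const_mul ν)
    have h2 : HasDerivAt (Fn c ν Φ) (Fd c ν Φ1 z) z := by
      refine h1.congr_deriv ?_
      rw [Fd]
      ring
    refine h2.congr_of_eventuallyEq ?_
    have h3 : {x : ℝ | |x| < 3} ∈ 𝓝 z := (isOpen_lt continuous_abs continuous_const).mem_nhds hz3
    filter_upwards [h3] with x hx
    exact hF x hx
  · intro z hz
    have h1 : |Φ1 z| ≤ B := by
      have h2 := hN.val1 0 (fun _ => z) le_rfl (A_mono le_rfl (by linarith) (A_const 0 z))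
      exact A_abs le_rfl h2 0
    rw [Fd]
    calc |2 * c + ν * Φ1 z| ≤ |2 * c| + |ν * Φ1 z| := abs_add_le _ _
      _ = 2 * |c| + ν * |Φ1 z| := by rw [abs_mul, abs_mul, abs_two, abs_of_pos hν]
      _ ≤ 2 * 1 + 1 * B := by
          apply add_le_add
          · linarith
          · exact mul_le_mul hν1 h1 (abs_nonneg _) zero_le_one
      _ ≤ _ := by linarith
  · intro z w hz hw
    have h1 := hN.lip z w hz hw
    rw [Fd, Fd]
    have e : 2 * c + ν * Φ1 z - (2 * c + ν * Φ1 w) = ν * (Φ1 z - Φ1 w) := by ring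
    rw [e, abs_mul, abs_of_pos hν]
    calc ν * |Φ1 z - Φ1 w| ≤ 1 * (B * |z - w|) :=
          mul_le_mul hν1 h1 (abs_nonneg _) zero_le_one
      _ ≤ (10 + B + 8) * |z - w| := by
          rw [one_mul]
          apply mul_le_mul_of_nonneg_right _ (abs_nonneg _)
          linarith

/-- the frequencies -/
theorem K26_freq {α γ ρ₁ : ℝ} (hγ : 0 < γ) (hα : 0 < α) (hα' : α < Real.pi) (hρ : 0 < ρ₁) :
    ∃ ν₀ : ℝ, 0 < ν₀ ∧ ∀ ν : ℝ, 0 < ν → ν ≤ ν₀ → ∃ p ℓ : ℝ, 100 * (γ / 400 * ν) ≤ ℓ ∧ ℓ ≤ 1 ∧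
      ∀ Ω ∈ Set.Icc p (p + ℓ), |Ω - α| ≤ ρ₁ ∧ 3 / 16 * ν * γ ≤ 2 * Real.cos Ω - 2 * Real.cos α ∧
        2 * Real.cos Ω - 2 * Real.cos α ≤ 3 / 4 * ν * γ := by
  set c := Real.cos α with hc
  have hc1 : c < 1 := by
    rw [hc, ← Real.cos_zero]
    exact Real.cos_lt_cos_of_nonneg_of_le_pi le_rfl hα'.le hα
  have hcm : -1 ≤ c := Real.neg_one_le_cos α
  have hac : Real.arccos c = α := Real.arccos_cos hα.le hα'.le
  have hcont : Tendsto (fun ν : ℝ => Real.arccos (c + 3 / 8 * ν * γ)) (𝓝 0) (𝓝 α) := by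
    have h1 : Continuous (fun ν : ℝ => Real.arccos (c + 3 / 8 * ν * γ)) := by
      exact Real.continuous_arccos.comp (by fun_prop)
    have h2 := h1.tendsto 0
    simp only [mul_zero, zero_mul, add_zero] at h2
    rwa [hac] at h2
  have hm : 0 < min ρ₁ 1 := lt_min hρ one_pos
  obtain ⟨a, ha, hab⟩ := Metric.tendsto_nhds_nhds.1 hcont (min ρ₁ 1) hm
  refine ⟨min (a / 2) ((1 - c) / γ), lt_min (by positivity) (div_pos (by linarith) hγ), ?_⟩
  intro ν hν hνle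
  have h1 : ν ≤ a / 2 := hνle.trans (min_le_left _ _)
  have h2 : ν ≤ (1 - c) / γ := hνle.trans (min_le_right _ _)
  rw [le_div_iff₀ hγ] at h2
  have hνγ : 0 < ν * γ := by positivity
  have h3 := hab (x := ν) (by rw [Real.dist_eq, sub_zero, abs_of_pos hν]; linarith)
  rw [Real.dist_eq] at h3
  set p := Real.arccos (c + 3 / 8 * ν * γ) with hp
  set p' := Real.arccos (c + 3 / 32 * ν * γ) with hp'
  have hcp : Real.cos p = c + 3 / 8 * ν * γ := by
    rw [hp]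
    apply Real.cos_arccos <;> nlinarith
  have hcp' : Real.cos p' = c + 3 / 32 * ν * γ := by
    rw [hp']
    apply Real.cos_arccos <;> nlinarith
  have hpp' : p ≤ p' := Real.arccos_le_arccos (by nlinarith)
  have hp'α : p' ≤ α := by
    rw [← hac]
    exact Real.arccos_le_arccos (by nlinarith)
  have hp0 : 0 ≤ p := Real.arccos_nonneg _
  have hm1 : |p - α| < ρ₁ := lt_of_lt_of_le h3 (min_le_left _ _)
  have hm2 : |p - α| < 1 := lt_of_lt_of_le h3 (min_le_right _ _)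
  rw [abs_lt] at hm1 hm2
  refine ⟨p, p' - p, ?_, by linarith, ?_⟩
  · have h4 : |Real.cos p - Real.cos p'| ≤ |p - p'| := by
      have := Real.lipschitzWith_cos.dist_le_mul p p'
      rw [Real.dist_eq, Real.dist_eq] at this
      simpa using this
    rw [hcp, hcp', abs_sub_comm p p', abs_of_nonneg (by linarith : 0 ≤ p' - p)] at h4
    have h5 := le_abs_self (c + 3 / 8 * ν * γ - (c + 3 / 32 * ν * γ))
    nlinarith
  · intro Ω hΩ
    rw [add_sub_cancel] at hΩ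
    have h0Ω : 0 ≤ Ω := hp0.trans hΩ.1
    have hΩπ : Ω ≤ Real.pi := by linarith [hΩ.2]
    have h6 : Real.cos Ω ≤ Real.cos p := Real.cos_le_cos_of_nonneg_of_le_pi hp0 hΩπ hΩ.1
    have h7 : Real.cos p' ≤ Real.cos Ω :=
      Real.cos_le_cos_of_nonneg_of_le_pi h0Ω (by linarith) hΩ.2
    rw [hcp] at h6
    rw [hcp'] at h7
    refine ⟨?_, by linarith, by linarith⟩
    rw [abs_le]
    constructor <;> linarith [hΩ.1, hΩ.2]

theorem kam_main {F : ℝ → ℝ} {f : ℕ → ℝ} {R α : ℝ} (hR : 0 < R)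
    (hs : Summable (fun n : ℕ => |f n| * R ^ n))
    (hF : ∀ x : ℝ, |x| < R → F x = ∑' n : ℕ, f n * x ^ n)
    (h0 : f 0 = 0) (h1 : f 1 = 2 * Real.cos α) (h2 : f 2 = 0) (h3 : 0 < f 3)
    (hα : 0 < α) (hα' : α < Real.pi) (hc : Real.cos α ≠ 0) {ε : ℝ} (hε : 0 < ε) :
    0 < MeasureTheory.volume {p : ℝ × ℝ | ‖p‖ < ε ∧
      ∃ C : ℝ, ∀ n : ℕ, ‖fderiv ℝ ((Tm F)^[n]) p‖ ≤ C * (n + 1)} := by
  set γ := f 3 with hγ
  set c := Real.cos α with hcdef
  have hc1 : |c| ≤ 1 := Real.abs_cos_le_one α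
  have hsin : 0 < Real.sin α := Real.sin_pos_of_pos_of_lt_pi hα hα'
  -- constants
  set σ := Real.sin α / 2 with hσdef
  have hσ : 0 < σ := by positivity
  have hσ1 : σ ≤ 1 := by rw [hσdef]; linarith [Real.sin_le_one α]
  have hd3 : Real.cos (3 * α) - c ≠ 0 := by
    have e : Real.cos (3 * α) - c = -4 * Real.cos α * Real.sin α ^ 2 := by
      rw [Real.cos_three_mul, Real.sin_sq, hcdef]
      ring
    rw [e]
    have : Real.sin α ^ 2 ≠ 0 := pow_ne_zero 2 hsin.ne'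
    simp only [ne_eq, mul_eq_zero, not_or]
    exact ⟨⟨by norm_num, hc⟩, this⟩
  set d₁ := |Real.cos (3 * α) - c| / 2 with hd₁def
  have hd₁ : 0 < d₁ := by
    rw [hd₁def]
    have := abs_pos.2 hd3
    positivity
  set η₀ := σ / 1000 with hη₀
  have hη₀0 : 0 < η₀ := by positivity
  set ε₁ := γ * σ ^ 2 / 10 ^ 6 with hε₁def
  have hε₁ : 0 < ε₁ := by positivity
  set B := 27 * γ + 1 with hB
  have hB0 : 0 < B := by positivity
  obtain ⟨εk, hεk, hkam⟩ := kam (B := B) (σ := σ) (s₀ := γ / 256) (κ := γ / 400) (η₀ := η₀)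
    (ε₁ := ε₁) hB0 hσ (by positivity) (by positivity) hη₀0 (by rw [hη₀]; linarith) hε₁
  obtain ⟨Ci, hCi, hinit⟩ := initial h3 hd₁
  obtain ⟨Cs, δ₀, hCs, hδ₀, hδR, hscale⟩ := scale_series (c := c) (γ := γ) hR hs h0 h1 h2 rfl
  obtain ⟨Cr, hCr, hrot⟩ := rot_lip (L := 10 + B + 8) hσ (by positivity)
  set ρ₁ := min (σ / 2000) (d₁ / 3) with hρ₁def
  have hρ₁ : 0 < ρ₁ := lt_min (by positivity) (by positivity)
  have hρ₁a : ρ₁ ≤ σ / 2000 := min_le_left _ _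
  have hρ₁b : ρ₁ ≤ d₁ / 3 := min_le_right _ _
  obtain ⟨ν₀, hν₀, hfreq⟩ := K26_freq (ρ₁ := ρ₁) h3 hα hα' hρ₁
  -- the scale
  set t := min (min ε₁ (η₀ / 2)) (min (εk / 2) (min (ε / 2) 1)) with ht
  have ht0 : 0 < t := lt_min (lt_min hε₁ (by positivity))
    (lt_min (by positivity) (lt_min (by positivity) one_pos))
  have ht1 : t ≤ ε₁ := (min_le_left _ _).trans (min_le_left _ _)
  have ht2 : t ≤ η₀ / 2 := (min_le_left _ _).trans (min_le_right _ _)
  have ht3 : t ≤ εk / 2 := (min_le_right _ _).trans (min_le_left _ _)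
  have ht4 : t ≤ ε / 2 := ((min_le_right _ _).trans (min_le_right _ _)).trans (min_le_left _ _)
  have ht5 : t ≤ 1 := ((min_le_right _ _).trans (min_le_right _ _)).trans (min_le_right _ _)
  set δ := min (min δ₀ ν₀) (t / (1 + Cs + Ci)) with hδdef
  have hδ : 0 < δ := lt_min (lt_min hδ₀ hν₀) (by positivity)
  have hδ1 : δ ≤ δ₀ := (min_le_left _ _).trans (min_le_left _ _)
  have hδ2 : δ ≤ ν₀ := (min_le_left _ _).trans (min_le_right _ _)
  have hδ3 : δ * (1 + Cs + Ci) ≤ t := by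
    rw [← le_div_iff₀ (by positivity)]
    exact min_le_right _ _
  have hpr : δ * (1 + Cs + Ci) = δ + Cs * δ + Ci * δ := by ring
  have hpr1 : 0 < Cs * δ := mul_pos hCs hδ
  have hpr2 : 0 < Ci * δ := mul_pos hCi hδ
  rw [hpr] at hδ3
  have hCsδ : Cs * δ ≤ t := by linarith
  have hCiδ : Ci * δ ≤ t := by linarith
  have hδt : δ ≤ t := by linarith
  have hδle : δ ≤ 1 := hδt.trans ht5
  clear_value δ t
  set ν := δ ^ 2 with hνdef
  have hν : 0 < ν := by positivity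
  have hνδ : ν ≤ δ := by
    rw [hνdef, sq]
    exact mul_le_of_le_one_left hδ.le hδle
  have hν1 : ν ≤ 1 := hνδ.trans hδle
  have hCiν : Ci * ν ≤ t := (mul_le_mul_of_nonneg_left hνδ hCi.le).trans hCiδ
  set τ := Cs * δ with hτdef
  obtain ⟨hPS, hFeq⟩ := hscale δ hδ hδ1
  set g : ℕ → ℝ := fun n => if n < 4 then 0 else f n * δ ^ (n - 3) with hg
  have hΨ : NL (H g) (H1 g) τ := NL_H hPS
  have hΦ : NL (fun z => γ * z ^ 3 + H g z) (fun z => 3 * γ * z ^ 2 + H1 g z) B :=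
    NL_mono (by rw [hB]; linarith) (NL_add (NL_cube h3.le) hΨ)
  set Fδ : ℝ → ℝ := fun z => F (δ * z) / δ with hFδ
  have hFδeq : ∀ z : ℝ, |z| < 3 → Fδ z = Fn c ν (fun z => γ * z ^ 3 + H g z) z := by
    intro z hz
    have h4 : |δ * z| < R := by
      rw [abs_mul, abs_of_pos hδ]
      calc δ * |z| ≤ δ₀ * 3 := mul_le_mul hδ1 hz.le (abs_nonneg z) hδ₀.le
        _ < R := by linarith
    have h5 := hFeq z hz.le
    rw [hFδ]
    dsimp only
    rw [hF _ h4]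
    exact h5
  have hFo := K26_force hc1 hν hν1 hΦ hFδeq
  obtain ⟨p, ℓ, hℓ1, hℓ2, hΩall⟩ := hfreq ν hν (hνδ.trans hδ2)
  set D : Set ℝ := {Ω : ℝ | Ω ∈ Set.Icc p (p + ℓ) ∧ Dio (γ / 400 * ν) Ω} with hDdef
  have hD : 0 < MeasureTheory.volume D := dio_measure (by positivity) hℓ1 hℓ2
  have hsinΩ : ∀ Ω ∈ D, σ ≤ |Real.sin Ω| := by
    intro Ω hΩ
    obtain ⟨h4, -, -⟩ := hΩall Ω hΩ.1
    have h5 : |Real.sin Ω - Real.sin α| ≤ |Ω - α| := by
      have := Real.lipschitzWith_sin.dist_le_mul Ω α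
      rw [Real.dist_eq, Real.dist_eq] at this
      simpa using this
    rw [abs_le] at h5
    refine le_trans ?_ (le_abs_self _)
    have h6 : Real.sin α = 2 * σ := by rw [hσdef]; ring
    linarith [h5.1]
  have key : ∀ Ω ∈ D, ∃ (r : ℝ) (X : ℝ → ℝ), 1 / 2 ≤ r ∧ r ≤ 1 ∧
      Cur Fδ Ω r η₀ (10 + B + 8) X (deriv X) := by
    intro Ω hΩ
    obtain ⟨h4, h5, h6⟩ := hΩall Ω hΩ.1
    have hs1 := hsinΩ Ω hΩ
    have hc3 : d₁ ≤ |Real.cos (3 * Ω) - c| := by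
      have h7 : |Real.cos (3 * α) - Real.cos (3 * Ω)| ≤ |3 * α - 3 * Ω| := by
        have := Real.lipschitzWith_cos.dist_le_mul (3 * α) (3 * Ω)
        rw [Real.dist_eq, Real.dist_eq] at this
        simpa using this
      have h8 : |3 * α - 3 * Ω| = 3 * |Ω - α| := by
        have : 3 * α - 3 * Ω = -(3 * (Ω - α)) := by ring
        rw [this, abs_neg, abs_mul]
        norm_num
      have h9 : |Real.cos (3 * α) - c| = 2 * d₁ := by rw [hd₁def]; ring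
      have h10 : |Real.cos (3 * α) - c| ≤ |Real.cos (3 * α) - Real.cos (3 * Ω)| +
          |Real.cos (3 * Ω) - c| := by
        have : Real.cos (3 * α) - c = (Real.cos (3 * α) - Real.cos (3 * Ω)) +
          (Real.cos (3 * Ω) - c) := by ring
        rw [this]
        exact abs_add_le _ _
      linarith
    have hνγ : 0 < ν * γ := mul_pos hν h3
    set q := (2 * Real.cos Ω - 2 * c) / (3 / 4 * ν * γ) with hq
    have hq1 : 1 / 4 ≤ q := by
      rw [hq, le_div_iff₀ (by positivity)]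
      linarith
    have hq2 : q ≤ 1 := by
      rw [hq, div_le_iff₀ (by positivity)]
      linarith
    set r := √q with hr
    have hrq : r ^ 2 = q := Real.sq_sqrt (by linarith)
    have hr0 : 0 ≤ r := Real.sqrt_nonneg _
    have hrl : 1 / 2 ≤ r := Real.le_sqrt_of_sq_le (by norm_num; linarith)
    have hru : r ≤ 1 := Real.sqrt_le_one.2 hq2
    have hrel : 2 * Real.cos Ω - 2 * c = 3 / 4 * ν * γ * r ^ 2 := by
      rw [hrq, hq]
      field_simp
    obtain ⟨X₀, hX₀, hX₁, hX₂, hX₃⟩ := hinit c ν τ Ω r (H g) (H1 g) hν hν1 (hCiν.trans ht5)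
      hrl hru hc3 hrel hΨ
    have hT : ∀ (ρ : ℝ) (X : ℝ → ℝ), 0 ≤ ρ → Differentiable ℝ X →
        A ρ η₀ (fun θ => X θ - r * Real.cos θ) → A ρ η₀ (fun θ => deriv X θ + r * Real.sin θ) →
        A ρ (ν * ε₁) (Er (Fn c ν (fun z => γ * z ^ 3 + H g z)) Ω X) →
        γ / 256 * ν ≤ |avg (Sr (Fn c ν (fun z => γ * z ^ 3 + H g z))
          (Fd c ν (fun z => 3 * γ * z ^ 2 + H1 g z)) Ω X (deriv X))| := by
      intro ρ X hρ hX k1 k2 k3
      exact torsion h3 hσ c ν τ ε₁ Ω r η₀ ρ (H g) (H1 g) X hν hrl hru hs1 le_rfl hΨ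
        (hCsδ.trans ht1) le_rfl hρ hX k1 k2 k3
    obtain ⟨X, hX, hXa, hXb, hXc⟩ := hkam c ν Ω r _ _ X₀ hc1 hν hν1 hrl hru hs1 hΩ.2 hΦ hT hX₀
      (A_mono le_rfl (hCiν.trans ht2) hX₁) (A_mono le_rfl (hCiν.trans ht2) hX₂)
      (A_mono le_rfl (mul_le_mul_of_nonneg_left (by linarith) hν.le) hX₃)
    refine ⟨r, X, hrl, hru, ?_⟩
    rcases K26_cur hσ hrl hru hs1 (by rw [hη₀]; linarith) hX hXa hXb hXc hFδeq with h | h
    · exact h
    · exact absurd hB0 (not_lt.2 h.le)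
  choose! r X hrl hru hcur using key
  have hy : ∀ Ω ∈ D, ∀ y ∈ Set.Icc (-(1 / 4) : ℝ) (1 / 4), ∃ θ : ℝ, X Ω (θ - Ω) = y := by
    intro Ω hΩ y hy
    have hC := hcur Ω hΩ
    have hcont : ContinuousOn (X Ω) (Set.Icc 0 Real.pi) := fun θ _ =>
      (hC.der θ).continuousAt.continuousWithinAt
    have h4 := intermediate_value_Icc' Real.pi_pos.le hcont
    have h5 : X Ω Real.pi ≤ -(1 / 4) := by
      have := (abs_le.1 (hC.close Real.pi)).2
      rw [Real.cos_pi] at this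
      have := hrl Ω hΩ
      linarith
    have h6 : 1 / 4 ≤ X Ω 0 := by
      have := (abs_le.1 (hC.close 0)).1
      rw [Real.cos_zero] at this
      have := hrl Ω hΩ
      linarith
    obtain ⟨θ, -, hθ⟩ := h4 (show y ∈ Set.Icc (X Ω Real.pi) (X Ω 0) from
      ⟨h5.trans hy.1, hy.2.trans h6⟩)
    exact ⟨θ + Ω, by rw [add_sub_cancel_right]; exact hθ⟩
  choose! ψ hψ using hy
  set Z : Set (ℝ × ℝ) := {p | ∃ Ω ∈ D, ∃ θ : ℝ, p = (X Ω θ, X Ω (θ - Ω))} with hZdef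
  have hZ : 0 < MeasureTheory.volume Z := by
    refine positive_measure hCr hD (fun Ω y => X Ω (ψ Ω y)) ?_ ?_
    · intro Ω hΩ y hy
      exact ⟨Ω, hΩ, ψ Ω y, by rw [hψ Ω hΩ y hy]⟩
    · intro Ω hΩ Ω' hΩ' y hy
      have h4 : |Ω - Ω'| ≤ σ / 1000 := by
        have a1 := (hΩall Ω hΩ.1).1
        have a2 := (hΩall Ω' hΩ'.1).1
        rw [abs_le] at a1 a2 ⊢
        constructor <;> linarith [a1.1, a1.2, a2.1, a2.2]
      have h5 := hrot Fδ _ Ω Ω' (r Ω) (r Ω') η₀ (X Ω) (deriv (X Ω)) (X Ω') (deriv (X Ω')) hFo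
        (hsinΩ Ω hΩ) (hsinΩ Ω' hΩ') h4 (hrl Ω hΩ) (hru Ω hΩ) (hrl Ω' hΩ') (hru Ω' hΩ') le_rfl
        (hcur Ω hΩ) (hcur Ω' hΩ') (ψ Ω y) (ψ Ω' y)
      rw [hψ Ω hΩ y hy, hψ Ω' hΩ' y hy, sub_self, abs_zero, max_eq_left (abs_nonneg _)] at h5
      exact h5
  refine lt_of_lt_of_le (scale_measure hδ hZ) (MeasureTheory.measure_mono ?_)
  rintro q ⟨p, ⟨Ω, hΩ, θ, rfl⟩, rfl⟩
  have hC := hcur Ω hΩ
  have hXb : ∀ θ, |X Ω θ| ≤ 11 / 10 := fun θ =>
    (frame_bounds hσ Ω (r Ω) η₀ (X Ω) (deriv (X Ω)) (hrl Ω hΩ) (hru Ω hΩ) (hsinΩ Ω hΩ) le_rfl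
      hC.close hC.close1 θ).2.2.1
  refine ⟨?_, ?_⟩
  · rw [norm_smul, Real.norm_eq_abs, abs_of_pos hδ, Prod.norm_def, Real.norm_eq_abs,
      Real.norm_eq_abs]
    have h4 : max |X Ω θ| |X Ω (θ - Ω)| ≤ 11 / 10 := max_le (hXb _) (hXb _)
    calc δ * max |X Ω θ| |X Ω (θ - Ω)| ≤ ε / 2 * (11 / 10) :=
          mul_le_mul (hδt.trans ht4) h4 (le_max_of_le_left (abs_nonneg _)) (by positivity)
      _ < ε := by linarith
  · obtain ⟨C, hgr⟩ := growth hσ Fδ _ Ω (r Ω) η₀ (X Ω) (deriv (X Ω)) hFo (hrl Ω hΩ) (hru Ω hΩ)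
      (hsinΩ Ω hΩ) le_rfl hC θ
    refine ⟨C, fun n => ?_⟩
    rw [scale_fderiv F hδ]
    exact hgr n

end Pool.Agent.LibKam44
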